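import Pool.Agent.H43.Quot.Count

/-!
Submodules of `R^d` for a ring `R = O ⊕ O y` with `y^2 = X^m y`.
-/

namespace Pool.Agent.H43.Quot

open PowerSeries

variable {k : Type} [Field k] {R : Type} [CommRing R] [Algebra k⟦X⟧ R]

section abs

variable (m d : ℕ) (y : R) (e : (k⟦X⟧ × k⟦X⟧) ≃ₗ[k⟦X⟧] R)

/-- the coordinates of `R^d` -/
noncomputable def bigE : ((Fin d → k⟦X⟧) × (Fin d → k⟦X⟧)) ≃ₗ[k⟦X⟧] (Fin d → R) where
  toFun p i := e (p.1 i, p.2 i)
  map_add' p q := by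
    funext i
    exact map_add e (p.1 i, p.2 i) (q.1 i, q.2 i)
  map_smul' c p := by
    funext i
    exact map_smul e c (p.1 i, p.2 i)
  invFun v := (fun i => (e.symm (v i)).1, fun i => (e.symm (v i)).2)
  left_inv p := by
    refine Prod.ext ?_ ?_
    · funext i
      show (e.symm (e (p.1 i, p.2 i))).1 = p.1 i
      rw [LinearEquiv.symm_apply_apply]
    · funext i
      show (e.symm (e (p.1 i, p.2 i))).2 = p.2 i
      rw [LinearEquiv.symm_apply_apply]
  right_inv v := by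
    funext i
    show e ((e.symm (v i)).1, (e.symm (v i)).2) = v i
    exact e.apply_symm_apply (v i)

theorem bigE_apply (p : (Fin d → k⟦X⟧) × (Fin d → k⟦X⟧)) (i : Fin d) :
    bigE d e p i = e (p.1 i, p.2 i) := rfl

variable {m d y e}

theorem bigE_y (hy : y * y = algebraMap k⟦X⟧ R (X ^ m) * y)
    (he : ∀ a b, e (a, b) = algebraMap k⟦X⟧ R a + algebraMap k⟦X⟧ R b * y)
    (x z : Fin d → k⟦X⟧) : bigE d e (0, x + (X : k⟦X⟧) ^ m • z) = y • bigE d e (x, z) := by
  funext i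
  rw [bigE_apply, Pi.smul_apply, bigE_apply, he, he]
  show algebraMap k⟦X⟧ R 0 + algebraMap k⟦X⟧ R (x i + X ^ m * z i) * y =
    y * (algebraMap k⟦X⟧ R (x i) + algebraMap k⟦X⟧ R (z i) * y)
  rw [map_zero, zero_add, map_add, map_mul]
  linear_combination (-algebraMap k⟦X⟧ R (z i)) * hy

/-- the `O`-submodule of an `R`-submodule -/
noncomputable def toP (e : (k⟦X⟧ × k⟦X⟧) ≃ₗ[k⟦X⟧] R) (L : Submodule R (Fin d → R)) :
    Submodule k⟦X⟧ ((Fin d → k⟦X⟧) × (Fin d → k⟦X⟧)) :=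
  (L.restrictScalars k⟦X⟧).comap (bigE d e : _ →ₗ[k⟦X⟧] (Fin d → R))

theorem mem_toP {L : Submodule R (Fin d → R)} {p : (Fin d → k⟦X⟧) × (Fin d → k⟦X⟧)} :
    p ∈ toP e L ↔ bigE d e p ∈ L := Iff.rfl

theorem toP_stable (hy : y * y = algebraMap k⟦X⟧ R (X ^ m) * y)
    (he : ∀ a b, e (a, b) = algebraMap k⟦X⟧ R a + algebraMap k⟦X⟧ R b * y)
    (L : Submodule R (Fin d → R)) : Stable m (toP e L) := by
  intro x z h
  rw [mem_toP, bigE_y hy he]
  exact L.smul_mem y h

theorem card_toP (L : Submodule R (Fin d → R)) :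
    Nat.card (((Fin d → k⟦X⟧) × (Fin d → k⟦X⟧)) ⧸ toP e L) = Nat.card ((Fin d → R) ⧸ L) := by
  have h1 : (toP e L).map (bigE d e : _ →ₗ[k⟦X⟧] (Fin d → R)) = L.restrictScalars k⟦X⟧ := by
    rw [toP, Submodule.map_comap_eq, LinearEquiv.range, top_inf_eq]
  have h2 : Nat.card (((Fin d → k⟦X⟧) × (Fin d → k⟦X⟧)) ⧸ toP e L) =
      Nat.card ((Fin d → R) ⧸ L.restrictScalars k⟦X⟧) :=
    Nat.card_congr (Submodule.Quotient.equiv (toP e L) (L.restrictScalars k⟦X⟧) (bigE d e)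
      h1).toEquiv
  rw [h2]
  exact Nat.card_congr (Submodule.Quotient.restrictScalarsEquiv k⟦X⟧ L).toEquiv

/-- the `R`-submodule of a stable `O`-submodule -/
noncomputable def ofP (hy : y * y = algebraMap k⟦X⟧ R (X ^ m) * y)
    (he : ∀ a b, e (a, b) = algebraMap k⟦X⟧ R a + algebraMap k⟦X⟧ R b * y)
    (P : Submodule k⟦X⟧ ((Fin d → k⟦X⟧) × (Fin d → k⟦X⟧))) (hP : Stable m P) :
    Submodule R (Fin d → R) where
  carrier := {v | (bigE d e).symm v ∈ P}
  zero_mem' := by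
    show (bigE d e).symm 0 ∈ P
    rw [map_zero]
    exact P.zero_mem
  add_mem' := by
    intro v w hv hw
    show (bigE d e).symm (v + w) ∈ P
    rw [map_add]
    exact P.add_mem hv hw
  smul_mem' := by
    intro r v hv
    have hv' : (bigE d e).symm v ∈ P := hv
    obtain ⟨⟨a, b⟩, rfl⟩ := e.surjective r
    have h1 : e (a, b) • v = bigE d e (a • (bigE d e).symm v +
        b • ((0 : Fin d → k⟦X⟧), ((bigE d e).symm v).1 + (X : k⟦X⟧) ^ m • ((bigE d e).symm v).2)) := by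
      rw [map_add, map_smul, map_smul, bigE_y hy he]
      have h2 : bigE d e (((bigE d e).symm v).1, ((bigE d e).symm v).2) = v :=
        (bigE d e).apply_symm_apply v
      rw [h2, he]
      funext i
      show (algebraMap k⟦X⟧ R a + algebraMap k⟦X⟧ R b * y) * v i = a • v i + b • (y * v i)
      rw [Algebra.smul_def, Algebra.smul_def]
      ring
    show (bigE d e).symm (e (a, b) • v) ∈ P
    rw [h1, LinearEquiv.symm_apply_apply]
    exact P.add_mem (P.smul_mem _ hv') (P.smul_mem _ (hP _ _ hv'))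

theorem toP_ofP (hy : y * y = algebraMap k⟦X⟧ R (X ^ m) * y)
    (he : ∀ a b, e (a, b) = algebraMap k⟦X⟧ R a + algebraMap k⟦X⟧ R b * y)
    (P : Submodule k⟦X⟧ ((Fin d → k⟦X⟧) × (Fin d → k⟦X⟧))) (hP : Stable m P) :
    toP e (ofP hy he P hP) = P := by
  ext p
  rw [mem_toP]
  show (bigE d e).symm (bigE d e p) ∈ P ↔ p ∈ P
  rw [LinearEquiv.symm_apply_apply]

theorem toP_injective : Function.Injective (toP (d := d) e) := by
  intro L L' h
  ext v
  have h1 : (bigE d e).symm v ∈ toP e L ↔ (bigE d e).symm v ∈ toP e L' := by rw [h]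
  rw [mem_toP, mem_toP, LinearEquiv.apply_symm_apply] at h1
  exact h1

/-- the submodules of `R^d` of given index -/
noncomputable def submodulesEquiv (hy : y * y = algebraMap k⟦X⟧ R (X ^ m) * y)
    (he : ∀ a b, e (a, b) = algebraMap k⟦X⟧ R a + algebraMap k⟦X⟧ R b * y) (n : ℕ) :
    {L : Submodule R (Fin d → R) // Nat.card ((Fin d → R) ⧸ L) = Nat.card k ^ n} ≃
      PSet (k := k) m (Fin d → k⟦X⟧) n := by
  refine Equiv.ofBijective
    (fun L => ⟨toP e L.1, toP_stable hy he L.1, (card_toP L.1).trans L.2⟩) ⟨?_, ?_⟩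
  · intro L L' h
    exact Subtype.ext (toP_injective (congrArg Subtype.val h))
  · rintro ⟨P, hP, hc⟩
    refine ⟨⟨ofP hy he P hP, ?_⟩, Subtype.ext (toP_ofP hy he P hP)⟩
    rw [← card_toP (e := e), toP_ofP hy he P hP]
    exact hc

end abs

end Pool.Agent.H43.Quot
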