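import Mathlib

/-!
Surjections `R^d → k^n` and quotients of `R^d` of dimension `n`.
-/

namespace Pool.Agent.H43.Quot

variable {k R : Type} [Field k] [CommRing R] [Algebra k R] {V : Type} [AddCommGroup V] [Module k V]

/-- the map `R^d → V` given by a module structure on `V` and `d` vectors -/
noncomputable def ePhi {d : ℕ} (ρ : R →ₐ[k] Module.End k V) (v : Fin d → V) :
    (Fin d → R) →ₗ[k] V where
  toFun r := ∑ i, ρ (r i) (v i)
  map_add' r s := by
    rw [← Finset.sum_add_distrib]
    refine Finset.sum_congr rfl fun i _ => ?_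
    rw [Pi.add_apply, map_add, LinearMap.add_apply]
  map_smul' c r := by
    rw [RingHom.id_apply, Finset.smul_sum]
    refine Finset.sum_congr rfl fun i _ => ?_
    rw [Pi.smul_apply, map_smul, LinearMap.smul_apply]

theorem ePhi_apply {d : ℕ} (ρ : R →ₐ[k] Module.End k V) (v : Fin d → V) (r : Fin d → R) :
    ePhi ρ v r = ∑ i, ρ (r i) (v i) := rfl

theorem ePhi_smul {d : ℕ} (ρ : R →ₐ[k] Module.End k V) (v : Fin d → V) (s : R) (r : Fin d → R) :
    ePhi ρ v (s • r) = ρ s (ePhi ρ v r) := by
  rw [ePhi_apply, ePhi_apply, map_sum]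
  refine Finset.sum_congr rfl fun i _ => ?_
  rw [Pi.smul_apply, smul_eq_mul, map_mul, Module.End.mul_apply]

theorem ePhi_single {d : ℕ} (ρ : R →ₐ[k] Module.End k V) (v : Fin d → V) (i : Fin d) :
    ePhi ρ v (Pi.single i 1) = v i := by
  rw [ePhi_apply, Finset.sum_eq_single i]
  · rw [Pi.single_eq_same, map_one, Module.End.one_apply]
  · intro j _ hj
    rw [Pi.single_eq_of_ne hj, map_zero, LinearMap.zero_apply]
  · intro h
    exact absurd (Finset.mem_univ i) h

/-- the kernel, as an `R`-submodule -/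
noncomputable def kerR {d : ℕ} (ρ : R →ₐ[k] Module.End k V) (v : Fin d → V) :
    Submodule R (Fin d → R) where
  carrier := {r | ePhi ρ v r = 0}
  zero_mem' := map_zero _
  add_mem' := by
    intro r s hr hs
    show ePhi ρ v (r + s) = 0
    rw [map_add]
    rw [show ePhi ρ v r = 0 from hr, show ePhi ρ v s = 0 from hs, add_zero]
  smul_mem' := by
    intro c r hr
    show ePhi ρ v (c • r) = 0
    rw [ePhi_smul, show ePhi ρ v r = 0 from hr, map_zero]

/-- the module structure on `V` transported from a quotient of `R^d` -/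
noncomputable def rhoOf {d : ℕ} (L : Submodule R (Fin d → R)) (α : ((Fin d → R) ⧸ L) ≃ₗ[k] V) :
    R →ₐ[k] Module.End k V where
  toFun s := α.toLinearMap ∘ₗ (Algebra.lsmul k k ((Fin d → R) ⧸ L) s) ∘ₗ α.symm.toLinearMap
  map_one' := by
    ext x
    simp
  map_mul' s t := by
    ext x
    simp
  map_zero' := by
    ext x
    simp
  map_add' s t := by
    ext x
    simp
  commutes' c := by
    ext x
    simp

theorem rhoOf_apply {d : ℕ} (L : Submodule R (Fin d → R)) (α : ((Fin d → R) ⧸ L) ≃ₗ[k] V) (s : R)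
    (x : V) : rhoOf L α s x = α (s • α.symm x) := rfl

/-- the vectors -/
noncomputable def vOf {d : ℕ} (L : Submodule R (Fin d → R)) (α : ((Fin d → R) ⧸ L) ≃ₗ[k] V) :
    Fin d → V :=
  fun i => α (L.mkQ (Pi.single i 1))

theorem ePhi_of {d : ℕ} (L : Submodule R (Fin d → R)) (α : ((Fin d → R) ⧸ L) ≃ₗ[k] V)
    (r : Fin d → R) : ePhi (rhoOf L α) (vOf L α) r = α (L.mkQ r) := by
  have h : r = ∑ i, r i • (Pi.single i 1 : Fin d → R) := by
    ext j
    rw [Finset.sum_apply, Finset.sum_eq_single j]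
    · simp
    · intro i _ hi
      simp [Pi.single_eq_of_ne hi.symm]
    · intro hj
      exact absurd (Finset.mem_univ j) hj
  rw [ePhi_apply]
  conv_rhs => rw [h, map_sum, map_sum]
  refine Finset.sum_congr rfl fun i _ => ?_
  rw [rhoOf_apply, vOf, LinearEquiv.symm_apply_apply, map_smul L.mkQ]

/-- pairs of a module structure and generators -/
def GSet (k R : Type) [Field k] [CommRing R] [Algebra k R] (V : Type) [AddCommGroup V] [Module k V]
    (d : ℕ) : Type :=
  {p : (R →ₐ[k] Module.End k V) × (Fin d → V) // Function.Surjective (ePhi p.1 p.2)}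

/-- the comparison map -/
noncomputable def gsMap {d : ℕ} (p : Σ L : Submodule R (Fin d → R), ((Fin d → R) ⧸ L) ≃ₗ[k] V) :
    GSet k R V d :=
  ⟨(rhoOf p.1 p.2, vOf p.1 p.2), by
    intro x
    obtain ⟨r, hr⟩ := p.1.mkQ_surjective (p.2.symm x)
    refine ⟨r, ?_⟩
    show ePhi (rhoOf p.1 p.2) (vOf p.1 p.2) r = x
    rw [ePhi_of, hr, LinearEquiv.apply_symm_apply]⟩

theorem gsMap_bij {d : ℕ} : Function.Bijective (gsMap (k := k) (R := R) (V := V) (d := d)) := by
  constructor
  · rintro ⟨L, α⟩ ⟨L', α'⟩ h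
    have h1 : rhoOf L α = rhoOf L' α' := congrArg (fun p : GSet k R V d => p.1.1) h
    have h2 : vOf L α = vOf L' α' := congrArg (fun p : GSet k R V d => p.1.2) h
    have h3 : ∀ r, α (L.mkQ r) = α' (L'.mkQ r) := by
      intro r
      rw [← ePhi_of, ← ePhi_of, h1, h2]
    have h4 : L = L' := by
      ext r
      rw [← Submodule.Quotient.mk_eq_zero L, ← Submodule.Quotient.mk_eq_zero L',
        ← α.map_eq_zero_iff, ← α'.map_eq_zero_iff]
      have := h3 r
      rw [Submodule.mkQ_apply, Submodule.mkQ_apply] at this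
      rw [this]
    subst h4
    have h5 : α = α' := by
      apply LinearEquiv.ext
      intro y
      obtain ⟨r, rfl⟩ := L.mkQ_surjective y
      exact h3 r
    rw [h5]
  · rintro ⟨⟨ρ, v⟩, hs⟩
    have hK : (kerR ρ v).restrictScalars k = LinearMap.ker (ePhi ρ v) := rfl
    let e1 : ((Fin d → R) ⧸ (kerR ρ v).restrictScalars k) ≃ₗ[k] V :=
      (Submodule.quotEquivOfEq _ _ hK).trans ((ePhi ρ v).quotKerEquivOfSurjective hs)
    let α : ((Fin d → R) ⧸ kerR ρ v) ≃ₗ[k] V :=
      (Submodule.Quotient.restrictScalarsEquiv k (kerR ρ v)).symm.trans e1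
    have hα : ∀ r, α ((kerR ρ v).mkQ r) = ePhi ρ v r := fun r => rfl
    refine ⟨⟨kerR ρ v, α⟩, ?_⟩
    apply Subtype.ext
    refine Prod.ext ?_ ?_
    · show rhoOf (kerR ρ v) α = ρ
      ext s x
      rw [rhoOf_apply]
      obtain ⟨r, rfl⟩ := hs x
      have h1 : α.symm (ePhi ρ v r) = (kerR ρ v).mkQ r := by
        rw [← hα, LinearEquiv.symm_apply_apply]
      rw [h1, ← map_smul, hα, ePhi_smul]
    · show vOf (kerR ρ v) α = v
      funext i
      rw [vOf, hα, ePhi_single]

/-! ### counting -/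

theorem card_iso {n : ℕ} {M : Type} [AddCommGroup M] [Module k M] (h : Module.rank k M = n) :
    Nonempty (M ≃ₗ[k] (Fin n → k)) := by
  have h2 : Module.rank k (Fin n → k) = n := by simp
  exact Module.nonempty_linearEquiv_iff_rank_eq.mpr (h.trans h2.symm)

/-- the total space, over the quotients of dimension `n` -/
noncomputable def sigmaEquiv (k R : Type) [Field k] [CommRing R] [Algebra k R] (n d : ℕ) :
    (Σ L : Submodule R (Fin d → R), ((Fin d → R) ⧸ L) ≃ₗ[k] (Fin n → k)) ≃
      {L : Submodule R (Fin d → R) // Module.rank k ((Fin d → R) ⧸ L) = n} ×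
        ((Fin n → k) ≃ₗ[k] (Fin n → k)) := by
  classical
  let e0 : ∀ L : {L : Submodule R (Fin d → R) // Module.rank k ((Fin d → R) ⧸ L) = n},
    ((Fin d → R) ⧸ L.1) ≃ₗ[k] (Fin n → k) := fun L => Classical.choice (card_iso L.2)
  have hr : ∀ (L : Submodule R (Fin d → R)) (_ : ((Fin d → R) ⧸ L) ≃ₗ[k] (Fin n → k)),
      Module.rank k ((Fin d → R) ⧸ L) = n := by
    intro L α
    rw [α.rank_eq]
    simp
  exact
    { toFun := fun p => (⟨p.1, hr p.1 p.2⟩, (e0 ⟨p.1, hr p.1 p.2⟩).symm.trans p.2)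
      invFun := fun p => ⟨p.1.1, (e0 p.1).trans p.2⟩
      left_inv := by
        rintro ⟨L, α⟩
        refine Sigma.ext rfl (heq_of_eq ?_)
        apply LinearEquiv.ext
        intro x
        simp
      right_inv := by
        rintro ⟨L, β⟩
        refine Prod.ext rfl ?_
        apply LinearEquiv.ext
        intro x
        simp }

/-- the number of surjections from `R^d` -/
theorem card_GSet (n d : ℕ) :
    Nat.card (GSet k R (Fin n → k) d) =
      Nat.card {L : Submodule R (Fin d → R) // Module.rank k ((Fin d → R) ⧸ L) = n} *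
        Nat.card ((Fin n → k) ≃ₗ[k] (Fin n → k)) := by
  rw [← Nat.card_prod]
  exact Nat.card_congr ((Equiv.ofBijective _ gsMap_bij).symm.trans (sigmaEquiv k R n d))

theorem surjective_of_span {n d : ℕ} (ρ : R →ₐ[k] Module.End k (Fin n → k))
    (v : Fin d → (Fin n → k)) (h : Submodule.span k (Set.range v) = ⊤) :
    Function.Surjective (ePhi ρ v) := by
  intro x
  have hx : x ∈ Submodule.span k (Set.range v) := by rw [h]; trivial
  obtain ⟨c, hc⟩ := (Submodule.mem_span_range_iff_exists_fun k).mp hx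
  refine ⟨fun i => algebraMap k R (c i), ?_⟩
  rw [ePhi_apply, ← hc]
  refine Finset.sum_congr rfl fun i _ => ?_
  rw [AlgHom.commutes, Module.algebraMap_end_apply]

theorem finite_homs [Finite k] (n : ℕ)
    (h : Finite {L : Submodule R (Fin n → R) // Module.rank k ((Fin n → R) ⧸ L) = n}) :
    Finite (R →ₐ[k] Module.End k (Fin n → k)) := by
  have h1 : Finite ((Fin n → k) ≃ₗ[k] (Fin n → k)) :=
    Finite.of_injective (fun e => (e : (Fin n → k) → (Fin n → k))) DFunLike.coe_injective
  have h2 : Finite (GSet k R (Fin n → k) n) :=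
    Finite.of_equiv _ ((Equiv.ofBijective _ gsMap_bij).symm.trans (sigmaEquiv k R n n)).symm
  let F : (R →ₐ[k] Module.End k (Fin n → k)) → GSet k R (Fin n → k) n := fun ρ =>
    ⟨(ρ, ⇑(Pi.basisFun k (Fin n))), surjective_of_span ρ _ (Pi.basisFun k (Fin n)).span_eq⟩
  refine Finite.of_injective F ?_
  intro ρ ρ' h
  exact congrArg (fun p : GSet k R (Fin n → k) n => p.1.1) h

theorem card_ker_functional [Finite k] {n : ℕ} (f : Module.Dual k (Fin n → k)) (hf : f ≠ 0) :
    Nat.card (LinearMap.ker f) * Nat.card k = Nat.card k ^ n := by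
  have h1 := Submodule.card_eq_card_quotient_mul_card (LinearMap.ker f)
  have h2 : Function.Surjective f := LinearMap.surjective hf
  have h3 : Nat.card ((Fin n → k) ⧸ LinearMap.ker f) = Nat.card k :=
    Nat.card_congr (f.quotKerEquivOfSurjective h2).toEquiv
  rw [h3] at h1
  have h4 : Nat.card (Fin n → k) = Nat.card k ^ n := by
    rw [Nat.card_fun]
    simp
  rw [← h4, h1]

theorem card_bad [Finite k] (n d : ℕ) :
    Nat.card {v : Fin d → (Fin n → k) // Submodule.span k (Set.range v) ≠ ⊤} * Nat.card k ^ d ≤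
      Nat.card k ^ n * (Nat.card k ^ n) ^ d := by
  classical
  have hfd : Finite (Module.Dual k (Fin n → k)) := Module.finite_of_finite k
  have hft : Fintype {f : Module.Dual k (Fin n → k) // f ≠ 0} := Fintype.ofFinite _
  have hex : ∀ v : {v : Fin d → (Fin n → k) // Submodule.span k (Set.range v) ≠ ⊤},
      ∃ f : Module.Dual k (Fin n → k), f ≠ 0 ∧ ∀ i, f (v.1 i) = 0 := by
    intro v
    obtain ⟨f, hf, hle⟩ := Submodule.exists_le_ker_of_lt_top (Submodule.span k (Set.range v.1))
      (lt_top_iff_ne_top.mpr v.2)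
    exact ⟨f, hf, fun i => hle (Submodule.subset_span ⟨i, rfl⟩)⟩
  choose f hf0 hf using hex
  let F : {v : Fin d → (Fin n → k) // Submodule.span k (Set.range v) ≠ ⊤} →
      (Σ f : {f : Module.Dual k (Fin n → k) // f ≠ 0}, (Fin d → LinearMap.ker f.1)) :=
    fun v => ⟨⟨f v, hf0 v⟩, fun i => ⟨v.1 i, hf v i⟩⟩
  have hF : Function.Injective F := by
    intro v w h
    apply Subtype.ext
    funext i
    have h1 : ∀ p q : (Σ f : {f : Module.Dual k (Fin n → k) // f ≠ 0}, (Fin d → LinearMap.ker f.1)),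
        p = q → (p.2 i : Fin n → k) = (q.2 i : Fin n → k) := by
      rintro p q rfl
      rfl
    exact h1 (F v) (F w) h
  have hle : Nat.card {v : Fin d → (Fin n → k) // Submodule.span k (Set.range v) ≠ ⊤} ≤
      Nat.card (Σ f : {f : Module.Dual k (Fin n → k) // f ≠ 0}, (Fin d → LinearMap.ker f.1)) :=
    Nat.card_le_card_of_injective F hF
  have hcard : Nat.card (Σ f : {f : Module.Dual k (Fin n → k) // f ≠ 0},
      (Fin d → LinearMap.ker f.1)) * Nat.card k ^ d =
      Nat.card {f : Module.Dual k (Fin n → k) // f ≠ 0} * (Nat.card k ^ n) ^ d := by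
    rw [Nat.card_sigma, Finset.sum_mul]
    have h1 : ∀ f : {f : Module.Dual k (Fin n → k) // f ≠ 0},
        Nat.card (Fin d → LinearMap.ker f.1) * Nat.card k ^ d = (Nat.card k ^ n) ^ d := by
      intro f
      rw [Nat.card_fun, ← card_ker_functional f.1 f.2, mul_pow]
      simp
    rw [Finset.sum_congr rfl (fun f _ => h1 f)]
    simp
  have hdual : Nat.card {f : Module.Dual k (Fin n → k) // f ≠ 0} ≤ Nat.card k ^ n := by
    have h1 : Nat.card {f : Module.Dual k (Fin n → k) // f ≠ 0} ≤
        Nat.card (Module.Dual k (Fin n → k)) :=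
      Nat.card_le_card_of_injective _ Subtype.val_injective
    rw [Module.natCard_eq_pow_finrank (K := k) (V := Module.Dual k (Fin n → k)),
      Subspace.dual_finrank_eq, Module.finrank_fin_fun] at h1
    exact h1
  calc _ ≤ Nat.card (Σ f : {f : Module.Dual k (Fin n → k) // f ≠ 0},
      (Fin d → LinearMap.ker f.1)) * Nat.card k ^ d := Nat.mul_le_mul_right _ hle
    _ = Nat.card {f : Module.Dual k (Fin n → k) // f ≠ 0} * (Nat.card k ^ n) ^ d := hcard
    _ ≤ Nat.card k ^ n * (Nat.card k ^ n) ^ d := Nat.mul_le_mul_right _ hdual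

/-- almost all tuples generate -/
theorem card_GSet_bounds [Finite k] (n d : ℕ)
    (h : Finite {L : Submodule R (Fin n → R) // Module.rank k ((Fin n → R) ⧸ L) = n}) :
    Nat.card (GSet k R (Fin n → k) d) ≤
        Nat.card (R →ₐ[k] Module.End k (Fin n → k)) * (Nat.card k ^ n) ^ d ∧
      Nat.card (R →ₐ[k] Module.End k (Fin n → k)) * (Nat.card k ^ n) ^ d * Nat.card k ^ d ≤
        Nat.card (GSet k R (Fin n → k) d) * Nat.card k ^ d +
        Nat.card (R →ₐ[k] Module.End k (Fin n → k)) * (Nat.card k ^ n * (Nat.card k ^ n) ^ d) := by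
  classical
  have hX : Finite (R →ₐ[k] Module.End k (Fin n → k)) := finite_homs n h
  have htot : Nat.card ((R →ₐ[k] Module.End k (Fin n → k)) × (Fin d → (Fin n → k))) =
      Nat.card (R →ₐ[k] Module.End k (Fin n → k)) * (Nat.card k ^ n) ^ d := by
    rw [Nat.card_prod, Nat.card_fun, Nat.card_fun]
    simp
  have hsum : Nat.card ((R →ₐ[k] Module.End k (Fin n → k)) × (Fin d → (Fin n → k))) =
      Nat.card (GSet k R (Fin n → k) d) +
      Nat.card {p : (R →ₐ[k] Module.End k (Fin n → k)) × (Fin d → (Fin n → k)) //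
        ¬ Function.Surjective (ePhi p.1 p.2)} := by
    have hG : Finite (GSet k R (Fin n → k) d) :=
      Finite.of_injective (fun p : GSet k R (Fin n → k) d => p.1) Subtype.val_injective
    rw [← Nat.card_sum]
    exact Nat.card_congr (Equiv.sumCompl (fun p :
      (R →ₐ[k] Module.End k (Fin n → k)) × (Fin d → (Fin n → k)) =>
        Function.Surjective (ePhi p.1 p.2))).symm
  have hbad : Nat.card {p : (R →ₐ[k] Module.End k (Fin n → k)) × (Fin d → (Fin n → k)) //
        ¬ Function.Surjective (ePhi p.1 p.2)} ≤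
      Nat.card (R →ₐ[k] Module.End k (Fin n → k)) *
        Nat.card {v : Fin d → (Fin n → k) // Submodule.span k (Set.range v) ≠ ⊤} := by
    rw [← Nat.card_prod]
    refine Nat.card_le_card_of_injective (fun p => (p.1.1, ⟨p.1.2, fun hs => p.2
      (surjective_of_span p.1.1 p.1.2 hs)⟩)) ?_
    intro p p' h
    apply Subtype.ext
    have h1 := congrArg Prod.fst h
    have h2 := congrArg (fun x => x.2.1) h
    exact Prod.ext h1 h2
  rw [← htot, hsum]
  constructor
  · exact Nat.le_add_right _ _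
  · rw [add_mul]
    apply Nat.add_le_add_left
    calc _ ≤ (Nat.card (R →ₐ[k] Module.End k (Fin n → k)) *
        Nat.card {v : Fin d → (Fin n → k) // Submodule.span k (Set.range v) ≠ ⊤}) *
          Nat.card k ^ d := Nat.mul_le_mul_right _ hbad
      _ = Nat.card (R →ₐ[k] Module.End k (Fin n → k)) *
        (Nat.card {v : Fin d → (Fin n → k) // Submodule.span k (Set.range v) ≠ ⊤} *
          Nat.card k ^ d) := mul_assoc _ _ _
      _ ≤ _ := Nat.mul_le_mul_left _ (card_bad n d)

end Pool.Agent.H43.Quot
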