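import Pool.Agent.H43.Quot.Lift

/-!
The count of `y`-stable submodules of `O^d × O^d`.
-/

namespace Pool.Agent.H43.Quot

open PowerSeries

variable {k : Type} [Field k]

section stable

variable {F : Type} [AddCommGroup F] [Module k⟦X⟧ F]

/-- stable under `(x, z) ↦ (0, x + X^m z)` -/
def Stable (m : ℕ) (P : Submodule k⟦X⟧ (F × F)) : Prop :=
  ∀ x z : F, (x, z) ∈ P → ((0 : F), x + (X : k⟦X⟧) ^ m • z) ∈ P

theorem stable_graphSub {m : ℕ} {I N : Submodule k⟦X⟧ F} {g : I →ₗ[k⟦X⟧] F ⧸ N} :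
    Stable m (graphSub I N g) ↔ ∀ x : I, mulX m N (g x) = - N.mkQ (x : F) := by
  constructor
  · rintro h ⟨x, hx⟩
    obtain ⟨z, hz⟩ := N.mkQ_surjective (g ⟨x, hx⟩)
    have h1 := h x z (mem_graphSub.mpr ⟨hx, hz.symm⟩)
    have h2 : x + (X : k⟦X⟧) ^ m • z ∈ ke (graphSub I N g) := h1
    rw [ke_graphSub] at h2
    have h3 : N.mkQ (x + (X : k⟦X⟧) ^ m • z) = 0 := (Submodule.Quotient.mk_eq_zero _).mpr h2
    rw [← hz, mulX_mkQ]
    rw [map_add] at h3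
    exact eq_neg_of_add_eq_zero_right h3
  · intro h x z hxz
    obtain ⟨hx, hg⟩ := mem_graphSub.mp hxz
    have h1 := h ⟨x, hx⟩
    rw [hg, mulX_mkQ] at h1
    have h2 : x + (X : k⟦X⟧) ^ m • z ∈ ke (graphSub I N g) := by
      rw [ke_graphSub]
      refine (Submodule.Quotient.mk_eq_zero _).mp ?_
      show N.mkQ (x + (X : k⟦X⟧) ^ m • z) = 0
      rw [map_add, h1, add_neg_cancel]
    exact h2

theorem le_tg_of_lift {m : ℕ} {I N : Submodule k⟦X⟧ F} (g : LSet m I N) :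
    I ≤ tg m LinearMap.id N := by
  intro x hx
  obtain ⟨z, hz⟩ := N.mkQ_surjective (g.1 ⟨x, hx⟩)
  have h1 := g.2 ⟨x, hx⟩
  rw [← hz, mulX_mkQ] at h1
  have h2 : x + (X : k⟦X⟧) ^ m • z ∈ N := by
    refine (Submodule.Quotient.mk_eq_zero _).mp ?_
    show N.mkQ (x + (X : k⟦X⟧) ^ m • z) = 0
    rw [map_add, h1, add_neg_cancel]
  refine mem_tg.mpr ⟨x + (X : k⟦X⟧) ^ m • z, h2, -z, ?_⟩
  rw [LinearMap.id_apply, smul_neg, add_neg_cancel_right]

/-- stable submodules of given index -/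
def PSet (m : ℕ) (F : Type) [AddCommGroup F] [Module k⟦X⟧ F] (n : ℕ) : Type :=
  {P : Submodule k⟦X⟧ (F × F) // Stable m P ∧ Nat.card ((F × F) ⧸ P) = Nat.card k ^ n}

/-- pairs of image and kernel -/
def ISet (k : Type) [Field k] (m : ℕ) (F : Type) [AddCommGroup F] [Module k⟦X⟧ F] (n : ℕ) : Type :=
  {p : Submodule k⟦X⟧ F × Submodule k⟦X⟧ F //
    p.1 ≤ tg m LinearMap.id p.2 ∧ Nat.card (F ⧸ p.1) * Nat.card (F ⧸ p.2) = Nat.card k ^ n}

/-- the parametrization of stable submodules -/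
noncomputable def pMap (m : ℕ) (F : Type) [AddCommGroup F] [Module k⟦X⟧ F] (n : ℕ)
    (p : Σ p : ISet k m F n, LSet m p.1.1 p.1.2) : PSet (k := k) m F n :=
  ⟨graphSub p.1.1.1 p.1.1.2 p.2.1, stable_graphSub.mpr p.2.2, by
    rw [card_quot, im_graphSub, ke_graphSub]
    exact p.1.2.2⟩

theorem pMap_bij (m : ℕ) (F : Type) [AddCommGroup F] [Module k⟦X⟧ F] (n : ℕ) :
    Function.Bijective (pMap (k := k) m F n) := by
  constructor
  · rintro ⟨⟨⟨I, N⟩, h1, h2⟩, g, hg⟩ ⟨⟨⟨I', N'⟩, h1', h2'⟩, g', hg'⟩ h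
    have h3 : graphSub I N g = graphSub I' N' g' := congrArg (fun P : PSet (k := k) m F n => P.1) h
    have h4 : I = I' := by rw [← im_graphSub I N g, h3, im_graphSub]
    have h5 : N = N' := by rw [← ke_graphSub I N g, h3, ke_graphSub]
    subst h4
    subst h5
    have h6 := graphSub_injective _ _ h3
    subst h6
    rfl
  · rintro ⟨P, h1, h2⟩
    have h3 : graphSub (im P) (ke P) (gMap P) = P := graphSub_gMap P
    have h4 : ∀ x : im P, mulX m (ke P) (gMap P x) = - (ke P).mkQ (x : F) := by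
      rw [← stable_graphSub, h3]
      exact h1
    have h5 : im P ≤ tg m LinearMap.id (ke P) := le_tg_of_lift ⟨gMap P, h4⟩
    rw [card_quot] at h2
    refine ⟨⟨⟨(im P, ke P), h5, h2⟩, ⟨gMap P, h4⟩⟩, ?_⟩
    exact Subtype.ext h3

end stable

section count

/-- an injective endomorphism with given image -/
noncomputable def psi {d : ℕ} (T : Submodule k⟦X⟧ (Fin d → k⟦X⟧)) :
    (Fin d → k⟦X⟧) →ₗ[k⟦X⟧] (Fin d → k⟦X⟧) := by
  classical
  exact if h : ∃ ψ : (Fin d → k⟦X⟧) →ₗ[k⟦X⟧] (Fin d → k⟦X⟧),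
    Function.Injective ψ ∧ LinearMap.range ψ = T then Classical.choose h else 0

theorem psi_spec [Finite k] {d : ℕ} {T : Submodule k⟦X⟧ (Fin d → k⟦X⟧)}
    (hT : Nat.card ((Fin d → k⟦X⟧) ⧸ T) ≠ 0) :
    Function.Injective (psi T) ∧ LinearMap.range (psi T) = T := by
  have h := exists_psi T hT
  rw [psi, dif_pos h]
  exact Classical.choose_spec h

/-- index set after parametrizing the image -/
def JSet (k : Type) [Field k] (m d n : ℕ) : Type :=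
  {p : Submodule k⟦X⟧ (Fin d → k⟦X⟧) × Submodule k⟦X⟧ (Fin d → k⟦X⟧) //
    Nat.card ((Fin d → k⟦X⟧) ⧸ p.1) * (Nat.card ((Fin d → k⟦X⟧) ⧸ p.2) *
      Nat.card ((Fin d → k⟦X⟧) ⧸ tg m LinearMap.id p.2)) = Nat.card k ^ n}

theorem card_map_psi [Finite k] {d : ℕ} {T : Submodule k⟦X⟧ (Fin d → k⟦X⟧)}
    (hT : Nat.card ((Fin d → k⟦X⟧) ⧸ T) ≠ 0) (I : Submodule k⟦X⟧ (Fin d → k⟦X⟧)) :
    Nat.card ((Fin d → k⟦X⟧) ⧸ I.map (psi T)) =
      Nat.card ((Fin d → k⟦X⟧) ⧸ T) * Nat.card ((Fin d → k⟦X⟧) ⧸ I) := by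
  obtain ⟨h1, h2⟩ := psi_spec hT
  rw [card_map_inj _ h1, h2]

theorem map_psi_le [Finite k] {d : ℕ} {T : Submodule k⟦X⟧ (Fin d → k⟦X⟧)}
    (hT : Nat.card ((Fin d → k⟦X⟧) ⧸ T) ≠ 0) (I : Submodule k⟦X⟧ (Fin d → k⟦X⟧)) :
    I.map (psi T) ≤ T := by
  obtain ⟨h1, h2⟩ := psi_spec hT
  have h3 : I.map (psi T) ≤ LinearMap.range (psi T) := LinearMap.map_le_range
  rwa [h2] at h3

theorem JSet_ne [Finite k] {m d n : ℕ} (p : JSet k m d n) :
    Nat.card ((Fin d → k⟦X⟧) ⧸ tg m LinearMap.id p.1.2) ≠ 0 := by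
  intro h
  have h1 := p.2
  rw [h, mul_zero, mul_zero] at h1
  exact (qpos (k := k) n).ne h1

theorem jMap_aux [Finite k] {m d c : ℕ} {I N : Submodule k⟦X⟧ (Fin d → k⟦X⟧)}
    (hT : Nat.card ((Fin d → k⟦X⟧) ⧸ tg m LinearMap.id N) ≠ 0)
    (h : Nat.card ((Fin d → k⟦X⟧) ⧸ I) * (Nat.card ((Fin d → k⟦X⟧) ⧸ N) *
      Nat.card ((Fin d → k⟦X⟧) ⧸ tg m LinearMap.id N)) = c) :
    Nat.card ((Fin d → k⟦X⟧) ⧸ I.map (psi (tg m LinearMap.id N))) *
      Nat.card ((Fin d → k⟦X⟧) ⧸ N) = c := by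
  rw [card_map_psi hT, ← h]
  ring

/-- the comparison -/
noncomputable def jMap [Finite k] (m d n : ℕ) (p : JSet k m d n) : ISet k m (Fin d → k⟦X⟧) n :=
  ⟨(p.1.1.map (psi (tg m LinearMap.id p.1.2)), p.1.2), map_psi_le (JSet_ne p) _,
    jMap_aux (JSet_ne p) p.2⟩

theorem tg_ne_of [Finite k] {m d : ℕ} {N : Submodule k⟦X⟧ (Fin d → k⟦X⟧)}
    (hN : Nat.card ((Fin d → k⟦X⟧) ⧸ N) ≠ 0) :
    Nat.card ((Fin d → k⟦X⟧) ⧸ tg m LinearMap.id N) ≠ 0 := by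
  have : Finite ((Fin d → k⟦X⟧) ⧸ N) := Nat.finite_of_card_ne_zero hN
  rw [← card_ker_mulX]
  exact Nat.card_pos.ne'

theorem jMap_bij [Finite k] (m d n : ℕ) : Function.Bijective (jMap (k := k) m d n) := by
  constructor
  · rintro ⟨⟨I, N⟩, h⟩ ⟨⟨I', N'⟩, h'⟩ he
    have h1 : N = N' := congrArg (fun p : ISet k m (Fin d → k⟦X⟧) n => p.1.2) he
    subst h1
    have h2 : I.map (psi (tg m LinearMap.id N)) = I'.map (psi (tg m LinearMap.id N)) :=
      congrArg (fun p : ISet k m (Fin d → k⟦X⟧) n => p.1.1) he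
    have h3 := (psi_spec (JSet_ne (⟨(I, N), h⟩ : JSet k m d n))).1
    have h4 := Submodule.map_injective_of_injective h3 h2
    subst h4
    rfl
  · rintro ⟨⟨I, N⟩, h1, h2⟩
    have hN : Nat.card ((Fin d → k⟦X⟧) ⧸ N) ≠ 0 := by
      intro h0
      have h2' : Nat.card ((Fin d → k⟦X⟧) ⧸ I) * Nat.card ((Fin d → k⟦X⟧) ⧸ N) = Nat.card k ^ n :=
        h2
      rw [h0, mul_zero] at h2'
      exact (qpos (k := k) n).ne h2'
    have hT := tg_ne_of (m := m) hN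
    obtain ⟨h3, h4⟩ := psi_spec hT
    have h5 : (I.comap (psi (tg m LinearMap.id N))).map (psi (tg m LinearMap.id N)) = I := by
      rw [Submodule.map_comap_eq, h4]
      exact inf_eq_right.mpr h1
    refine ⟨⟨(I.comap (psi (tg m LinearMap.id N)), N), ?_⟩, ?_⟩
    · have h2' : Nat.card ((Fin d → k⟦X⟧) ⧸ I) * Nat.card ((Fin d → k⟦X⟧) ⧸ N) = Nat.card k ^ n :=
        h2
      rw [← h5, card_map_psi hT] at h2'
      show Nat.card ((Fin d → k⟦X⟧) ⧸ I.comap (psi (tg m LinearMap.id N))) *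
        (Nat.card ((Fin d → k⟦X⟧) ⧸ N) * Nat.card ((Fin d → k⟦X⟧) ⧸ tg m LinearMap.id N)) = _
      rw [← h2']
      ring
    · exact Subtype.ext (Prod.ext h5 rfl)

/-- submodules of index `q^n` -/
def CSet (k : Type) [Field k] (d n : ℕ) : Type :=
  {N : Submodule k⟦X⟧ (Fin d → k⟦X⟧) // Nat.card ((Fin d → k⟦X⟧) ⧸ N) = Nat.card k ^ n}

theorem sMap_aux {q a b i j n : ℕ} (h1 : a = q ^ i) (h2 : b = q ^ j) (h3 : i + j = n) :
    a * b = q ^ n := by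
  rw [h1, h2, ← pow_add, h3]

/-- splitting by sizes -/
noncomputable def sMap (k : Type) [Field k] (m d n : ℕ)
    (p : Σ ij : {ij : ℕ × ℕ // ij ∈ Finset.HasAntidiagonal.antidiagonal n}, CSet k d ij.1.1 ×
      USet (k := k) m (LinearMap.id : (Fin d → k⟦X⟧) →ₗ[k⟦X⟧] (Fin d → k⟦X⟧)) ij.1.2) :
    JSet k m d n :=
  ⟨(p.2.1.1, p.2.2.1), sMap_aux p.2.1.2 p.2.2.2 (Finset.HasAntidiagonal.mem_antidiagonal.mp p.1.2)⟩

theorem sMap_bij [Finite k] (m d n : ℕ) : Function.Bijective (sMap k m d n) := by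
  constructor
  · rintro ⟨⟨⟨i, j⟩, hij⟩, ⟨I, hI⟩, ⟨N, hN⟩⟩ ⟨⟨⟨i', j'⟩, hij'⟩, ⟨I', hI'⟩, ⟨N', hN'⟩⟩ he
    have h1 : I = I' := congrArg (fun p : JSet k m d n => p.1.1) he
    have h2 : N = N' := congrArg (fun p : JSet k m d n => p.1.2) he
    subst h1
    subst h2
    have h3 : i = i' := by
      have h4 : Nat.card k ^ i = Nat.card k ^ i' := hI.symm.trans hI'
      exact Nat.pow_right_injective one_lt_card h4
    subst h3
    have h5 : j = j' := by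
      have h4 : Nat.card k ^ j = Nat.card k ^ j' := hN.symm.trans hN'
      exact Nat.pow_right_injective one_lt_card h4
    subst h5
    rfl
  · rintro ⟨⟨I, N⟩, h⟩
    have h' : Nat.card ((Fin d → k⟦X⟧) ⧸ I) * (Nat.card ((Fin d → k⟦X⟧) ⧸ N) *
      Nat.card ((Fin d → k⟦X⟧) ⧸ tg m LinearMap.id N)) = Nat.card k ^ n := h
    have hI : Nat.card ((Fin d → k⟦X⟧) ⧸ I) ≠ 0 := by
      intro h0
      rw [h0, zero_mul] at h'
      exact (qpos (k := k) n).ne h'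
    have hf : Finite ((Fin d → k⟦X⟧) ⧸ I) := Nat.finite_of_card_ne_zero hI
    obtain ⟨i, hi⟩ := exists_card_eq (k := k) (M := (Fin d → k⟦X⟧) ⧸ I)
    have hle : i ≤ n := by
      refine (Nat.pow_dvd_pow_iff_le_right (one_lt_card (k := k))).mp ?_
      rw [← hi]
      exact ⟨_, h'.symm⟩
    have h2 : Nat.card ((Fin d → k⟦X⟧) ⧸ N) *
      Nat.card ((Fin d → k⟦X⟧) ⧸ tg m LinearMap.id N) = Nat.card k ^ (n - i) := by
      apply Nat.eq_of_mul_eq_mul_left (qpos (k := k) i)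
      rw [← hi, h', hi, ← pow_add]
      congr 1
      omega
    exact ⟨⟨⟨(i, n - i), Finset.HasAntidiagonal.mem_antidiagonal.mpr (by omega)⟩, ⟨I, hi⟩, ⟨N, h2⟩⟩, rfl⟩

theorem card_sigma_prod {α β : Type} [Finite α] [Finite β] {L : α × β → Type} {γ : β → Type}
    (hL : ∀ c, Finite (L c)) (hγ : ∀ b, Finite (γ b))
    (h : ∀ c, Nat.card (L c) = Nat.card (γ c.2)) :
    Nat.card (Σ c, L c) = Nat.card α * Nat.card (Σ b, γ b) := by
  classical
  have := Fintype.ofFinite α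
  have := Fintype.ofFinite β
  rw [Nat.card_sigma, Nat.card_sigma, Finset.sum_congr rfl (fun c _ => h c),
    Fintype.sum_prod_type]
  simp

theorem finite_LSet [Finite k] {m d : ℕ} {I N : Submodule k⟦X⟧ (Fin d → k⟦X⟧)}
    (hI : Nat.card ((Fin d → k⟦X⟧) ⧸ I) ≠ 0) (hN : Nat.card ((Fin d → k⟦X⟧) ⧸ N) ≠ 0) :
    Finite (LSet m I N) := by
  obtain ⟨b⟩ := exists_basis I hI
  have : Finite ((Fin d → k⟦X⟧) ⧸ N) := Nat.finite_of_card_ne_zero hN
  have : Finite (I →ₗ[k⟦X⟧] (Fin d → k⟦X⟧) ⧸ N) :=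
    Finite.of_equiv _ (b.constr k⟦X⟧ (M' := (Fin d → k⟦X⟧) ⧸ N)).toEquiv
  exact Finite.of_injective (fun g : LSet m I N => g.1) Subtype.val_injective

theorem mul_ne_left {a b q n : ℕ} (hq : 0 < q) (h : a * b = q ^ n) : a ≠ 0 := by
  rintro rfl
  rw [zero_mul] at h
  exact (pow_pos hq n).ne h

theorem mul_ne_right {a b q n : ℕ} (hq : 0 < q) (h : a * b = q ^ n) : b ≠ 0 := by
  rintro rfl
  rw [mul_zero] at h
  exact (pow_pos hq n).ne h

/-- the number of stable submodules of given index -/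
theorem card_PSet [Finite k] (m d n : ℕ) :
    Nat.card (PSet (k := k) m (Fin d → k⟦X⟧) n) =
      ∑ ij ∈ Finset.HasAntidiagonal.antidiagonal n, cnt k d ij.1 *
        U m (LinearMap.id : (Fin d → k⟦X⟧) →ₗ[k⟦X⟧] (Fin d → k⟦X⟧)) d ij.2 := by
  have hq : 0 < Nat.card k := lt_trans zero_lt_one one_lt_card
  have e1 := Equiv.ofBijective _ (pMap_bij (k := k) m (Fin d → k⟦X⟧) n)
  have e2 : (Σ p : ISet k m (Fin d → k⟦X⟧) n, LSet m p.1.1 p.1.2) ≃
      (Σ p : JSet k m d n, LSet m (jMap m d n p).1.1 (jMap m d n p).1.2) :=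
    (Equiv.sigmaCongrLeft (Equiv.ofBijective _ (jMap_bij (k := k) m d n))).symm
  have e3 : (Σ p : JSet k m d n, LSet m (jMap m d n p).1.1 (jMap m d n p).1.2) ≃
      (Σ p : (Σ ij : {ij : ℕ × ℕ // ij ∈ Finset.HasAntidiagonal.antidiagonal n}, CSet k d ij.1.1 ×
        USet (k := k) m (LinearMap.id : (Fin d → k⟦X⟧) →ₗ[k⟦X⟧] (Fin d → k⟦X⟧)) ij.1.2),
        LSet m (jMap m d n (sMap k m d n p)).1.1 (jMap m d n (sMap k m d n p)).1.2) :=
    (Equiv.sigmaCongrLeft (Equiv.ofBijective _ (sMap_bij (k := k) m d n))).symm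
  have e4 := Equiv.sigmaAssoc (α := {ij : ℕ × ℕ // ij ∈ Finset.HasAntidiagonal.antidiagonal n})
    (β := fun ij => CSet k d ij.1.1 ×
        USet (k := k) m (LinearMap.id : (Fin d → k⟦X⟧) →ₗ[k⟦X⟧] (Fin d → k⟦X⟧)) ij.1.2)
    (fun ij c => LSet m (jMap m d n (sMap k m d n ⟨ij, c⟩)).1.1
      (jMap m d n (sMap k m d n ⟨ij, c⟩)).1.2)
  rw [← Nat.card_congr e1, Nat.card_congr e2, Nat.card_congr e3, Nat.card_congr e4]
  have hfC : ∀ i, Finite (CSet k d i) := fun i => finite_of_card i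
  have hfU : ∀ j, Finite (USet (k := k) m
    (LinearMap.id : (Fin d → k⟦X⟧) →ₗ[k⟦X⟧] (Fin d → k⟦X⟧)) j) := fun j => finite_USet m j _
  have hISet : ∀ p : ISet k m (Fin d → k⟦X⟧) n, Finite (LSet m p.1.1 p.1.2) := by
    intro p
    exact finite_LSet (mul_ne_left hq p.2.2) (mul_ne_right hq p.2.2)
  have hcard : ∀ (ij : {ij : ℕ × ℕ // ij ∈ Finset.HasAntidiagonal.antidiagonal n}) (c : CSet k d ij.1.1 ×
        USet (k := k) m (LinearMap.id : (Fin d → k⟦X⟧) →ₗ[k⟦X⟧] (Fin d → k⟦X⟧)) ij.1.2),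
      Nat.card (LSet m (jMap m d n (sMap k m d n ⟨ij, c⟩)).1.1
        (jMap m d n (sMap k m d n ⟨ij, c⟩)).1.2) =
      Nat.card (Fin d → (Fin d → k⟦X⟧) ⧸ tg m LinearMap.id c.2.1) := by
    intro ij c
    have h1 := (jMap m d n (sMap k m d n ⟨ij, c⟩)).2.1
    have h2 := mul_ne_left hq (jMap m d n (sMap k m d n ⟨ij, c⟩)).2.2
    have h3 : (jMap m d n (sMap k m d n ⟨ij, c⟩)).1.2 = c.2.1 := rfl
    have h4 : Finite ((Fin d → k⟦X⟧) ⧸ (jMap m d n (sMap k m d n ⟨ij, c⟩)).1.2) :=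
      Nat.finite_of_card_ne_zero (mul_ne_right hq (jMap m d n (sMap k m d n ⟨ij, c⟩)).2.2)
    rw [card_LSet m _ _ h2 h1, h3]
  have hsum : ∀ ij : {ij : ℕ × ℕ // ij ∈ Finset.HasAntidiagonal.antidiagonal n},
      Nat.card (Σ c : CSet k d ij.1.1 ×
        USet (k := k) m (LinearMap.id : (Fin d → k⟦X⟧) →ₗ[k⟦X⟧] (Fin d → k⟦X⟧)) ij.1.2,
        LSet m (jMap m d n (sMap k m d n ⟨ij, c⟩)).1.1
        (jMap m d n (sMap k m d n ⟨ij, c⟩)).1.2) =
      cnt k d ij.1.1 * U m (LinearMap.id : (Fin d → k⟦X⟧) →ₗ[k⟦X⟧] (Fin d → k⟦X⟧)) d ij.1.2 := by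
    intro ij
    have := hfC ij.1.1
    have := hfU ij.1.2
    exact card_sigma_prod (fun c => hISet _) (fun N => by
      have := N.finG
      infer_instance) (hcard ij)
  have hfin : ∀ ij : {ij : ℕ × ℕ // ij ∈ Finset.HasAntidiagonal.antidiagonal n},
      Finite (Σ c : CSet k d ij.1.1 ×
        USet (k := k) m (LinearMap.id : (Fin d → k⟦X⟧) →ₗ[k⟦X⟧] (Fin d → k⟦X⟧)) ij.1.2,
        LSet m (jMap m d n (sMap k m d n ⟨ij, c⟩)).1.1
        (jMap m d n (sMap k m d n ⟨ij, c⟩)).1.2) := by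
    intro ij
    have := hfC ij.1.1
    have := hfU ij.1.2
    have := fun c => hISet (jMap m d n (sMap k m d n ⟨ij, c⟩))
    infer_instance
  rw [Nat.card_sigma, Finset.sum_congr rfl (fun ij _ => hsum ij)]
  exact Finset.sum_coe_sort (Finset.HasAntidiagonal.antidiagonal n) (fun ij => cnt k d ij.1 *
        U m (LinearMap.id : (Fin d → k⟦X⟧) →ₗ[k⟦X⟧] (Fin d → k⟦X⟧)) d ij.2)

theorem finite_PSet [Finite k] (m d n : ℕ) : Finite (PSet (k := k) m (Fin d → k⟦X⟧) n) := by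
  have hq : 0 < Nat.card k := lt_trans zero_lt_one one_lt_card
  have hfC : ∀ i, Finite (CSet k d i) := fun i => finite_of_card i
  have hfU : ∀ j, Finite (USet (k := k) m
    (LinearMap.id : (Fin d → k⟦X⟧) →ₗ[k⟦X⟧] (Fin d → k⟦X⟧)) j) := fun j => finite_USet m j _
  have h1 : Finite (JSet k m d n) := Finite.of_surjective _ (sMap_bij (k := k) m d n).2
  have h2 : Finite (ISet k m (Fin d → k⟦X⟧) n) :=
    Finite.of_surjective _ (jMap_bij (k := k) m d n).2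
  have h3 : ∀ p : ISet k m (Fin d → k⟦X⟧) n, Finite (LSet m p.1.1 p.1.2) := by
    intro p
    exact finite_LSet (mul_ne_left hq p.2.2) (mul_ne_right hq p.2.2)
  exact Finite.of_surjective _ (pMap_bij (k := k) m (Fin d → k⟦X⟧) n).2

/-- generating function of the stable submodules -/
noncomputable def quotps (k : Type) [Field k] (m d : ℕ) : ℤ⟦X⟧ :=
  PowerSeries.mk fun n => (Nat.card (PSet (k := k) m (Fin d → k⟦X⟧) n) : ℤ)

theorem quotps_eq [Finite k] (m d : ℕ) : quotps k m d = zps k d * wps k m 0 d := by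
  ext n
  rw [quotps, PowerSeries.coeff_mk, card_PSet, PowerSeries.coeff_mul, Nat.cast_sum]
  refine Finset.sum_congr rfl fun ij _ => ?_
  rw [zps, wps, PowerSeries.coeff_mk, PowerSeries.coeff_mk, W_id, Nat.cast_mul]

theorem quotps_main [Finite k] (m d : ℕ) :
    poch (Nat.card k) d ^ 2 * quotps k m d = ev (Nat.card k) (cpol m d) := by
  rw [quotps_eq, ← main_poch, pow_two]
  have h := poch_mul_zps k d
  linear_combination (poch (Nat.card k) d * wps k m 0 d) * h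

end count

end Pool.Agent.H43.Quot
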