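import Mathlib

/-!
The Quot zeta function (point counts over a finite field) of the germ `y (y - x^m) = 0`.
-/

namespace Pool.Agent.H43.Quot

open PowerSeries

/-- The ring `R = k⟦x, y⟧ / (y (y - x^m))`, where `x`, `y` are the variables number `0` and `1` of
the ring of formal power series in two variables. -/
abbrev CurveRing (k : Type) [Field k] (m : ℕ) : Type :=
  MvPowerSeries (Fin 2) k ⧸ Ideal.span
    {(MvPowerSeries.X 1 * (MvPowerSeries.X 1 - MvPowerSeries.X 0 ^ m) : MvPowerSeries (Fin 2) k)}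

/-- The set `Quot_n(R^d)(k)`: the `R`-submodules `L` of `R^d` with `dim_k R^d / L = n`. -/
abbrev QuotPoints (k : Type) [Field k] (m d n : ℕ) : Type :=
  {L : Submodule (CurveRing k m) (Fin d → CurveRing k m) //
    Module.rank k ((Fin d → CurveRing k m) ⧸ L) = n}

/-- The Quot zeta function `Z_{R^d}(t) = ∑_n #Quot_n(R^d)(k) t^n`. -/
noncomputable def quotZeta (k : Type) [Field k] (m d : ℕ) : ℤ⟦X⟧ :=
  PowerSeries.mk fun n => (Nat.card (QuotPoints k m d n) : ℤ)

/-- The numerator `NZ_{R^d}(t) = (t; q)_d ^ 2 Z_{R^d}(t)`, where `q` is the number of elements of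
`k` and `(t; q)_d = ∏_{i < d} (1 - q^i t)`. -/
noncomputable def numerator (k : Type) [Field k] (m d : ℕ) : ℤ⟦X⟧ :=
  (∏ i ∈ Finset.range d, (1 - PowerSeries.C ((Nat.card k : ℤ) ^ i) * X)) ^ 2 * quotZeta k m d

end Pool.Agent.H43.Quot
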