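import Pool.Agent.H43.Quot.Defs

/-!
The Cohen–Lenstra zeta function (point counts over a finite field) of the germ `y (y - x^m) = 0`.
-/

namespace Pool.Agent.H43.Quot

open PowerSeries

/-- The set of `R`-module structures on `k^n` (compatible with the vector space structure):
homomorphisms of `k`-algebras `R → End(k^n)`. -/
abbrev ModStructures (k : Type) [Field k] (m n : ℕ) : Type :=
  CurveRing k m →ₐ[k] Module.End k (Fin n → k)

/-- The point count of the stack `Coh_n(R)` of `R`-modules of dimension `n` over `k`: the number of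
`R`-module structures on `k^n` divided by the order of `GL_n(k)`. It is the sum of `1 / |Aut M|` over the isomorphism classes of `R`-modules `M` of
dimension `n` over `k`. -/
noncomputable def cohCount (k : Type) [Field k] (m n : ℕ) : ℝ :=
  (Nat.card (ModStructures k m n) : ℝ) /
    (Nat.card ((Fin n → k) ≃ₗ[k] (Fin n → k)) : ℝ)

/-- The Cohen–Lenstra zeta function `∑_n [Coh_n(R)] t^n`. -/
noncomputable def cohZeta (k : Type) [Field k] (m : ℕ) : ℝ⟦X⟧ :=
  PowerSeries.mk fun n => cohCount k m n

/-- The finite product `∏_{i=1}^N (1 - q^{-i} t)`, where `q` is the number of elements of `k`. -/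
noncomputable def pochInv (k : Type) [Field k] (N : ℕ) : ℝ⟦X⟧ :=
  ∏ i ∈ Finset.range N, (1 - PowerSeries.C (((Nat.card k : ℝ)⁻¹) ^ (i + 1)) * X)

end Pool.Agent.H43.Quot
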