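import Pool.Agent.H43.Quot.Ring
import Pool.Agent.H43.Quot.Defs

/-!
The structure of the ring `k⟦x, y⟧ / (y (y - x^m))` and the numerator of its Quot zeta function.
-/

namespace Pool.Agent.H43.Quot

open PowerSeries

/-- bijection of `Fin 2` with `Option Unit`: `0` (the variable `x`) goes to `some ()` -/
def fin2 : Fin 2 ≃ Option Unit where
  toFun i := if i = 0 then some () else none
  invFun o := if o = none then 1 else 0
  left_inv := by decide
  right_inv := by decide

/-- `k⟦x, y⟧ = k⟦x⟧⟦y⟧` -/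
noncomputable def rho (k : Type) [Field k] : MvPowerSeries (Fin 2) k ≃ₐ[k] k⟦X⟧⟦X⟧ :=
  (MvPowerSeries.renameEquiv k fin2).trans (MvPowerSeries.optionEquivLeft Unit k)

theorem rho_y (k : Type) [Field k] : rho k (MvPowerSeries.X 1) = X := by
  have h : rho k (MvPowerSeries.X 1) = MvPowerSeries.optionEquivLeft Unit k
    (MvPowerSeries.renameEquiv k fin2 (MvPowerSeries.X 1)) := rfl
  have h2 : MvPowerSeries.renameEquiv k fin2 (MvPowerSeries.X 1) =
      (MvPowerSeries.X (fin2 1) : MvPowerSeries (Option Unit) k) :=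
    MvPowerSeries.rename_X _ _
  have h3 : fin2 1 = none := by decide
  rw [h, h2, h3, MvPowerSeries.optionEquivLeft_X_none]

theorem rho_x (k : Type) [Field k] : rho k (MvPowerSeries.X 0) = PowerSeries.C (X : k⟦X⟧) := by
  have h : rho k (MvPowerSeries.X 0) = MvPowerSeries.optionEquivLeft Unit k
    (MvPowerSeries.renameEquiv k fin2 (MvPowerSeries.X 0)) := rfl
  have h2 : MvPowerSeries.renameEquiv k fin2 (MvPowerSeries.X 0) =
      (MvPowerSeries.X (fin2 0) : MvPowerSeries (Option Unit) k) :=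
    MvPowerSeries.rename_X _ _
  have h3 : fin2 0 = some () := by decide
  rw [h, h2, h3, MvPowerSeries.optionEquivLeft_X_some]
  rfl

/-- the equation of the curve -/
noncomputable abbrev ceq (k : Type) [Field k] (m : ℕ) : MvPowerSeries (Fin 2) k :=
  MvPowerSeries.X 1 * (MvPowerSeries.X 1 - MvPowerSeries.X 0 ^ m)

theorem rho_ceq (k : Type) [Field k] (m : ℕ) : rho k (ceq k m) = gpoly k m := by
  rw [ceq, map_mul, map_sub, map_pow, rho_y, rho_x, gpoly, map_pow]

/-- the quotient map, from `k⟦x⟧⟦y⟧` -/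
noncomputable def qm (k : Type) [Field k] (m : ℕ) : k⟦X⟧⟦X⟧ →+* CurveRing k m :=
  (Ideal.Quotient.mk (Ideal.span {ceq k m})).comp ((rho k).symm : k⟦X⟧⟦X⟧ ≃+* _).toRingHom

theorem qm_apply (k : Type) [Field k] (m : ℕ) (f : k⟦X⟧⟦X⟧) :
    qm k m f = Ideal.Quotient.mk (Ideal.span {ceq k m}) ((rho k).symm f) := rfl

theorem qm_surjective (k : Type) [Field k] (m : ℕ) : Function.Surjective (qm k m) := by
  intro r
  obtain ⟨f, rfl⟩ := Ideal.Quotient.mk_surjective r
  exact ⟨rho k f, by rw [qm_apply, AlgEquiv.symm_apply_apply]⟩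

theorem qm_eq_zero (k : Type) [Field k] (m : ℕ) (f : k⟦X⟧⟦X⟧) :
    qm k m f = 0 ↔ ∃ h, f = gpoly k m * h := by
  rw [qm_apply, Ideal.Quotient.eq_zero_iff_mem, Ideal.mem_span_singleton]
  constructor
  · rintro ⟨h, hh⟩
    refine ⟨rho k h, ?_⟩
    rw [← rho_ceq, ← map_mul, ← hh, AlgEquiv.apply_symm_apply]
  · rintro ⟨h, rfl⟩
    refine ⟨(rho k).symm h, ?_⟩
    rw [map_mul, ← rho_ceq, AlgEquiv.symm_apply_apply]

/-- the structure of `k⟦x⟧`-algebra -/
noncomputable def iota (k : Type) [Field k] (m : ℕ) : k⟦X⟧ →+* CurveRing k m :=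
  (qm k m).comp PowerSeries.C

noncomputable instance algO (k : Type) [Field k] (m : ℕ) : Algebra k⟦X⟧ (CurveRing k m) :=
  (iota k m).toAlgebra

theorem algO_map (k : Type) [Field k] (m : ℕ) (a : k⟦X⟧) :
    algebraMap k⟦X⟧ (CurveRing k m) a = qm k m (PowerSeries.C a) := rfl

/-- the class of `y` -/
noncomputable def yel (k : Type) [Field k] (m : ℕ) : CurveRing k m := qm k m X

theorem yel_sq (k : Type) [Field k] (m : ℕ) :
    yel k m * yel k m = algebraMap k⟦X⟧ (CurveRing k m) (X ^ m) * yel k m := by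
  rw [algO_map, yel, ← map_mul, ← map_mul, ← sub_eq_zero, ← map_sub, qm_eq_zero]
  refine ⟨1, ?_⟩
  rw [gpoly]
  ring

/-- the linear map `(a, b) ↦ a + b y` -/
noncomputable def eLin (k : Type) [Field k] (m : ℕ) : (k⟦X⟧ × k⟦X⟧) →ₗ[k⟦X⟧] CurveRing k m where
  toFun p := algebraMap k⟦X⟧ (CurveRing k m) p.1 + algebraMap k⟦X⟧ (CurveRing k m) p.2 * yel k m
  map_add' p q := by
    show algebraMap k⟦X⟧ (CurveRing k m) (p.1 + q.1) +
      algebraMap k⟦X⟧ (CurveRing k m) (p.2 + q.2) * yel k m = _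
    rw [map_add, map_add]
    ring
  map_smul' c p := by
    show algebraMap k⟦X⟧ (CurveRing k m) (c * p.1) +
      algebraMap k⟦X⟧ (CurveRing k m) (c * p.2) * yel k m = c • _
    rw [map_mul, map_mul, Algebra.smul_def]
    ring

theorem eLin_apply (k : Type) [Field k] (m : ℕ) (a b : k⟦X⟧) :
    eLin k m (a, b) = qm k m (PowerSeries.C a + PowerSeries.C b * X) := by
  rw [map_add, map_mul]
  rfl

theorem eLin_bij (k : Type) [Field k] {m : ℕ} (hm : 1 ≤ m) : Function.Bijective (eLin k m) := by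
  constructor
  · rw [injective_iff_map_eq_zero]
    rintro ⟨a, b⟩ h
    rw [eLin_apply, qm_eq_zero] at h
    obtain ⟨g, hg⟩ := h
    obtain ⟨h1, h2⟩ := division_unique hm hg
    rw [h1, h2]
    rfl
  · intro r
    obtain ⟨f, rfl⟩ := qm_surjective k m r
    obtain ⟨a, b, h, hf⟩ := division hm f
    refine ⟨(a, b), ?_⟩
    rw [eLin_apply]
    have h1 : qm k m (gpoly k m * h) = 0 := (qm_eq_zero k m _).mpr ⟨h, rfl⟩
    rw [hf, map_add (qm k m) _ (gpoly k m * h), h1, add_zero]

theorem rank_iff_card (k : Type) [Field k] [Finite k] {V : Type} [AddCommGroup V] [Module k V]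
    (n : ℕ) : Module.rank k V = n ↔ Nat.card V = Nat.card k ^ n := by
  constructor
  · intro h
    have h1 : Module.Finite k V := by
      rw [← Module.rank_lt_aleph0_iff, h]
      exact Cardinal.natCast_lt_aleph0
    have h2 : Module.finrank k V = n := Module.finrank_eq_of_rank_eq h
    rw [Module.natCard_eq_pow_finrank (K := k), h2]
  · intro h
    have h0 : Nat.card V ≠ 0 := by
      rw [h]
      exact (qpos (k := k) n).ne'
    have h1 : Finite V := Nat.finite_of_card_ne_zero h0
    have h2 : Module.Finite k V := Module.Finite.of_finite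
    rw [Module.natCard_eq_pow_finrank (K := k)] at h
    have h3 : Module.finrank k V = n := Nat.pow_right_injective one_lt_card h
    rw [← Module.finrank_eq_rank, h3]

/-- the points of the Quot scheme are the stable submodules -/
noncomputable def quotPointsEquiv (k : Type) [Field k] [Finite k] {m : ℕ} (hm : 1 ≤ m) (d n : ℕ) :
    QuotPoints k m d n ≃ PSet (k := k) m (Fin d → k⟦X⟧) n :=
  (Equiv.subtypeEquivRight fun _ => rank_iff_card k n).trans
    (submodulesEquiv (e := LinearEquiv.ofBijective (eLin k m) (eLin_bij k hm)) (yel_sq k m)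
      (fun _ _ => rfl) n)

theorem card_quotPoints (k : Type) [Field k] [Finite k] {m : ℕ} (hm : 1 ≤ m) (d n : ℕ) :
    Nat.card (QuotPoints k m d n) = Nat.card (PSet (k := k) m (Fin d → k⟦X⟧) n) :=
  Nat.card_congr (quotPointsEquiv k hm d n)

theorem finite_quotPoints (k : Type) [Field k] [Finite k] {m : ℕ} (hm : 1 ≤ m) (d n : ℕ) :
    Finite (QuotPoints k m d n) := by
  have := finite_PSet (k := k) m d n
  exact Finite.of_equiv _ (quotPointsEquiv k hm d n).symm

theorem numerator_eq (k : Type) [Field k] [Finite k] {m : ℕ} (hm : 1 ≤ m) (d : ℕ) :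
    numerator k m d = ev (Nat.card k) (cpol m d) := by
  have h : quotZeta k m d = quotps k m d := by
    ext n
    rw [quotZeta, quotps, PowerSeries.coeff_mk, PowerSeries.coeff_mk, card_quotPoints k hm]
  rw [numerator, h]
  exact quotps_main m d

theorem coeff_numerator (k : Type) [Field k] [Finite k] {m : ℕ} (hm : 1 ≤ m) (d n : ℕ) :
    PowerSeries.coeff n (numerator k m d) =
      (-1) ^ n * ((((cpol m d).coeff n).eval (Nat.card k) : ℕ) : ℤ) := by
  rw [numerator_eq k hm, coeff_ev]

/-- the numerator polynomial, in `ℤ[L][t]` -/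
noncomputable def fpol (m d : ℕ) : Polynomial (Polynomial ℤ) :=
  ((cpol m d).map (Polynomial.mapRingHom (Nat.castRingHom ℤ))).comp
    (Polynomial.C (-1) * Polynomial.X)

theorem coeff_fpol (m d n : ℕ) : (fpol m d).coeff n =
    (-1) ^ n * ((cpol m d).coeff n).map (Nat.castRingHom ℤ) := by
  rw [fpol, Polynomial.comp_C_mul_X_coeff, Polynomial.coeff_map, mul_comm]
  rfl

theorem eval_fpol (m d n q : ℕ) : ((fpol m d).coeff n).eval (q : ℤ) =
    (-1) ^ n * ((((cpol m d).coeff n).eval q : ℕ) : ℤ) := by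
  rw [coeff_fpol, Polynomial.eval_mul, Polynomial.eval_pow, Polynomial.eval_neg,
    Polynomial.eval_one, Polynomial.eval_natCast_map]
  rfl

theorem nonneg_fpol (m d n j : ℕ) : 0 ≤ (-1) ^ n * ((fpol m d).coeff n).coeff j := by
  have h : ((-1 : Polynomial ℤ) ^ n) = Polynomial.C ((-1) ^ n) := by
    rw [map_pow, map_neg, map_one]
  rw [coeff_fpol, h, Polynomial.coeff_C_mul, ← mul_assoc, ← mul_pow, neg_mul_neg, one_mul, one_pow,
    one_mul, Polynomial.coeff_map]
  exact Int.natCast_nonneg _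

/-- polynomials with the same values at all primes are equal -/
theorem poly_eq_of_primes {f g : Polynomial ℤ}
    (h : ∀ p : ℕ, p.Prime → f.eval (p : ℤ) = g.eval (p : ℤ)) : f = g := by
  apply Polynomial.eq_of_infinite_eval_eq
  have h1 : (Set.image (fun p : ℕ => (p : ℤ)) {p | p.Prime}).Infinite :=
    Set.Infinite.image (fun a _ b _ hab => Nat.cast_injective hab) Nat.infinite_setOfPred_prime
  refine h1.mono ?_
  rintro _ ⟨p, hp, rfl⟩
  exact h p hp

end Pool.Agent.H43.Quot
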