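import Mathlib

/-!
Submodules of a product `A × B` in terms of their image in `A`, their intersection with `B`
and a linear map.
-/

namespace Pool.Agent.H43.Quot

open Submodule

variable {S A B : Type*} [CommRing S] [AddCommGroup A] [AddCommGroup B] [Module S A] [Module S B]

/-- The submodule of `A × B` given by `I`, `J` and `g : I → B / J`. -/
def graphSub (I : Submodule S A) (J : Submodule S B) (g : I →ₗ[S] B ⧸ J) :
    Submodule S (A × B) where
  carrier := {p | ∃ h : p.1 ∈ I, g ⟨p.1, h⟩ = J.mkQ p.2}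
  zero_mem' := by
    refine ⟨I.zero_mem, ?_⟩
    have : (⟨(0 : A × B).1, I.zero_mem⟩ : I) = 0 := rfl
    rw [this]
    simp
  add_mem' := by
    rintro ⟨a, b⟩ ⟨a', b'⟩ ⟨h, hg⟩ ⟨h', hg'⟩
    refine ⟨I.add_mem h h', ?_⟩
    have : (⟨((a, b) + (a', b') : A × B).1, I.add_mem h h'⟩ : I) = ⟨a, h⟩ + ⟨a', h'⟩ := rfl
    rw [this, map_add, hg, hg', ← map_add]
    rfl
  smul_mem' := by
    rintro c ⟨a, b⟩ ⟨h, hg⟩
    refine ⟨I.smul_mem c h, ?_⟩
    have : (⟨(c • (a, b) : A × B).1, I.smul_mem c h⟩ : I) = c • ⟨a, h⟩ := rfl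
    rw [this, map_smul, hg, ← map_smul]
    rfl

theorem mem_graphSub {I : Submodule S A} {J : Submodule S B} {g : I →ₗ[S] B ⧸ J} {a : A} {b : B} :
    (a, b) ∈ graphSub I J g ↔ ∃ h : a ∈ I, g ⟨a, h⟩ = J.mkQ b := Iff.rfl

/-- image in the first factor -/
def im (N : Submodule S (A × B)) : Submodule S A := N.map (LinearMap.fst S A B)

/-- intersection with the second factor -/
def ke (N : Submodule S (A × B)) : Submodule S B := N.comap (LinearMap.inr S A B)

theorem mem_im {N : Submodule S (A × B)} {a : A} : a ∈ im N ↔ ∃ b, (a, b) ∈ N := by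
  constructor
  · rintro ⟨⟨a', b⟩, h, rfl⟩
    exact ⟨b, h⟩
  · rintro ⟨b, h⟩
    exact ⟨(a, b), h, rfl⟩

theorem mem_ke {N : Submodule S (A × B)} {b : B} : b ∈ ke N ↔ ((0 : A), b) ∈ N := Iff.rfl

theorem im_graphSub (I : Submodule S A) (J : Submodule S B) (g : I →ₗ[S] B ⧸ J) :
    im (graphSub I J g) = I := by
  ext a
  rw [mem_im]
  constructor
  · rintro ⟨b, h, _⟩
    exact h
  · intro h
    obtain ⟨b, hb⟩ := J.mkQ_surjective (g ⟨a, h⟩)
    exact ⟨b, h, hb.symm⟩

theorem ke_graphSub (I : Submodule S A) (J : Submodule S B) (g : I →ₗ[S] B ⧸ J) :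
    ke (graphSub I J g) = J := by
  ext b
  rw [mem_ke, mem_graphSub]
  constructor
  · rintro ⟨h, hg⟩
    have : (⟨(0 : A), h⟩ : I) = 0 := rfl
    rw [this, map_zero] at hg
    exact (Submodule.Quotient.mk_eq_zero J).mp hg.symm
  · intro h
    refine ⟨I.zero_mem, ?_⟩
    have : (⟨(0 : A), I.zero_mem⟩ : I) = 0 := rfl
    rw [this, map_zero]
    exact ((Submodule.Quotient.mk_eq_zero J).mpr h).symm

/-- the linear map attached to a submodule of the product -/
noncomputable def gMap (N : Submodule S (A × B)) : im N →ₗ[S] B ⧸ ke N where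
  toFun x := (ke N).mkQ (Classical.choose (mem_im.mp x.2))
  map_add' := by
    intro x y
    rw [← map_add]
    refine (Submodule.Quotient.eq _).mpr ?_
    rw [mem_ke]
    have h1 := Classical.choose_spec (mem_im.mp x.2)
    have h2 := Classical.choose_spec (mem_im.mp y.2)
    have h3 := Classical.choose_spec (mem_im.mp (x + y).2)
    have := N.sub_mem h3 (N.add_mem h1 h2)
    have e : (((x + y : im N) : A), Classical.choose (mem_im.mp (x + y).2)) -
      (((x : A), Classical.choose (mem_im.mp x.2)) + ((y : A), Classical.choose (mem_im.mp y.2))) =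
      ((0 : A), Classical.choose (mem_im.mp (x + y).2) -
        (Classical.choose (mem_im.mp x.2) + Classical.choose (mem_im.mp y.2))) := by
      ext
      · simp
      · simp
    rwa [e] at this
  map_smul' := by
    intro c x
    rw [RingHom.id_apply, ← map_smul]
    refine (Submodule.Quotient.eq _).mpr ?_
    rw [mem_ke]
    have h1 := Classical.choose_spec (mem_im.mp x.2)
    have h3 := Classical.choose_spec (mem_im.mp (c • x).2)
    have := N.sub_mem h3 (N.smul_mem c h1)
    have e : (((c • x : im N) : A), Classical.choose (mem_im.mp (c • x).2)) -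
      c • ((x : A), Classical.choose (mem_im.mp x.2)) =
      ((0 : A), Classical.choose (mem_im.mp (c • x).2) - c • Classical.choose (mem_im.mp x.2)) := by
      ext
      · simp
      · simp
    rwa [e] at this

theorem gMap_eq {N : Submodule S (A × B)} {a : A} {b : B} (h : (a, b) ∈ N) (ha : a ∈ im N) :
    gMap N ⟨a, ha⟩ = (ke N).mkQ b := by
  refine (Submodule.Quotient.eq _).mpr ?_
  rw [mem_ke]
  have h1 := Classical.choose_spec (mem_im.mp ha)
  have := N.sub_mem h1 h
  have e : ((a, Classical.choose (mem_im.mp ha)) - (a, b) : A × B) =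
      ((0 : A), Classical.choose (mem_im.mp ha) - b) := by
    ext
    · simp
    · simp
  rwa [e] at this

theorem graphSub_gMap (N : Submodule S (A × B)) : graphSub (im N) (ke N) (gMap N) = N := by
  ext ⟨a, b⟩
  rw [mem_graphSub]
  constructor
  · rintro ⟨h, hg⟩
    obtain ⟨b', hb'⟩ := mem_im.mp h
    rw [gMap_eq hb' h] at hg
    have h2 := (Submodule.Quotient.eq _).mp hg
    rw [mem_ke] at h2
    have := N.sub_mem hb' h2
    have e : ((a, b') - ((0 : A), b' - b) : A × B) = (a, b) := by
      ext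
      · simp
      · simp
    rwa [e] at this
  · intro h
    exact ⟨mem_im.mpr ⟨b, h⟩, gMap_eq h _⟩

theorem graphSub_injective (I : Submodule S A) (J : Submodule S B) :
    Function.Injective (graphSub I J) := by
  intro g g' h
  ext x
  obtain ⟨b, hb⟩ := J.mkQ_surjective (g x)
  have h1 : ((x : A), b) ∈ graphSub I J g := ⟨x.2, hb.symm⟩
  rw [h] at h1
  obtain ⟨h2, h3⟩ := h1
  rw [← hb]
  exact h3.symm

/-- Submodules with given image and kernel correspond to linear maps. -/
noncomputable def fiberEquiv (I : Submodule S A) (J : Submodule S B) :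
    (I →ₗ[S] B ⧸ J) ≃ {N : Submodule S (A × B) // im N = I ∧ ke N = J} :=
  Equiv.ofBijective (fun g => ⟨graphSub I J g, im_graphSub I J g, ke_graphSub I J g⟩)
    ⟨fun g g' h => graphSub_injective I J (congrArg Subtype.val h), by
      rintro ⟨N, rfl, rfl⟩
      exact ⟨gMap N, Subtype.ext (graphSub_gMap N)⟩⟩

theorem coe_fiberEquiv (I : Submodule S A) (J : Submodule S B) (g : I →ₗ[S] B ⧸ J) :
    ((fiberEquiv I J g : {N : Submodule S (A × B) // im N = I ∧ ke N = J}) : Submodule S (A × B)) =
      graphSub I J g := rfl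

/-- The index of a submodule of the product is the product of the two indices. -/
theorem card_quot (N : Submodule S (A × B)) :
    Nat.card ((A × B) ⧸ N) = Nat.card (A ⧸ im N) * Nat.card (B ⧸ ke N) := by
  classical
  -- the map to A / im N
  let f : ((A × B) ⧸ N) →ₗ[S] A ⧸ im N :=
    N.liftQ ((im N).mkQ ∘ₗ LinearMap.fst S A B) (by
      rintro ⟨a, b⟩ h
      rw [LinearMap.mem_ker]
      exact (Submodule.Quotient.mk_eq_zero _).mpr (mem_im.mpr ⟨b, h⟩))
  have hf : Function.Surjective f := by
    intro y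
    obtain ⟨a, rfl⟩ := (im N).mkQ_surjective y
    exact ⟨N.mkQ (a, 0), rfl⟩
  have h1 := Submodule.card_eq_card_quotient_mul_card (LinearMap.ker f)
  have h2 : Nat.card (((A × B) ⧸ N) ⧸ LinearMap.ker f) = Nat.card (A ⧸ im N) :=
    Nat.card_congr (f.quotKerEquivOfSurjective hf).toEquiv
  let g : (B ⧸ ke N) →ₗ[S] LinearMap.ker f :=
    (ke N).liftQ (LinearMap.codRestrict (LinearMap.ker f) (N.mkQ ∘ₗ LinearMap.inr S A B) (by
      intro b
      rw [LinearMap.mem_ker]
      show (im N).mkQ ((0 : A)) = 0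
      exact map_zero _)) (by
      intro b hb
      rw [LinearMap.mem_ker]
      apply Subtype.ext
      show N.mkQ ((0 : A), b) = 0
      exact (Submodule.Quotient.mk_eq_zero _).mpr hb)
  have hgi : Function.Injective g := by
    rw [← LinearMap.ker_eq_bot, LinearMap.ker_eq_bot']
    intro y hy
    obtain ⟨b, rfl⟩ := (ke N).mkQ_surjective y
    have : N.mkQ ((0 : A), b) = 0 := congrArg Subtype.val hy
    exact (Submodule.Quotient.mk_eq_zero _).mpr
      (mem_ke.mpr ((Submodule.Quotient.mk_eq_zero _).mp this))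
  have hgs : Function.Surjective g := by
    rintro ⟨y, hy⟩
    obtain ⟨⟨a, b⟩, rfl⟩ := N.mkQ_surjective y
    have ha : a ∈ im N := (Submodule.Quotient.mk_eq_zero _).mp (LinearMap.mem_ker.mp hy)
    obtain ⟨b', hb'⟩ := mem_im.mp ha
    refine ⟨(ke N).mkQ (b - b'), Subtype.ext ?_⟩
    show N.mkQ ((0 : A), b - b') = N.mkQ (a, b)
    refine (Submodule.Quotient.eq _).mpr ?_
    have : ((0 : A), b - b') - (a, b) = -(a, b') := by
      ext
      · simp
      · simp
    rw [this]
    exact N.neg_mem hb'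
  have h3 : Nat.card (LinearMap.ker f) = Nat.card (B ⧸ ke N) :=
    (Nat.card_congr (Equiv.ofBijective g ⟨hgi, hgs⟩)).symm
  rw [h1, h2, h3]
  ring

end Pool.Agent.H43.Quot
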