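import Pool.Agent.H43.Quot.Pow

/-!
The normalized polynomials and their limit.
-/

namespace Pool.Agent.H43.Quot

open PowerSeries Filter Topology

/-! ### normalized polynomials -/

/-- one round of the normalized recursion -/
noncomputable def dst (prev : ℕ → Polynomial (Polynomial ℕ)) : ℕ → ℕ → Polynomial (Polynomial ℕ)
  | 0, r => Polynomial.X ^ r * prev r
  | d + 1, r => (1 + Polynomial.C (Polynomial.X ^ (r + d + 1)) * Polynomial.X) * dst prev d r +
      Polynomial.C (Polynomial.X ^ (r + d + 1)) * Polynomial.X * dst prev d (r + 1)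

/-- the normalized numerator polynomials -/
noncomputable def dpol : ℕ → ℕ → Polynomial (Polynomial ℕ)
  | 0, _ => 1
  | m + 1, d => dst (dpol m) d 0

/-- evaluation of a polynomial with natural coefficients at a real number -/
noncomputable def evN (a : ℝ) : Polynomial ℕ →+* ℝ := Polynomial.eval₂RingHom (Nat.castRingHom ℝ) a

theorem evN_X (a : ℝ) : evN a Polynomial.X = a := by
  rw [evN, Polynomial.coe_eval₂RingHom, Polynomial.eval₂_X]

/-- evaluation at `(a, -t)` -/
noncomputable def evR (a : ℝ) : Polynomial (Polynomial ℕ) →+* ℝ⟦X⟧ :=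
  Polynomial.eval₂RingHom ((PowerSeries.C (R := ℝ)).comp (evN a)) (-X)

theorem evR_C (a : ℝ) (p : Polynomial ℕ) : evR a (Polynomial.C p) = PowerSeries.C (evN a p) := by
  rw [evR, Polynomial.coe_eval₂RingHom, Polynomial.eval₂_C]
  rfl

theorem evR_X (a : ℝ) : evR a Polynomial.X = -X := by
  rw [evR, Polynomial.coe_eval₂RingHom, Polynomial.eval₂_X]

theorem coeff_evR (a : ℝ) (P : Polynomial (Polynomial ℕ)) (n : ℕ) :
    PowerSeries.coeff n (evR a P) = (-1) ^ n * evN a (P.coeff n) := by
  induction P using Polynomial.induction_on' with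
  | add p p' hp hp' =>
    rw [map_add, map_add, hp, hp', Polynomial.coeff_add, map_add]
    ring
  | monomial j b =>
    rw [← Polynomial.C_mul_X_pow_eq_monomial, map_mul, map_pow, evR_C, evR_X,
      PowerSeries.coeff_C_mul, neg_pow, Polynomial.coeff_C_mul, Polynomial.coeff_X_pow]
    have h : ((-1 : ℝ⟦X⟧) ^ j * X ^ j) = PowerSeries.C ((-1 : ℝ) ^ j) * X ^ j := by
      rw [map_pow, map_neg, map_one]
    rw [h, PowerSeries.coeff_C_mul, PowerSeries.coeff_X_pow]
    split_ifs with h1
    · rw [h1, mul_one, mul_one, mul_comm]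
    · rw [mul_zero, mul_zero, mul_zero, map_zero, mul_zero]

theorem rescale_CR (a b : ℝ) : PowerSeries.rescale a (PowerSeries.C b) = PowerSeries.C b := by
  ext n
  rw [PowerSeries.coeff_rescale, PowerSeries.coeff_C]
  split_ifs with h
  · rw [h, pow_zero, one_mul]
  · rw [mul_zero]

theorem rescale_evR (a : ℝ) (P : Polynomial (Polynomial ℕ)) :
    evR a (P.comp (Polynomial.C Polynomial.X * Polynomial.X)) =
      PowerSeries.rescale a (evR a P) := by
  induction P using Polynomial.induction_on' with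
  | add p p' hp hp' =>
    rw [map_add, map_add, ← hp, ← hp', Polynomial.add_comp, map_add]
  | monomial j b =>
    rw [← Polynomial.C_mul_X_pow_eq_monomial, map_mul, map_pow, evR_C, evR_X, map_mul, map_pow,
      Polynomial.mul_comp, Polynomial.C_comp, Polynomial.X_pow_comp, map_mul, evR_C, map_pow,
      map_mul, evR_C, evR_X, map_neg, PowerSeries.rescale_X, rescale_CR, evN_X]
    congr 2
    ring

theorem map_ev (q : ℕ) (P : Polynomial (Polynomial ℕ)) :
    PowerSeries.map (Int.castRingHom ℝ) (ev q P) = evR (q : ℝ) P := by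
  ext n
  rw [PowerSeries.coeff_map, coeff_ev, coeff_evR]
  have h : ∀ p : Polynomial ℕ, ((p.eval q : ℕ) : ℝ) = evN (q : ℝ) p := by
    intro p
    rw [evN, Polynomial.coe_eval₂RingHom, Polynomial.eval₂_at_natCast]
    rfl
  rw [map_mul, map_pow, ← h]
  simp

theorem dst_eq {q : ℝ} (hq : q ≠ 0) (m : ℕ)
    (hm : ∀ d, PowerSeries.rescale (q⁻¹ ^ d) (evR q (cpol m d)) = evR q⁻¹ (dpol m d)) (d : ℕ) :
    ∀ r, PowerSeries.rescale (q⁻¹ ^ (r + d)) (evR q (cst (cpol m) d r)) =
      evR q⁻¹ (dst (dpol m) d r) := by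
  induction d with
  | zero =>
    intro r
    rw [add_zero, cst, dst, map_mul (evR q), map_mul (evR q), map_mul (PowerSeries.rescale _),
      map_mul (PowerSeries.rescale _), evR_C, map_pow (evR q), evR_X, map_mul (evR q⁻¹),
      map_pow (evR q⁻¹), evR_X, ← hm r, rescale_CR, map_pow (PowerSeries.rescale _), map_neg,
      PowerSeries.rescale_X, map_pow (evN q), evN_X]
    have h1 : (-(PowerSeries.C (q⁻¹ ^ r) * X : ℝ⟦X⟧)) ^ r =
        PowerSeries.C (q⁻¹ ^ (r * r)) * (-X) ^ r := by
      rw [pow_mul, map_pow PowerSeries.C (q⁻¹ ^ r), ← mul_pow]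
      congr 1
      ring
    have h2 : PowerSeries.C (q ^ (r * r)) * PowerSeries.C (q⁻¹ ^ (r * r)) = (1 : ℝ⟦X⟧) := by
      rw [← map_mul, ← mul_pow, mul_inv_cancel₀ hq, one_pow, map_one]
    rw [h1]
    linear_combination ((-X) ^ r * PowerSeries.rescale (q⁻¹ ^ r) (evR q (cpol m r))) * h2
  | succ d ih =>
    intro r
    have h1 := ih r
    have h2 := ih (r + 1)
    have h3 : r + (d + 1) = r + d + 1 := by omega
    have h4 : r + 1 + d = r + d + 1 := by omega
    rw [h4] at h2
    have h5 : PowerSeries.rescale (q⁻¹ ^ (r + d + 1)) (PowerSeries.rescale q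
        (evR q (cst (cpol m) d r))) = evR q⁻¹ (dst (dpol m) d r) := by
      rw [← h1, PowerSeries.rescale_rescale]
      congr 2
      rw [pow_succ, mul_comm, mul_assoc, inv_mul_cancel₀ hq, mul_one]
    rw [h3, cst, dst, map_add (evR q), map_mul (evR q), map_mul (evR q), map_add (evR q), map_one,
      evR_X, rescale_evR, map_add, map_mul, map_mul, map_add, map_one, map_neg,
      PowerSeries.rescale_X, h5, h2, map_add (evR q⁻¹), map_mul (evR q⁻¹), map_mul (evR q⁻¹),
      map_add (evR q⁻¹), map_one, map_mul (evR q⁻¹), evR_C, evR_X, map_pow (evN q⁻¹), evN_X]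
    ring

theorem dpol_eq {q : ℝ} (hq : q ≠ 0) (m : ℕ) :
    ∀ d, PowerSeries.rescale (q⁻¹ ^ d) (evR q (cpol m d)) = evR q⁻¹ (dpol m d) := by
  induction m with
  | zero =>
    intro d
    rw [cpol, dpol, map_one, map_one, map_one]
  | succ m ih =>
    intro d
    have h := dst_eq hq m ih d 0
    rw [zero_add] at h
    rw [cpol, dpol, h]

/-! ### monotonicity and stabilization -/

/-- the coefficients -/
noncomputable def cf (P : Polynomial (Polynomial ℕ)) (n j : ℕ) : ℕ := (P.coeff n).coeff j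

theorem dst_succ (prev : ℕ → Polynomial (Polynomial ℕ)) (d r : ℕ) :
    dst prev (d + 1) r = dst prev d r + Polynomial.C (Polynomial.X ^ (r + d + 1)) *
      (Polynomial.X * (dst prev d r + dst prev d (r + 1))) := by
  rw [dst]
  ring

theorem cf_dst_le (prev : ℕ → Polynomial (Polynomial ℕ)) (d r n j : ℕ) :
    cf (dst prev d r) n j ≤ cf (dst prev (d + 1) r) n j := by
  rw [dst_succ, cf, cf, Polynomial.coeff_add, Polynomial.coeff_add]
  exact Nat.le_add_right _ _

theorem cf_dst_eq (prev : ℕ → Polynomial (Polynomial ℕ)) (d r n j : ℕ) (h : j < r + d + 1) :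
    cf (dst prev (d + 1) r) n j = cf (dst prev d r) n j := by
  rw [dst_succ, cf, cf, Polynomial.coeff_add, Polynomial.coeff_add, Polynomial.coeff_C_mul,
    Polynomial.coeff_X_pow_mul', if_neg (by omega), add_zero]

theorem cf_dpol_mono (m n j : ℕ) : Monotone fun d => cf (dpol (m + 1) d) n j := by
  apply monotone_nat_of_le_succ
  intro d
  exact cf_dst_le (dpol m) d 0 n j

theorem cf_dpol_stab (m n j : ℕ) {d : ℕ} (h : j ≤ d) :
    cf (dpol (m + 1) d) n j = cf (dpol (m + 1) j) n j := by
  obtain ⟨e, rfl⟩ := Nat.exists_eq_add_of_le h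
  induction e with
  | zero => rfl
  | succ e ih =>
    rw [← ih (by omega)]
    exact cf_dst_eq (dpol m) (j + e) 0 n j (by omega)

theorem cf_dpol_le (m n j d : ℕ) : cf (dpol (m + 1) d) n j ≤ cf (dpol (m + 1) j) n j := by
  rcases le_total d j with h | h
  · exact cf_dpol_mono m n j h
  · rw [cf_dpol_stab m n j h]

/-- the limit of the sums is the sum of the limits -/
theorem hasSum_limit (m n : ℕ) {a s : ℝ} (ha : 0 ≤ a)
    (hs : Tendsto (fun d => evN a ((dpol (m + 1) d).coeff n)) atTop (𝓝 s)) :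
    HasSum (fun j => (cf (dpol (m + 1) j) n j : ℝ) * a ^ j) s := by
  have hnn : ∀ j, 0 ≤ (cf (dpol (m + 1) j) n j : ℝ) * a ^ j := fun j => by positivity
  have hev : ∀ d, evN a ((dpol (m + 1) d).coeff n) =
      ∑ j ∈ ((dpol (m + 1) d).coeff n).support, (cf (dpol (m + 1) d) n j : ℝ) * a ^ j := by
    intro d
    rw [evN, Polynomial.coe_eval₂RingHom, Polynomial.eval₂_eq_sum, Polynomial.sum]
    rfl
  apply hasSum_of_isLUB_of_nonneg _ hnn
  constructor
  · rintro _ ⟨T, rfl⟩
    refine ge_of_tendsto hs ?_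
    filter_upwards [eventually_ge_atTop (T.sup id)] with d hd
    have h1 : ∀ j ∈ T, cf (dpol (m + 1) d) n j = cf (dpol (m + 1) j) n j := by
      intro j hj
      exact cf_dpol_stab m n j (le_trans (Finset.le_sup (f := id) hj) hd)
    have h2 : ∑ j ∈ T, (cf (dpol (m + 1) j) n j : ℝ) * a ^ j =
        ∑ j ∈ T, (cf (dpol (m + 1) d) n j : ℝ) * a ^ j :=
      Finset.sum_congr rfl fun j hj => by rw [h1 j hj]
    show ∑ j ∈ T, (cf (dpol (m + 1) j) n j : ℝ) * a ^ j ≤ _
    rw [h2, hev]
    have h3 : ∑ j ∈ T, (cf (dpol (m + 1) d) n j : ℝ) * a ^ j =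
        ∑ j ∈ T ∩ ((dpol (m + 1) d).coeff n).support, (cf (dpol (m + 1) d) n j : ℝ) * a ^ j := by
      symm
      apply Finset.sum_subset Finset.inter_subset_left
      intro j hj hj2
      have h4 : j ∉ ((dpol (m + 1) d).coeff n).support := fun h => hj2 (Finset.mem_inter.mpr ⟨hj, h⟩)
      rw [Polynomial.notMem_support_iff] at h4
      rw [cf, h4, Nat.cast_zero, zero_mul]
    rw [h3]
    apply Finset.sum_le_sum_of_subset_of_nonneg Finset.inter_subset_right
    intro j _ _
    positivity
  · intro M hM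
    refine le_of_tendsto' hs fun d => ?_
    rw [hev]
    refine le_trans (Finset.sum_le_sum fun j _ => ?_)
      (hM ⟨((dpol (m + 1) d).coeff n).support, rfl⟩)
    apply mul_le_mul_of_nonneg_right _ (by positivity)
    exact_mod_cast cf_dpol_le m n j d

end Pool.Agent.H43.Quot
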