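import Pool.Agent.H43.Quot.Final
import Pool.Agent.H43.Quot.Coh
import Pool.Agent.H43.Quot.Limit
import Pool.Agent.H43.Quot.DefsHat

/-!
The Cohen–Lenstra zeta function as a limit.
-/

namespace Pool.Agent.H43.Quot

open PowerSeries Filter Topology

variable (k : Type) [Field k] [Finite k]

theorem qR_pos : 0 < (Nat.card k : ℝ) := by
  have h : 0 < Nat.card k := lt_trans zero_lt_one one_lt_card
  exact_mod_cast h

theorem qR_inv_lt : ((Nat.card k : ℝ)⁻¹) < 1 := by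
  have h : (1 : ℝ) < (Nat.card k : ℝ) := by exact_mod_cast one_lt_card (k := k)
  exact inv_lt_one_of_one_lt₀ h

theorem conv_poch (i : ℕ) :
    ∃ L : ℝ, Tendsto (fun N => PowerSeries.coeff i (pochInv k N)) atTop (𝓝 L) := by
  induction i with
  | zero =>
    refine ⟨1, ?_⟩
    have h : ∀ N, PowerSeries.coeff 0 (pochInv k N) = 1 := by
      intro N
      rw [PowerSeries.coeff_zero_eq_constantCoeff_apply, pochInv, map_prod]
      apply Finset.prod_eq_one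
      intro i _
      simp
    simp only [h]
    exact tendsto_const_nhds
  | succ i ih =>
    obtain ⟨L, hL⟩ := ih
    have hb := Metric.isBounded_range_of_tendsto _ hL
    obtain ⟨B, hB⟩ := hb.exists_norm_le
    apply cauchySeq_tendsto_of_complete
    refine cauchySeq_of_le_geometric ((Nat.card k : ℝ)⁻¹) (B * (Nat.card k : ℝ)⁻¹) (qR_inv_lt k) ?_
    intro N
    have h1 : pochInv k (N + 1) = pochInv k N *
        (1 - PowerSeries.C (((Nat.card k : ℝ)⁻¹) ^ (N + 1)) * X) := by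
      rw [pochInv, Finset.prod_range_succ, ← pochInv]
    have h2 : PowerSeries.coeff (i + 1) (pochInv k (N + 1)) =
        PowerSeries.coeff (i + 1) (pochInv k N) -
          ((Nat.card k : ℝ)⁻¹) ^ (N + 1) * PowerSeries.coeff i (pochInv k N) := by
      have h3 : pochInv k (N + 1) = pochInv k N -
          PowerSeries.C (((Nat.card k : ℝ)⁻¹) ^ (N + 1)) * (pochInv k N * X) := by
        rw [h1]
        ring
      rw [h3, map_sub, PowerSeries.coeff_C_mul, PowerSeries.coeff_succ_mul_X]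
    rw [Real.dist_eq, h2, sub_sub_cancel, abs_mul, abs_of_nonneg (pow_nonneg (inv_nonneg.mpr
      (qR_pos k).le) _), pow_succ]
    have h4 : |PowerSeries.coeff i (pochInv k N)| ≤ B := hB _ ⟨N, rfl⟩
    have h5 : 0 ≤ ((Nat.card k : ℝ)⁻¹) ^ N * (Nat.card k : ℝ)⁻¹ :=
      mul_nonneg (pow_nonneg (inv_nonneg.mpr (qR_pos k).le) _) (inv_nonneg.mpr (qR_pos k).le)
    calc _ ≤ ((Nat.card k : ℝ)⁻¹) ^ N * (Nat.card k : ℝ)⁻¹ * B :=
          mul_le_mul_of_nonneg_left h4 h5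
      _ = _ := by ring

theorem conv_mul {f g : ℕ → ℝ⟦X⟧} {n : ℕ}
    {a b : ℕ → ℝ} (hf : ∀ i, Tendsto (fun N => PowerSeries.coeff i (f N)) atTop (𝓝 (a i)))
    (hg : ∀ i, Tendsto (fun N => PowerSeries.coeff i (g N)) atTop (𝓝 (b i))) :
    Tendsto (fun N => PowerSeries.coeff n (f N * g N)) atTop
      (𝓝 (∑ ij ∈ Finset.HasAntidiagonal.antidiagonal n, a ij.1 * b ij.2)) := by
  simp only [PowerSeries.coeff_mul]
  apply tendsto_finsetSum
  intro ij _
  exact (hf ij.1).mul (hg ij.2)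

theorem conv_quot {m : ℕ} (hm : 1 ≤ m) (n : ℕ) :
    Tendsto (fun d => PowerSeries.coeff n (PowerSeries.rescale (((Nat.card k : ℝ)⁻¹) ^ d)
      (PowerSeries.map (Int.castRingHom ℝ) (quotZeta k m d)))) atTop (𝓝 (cohCount k m n)) := by
  have hq := qR_pos k
  have hfin : Finite {L : Submodule (CurveRing k m) (Fin n → CurveRing k m) //
      Module.rank k ((Fin n → CurveRing k m) ⧸ L) = n} := finite_quotPoints k hm n n
  have hGLfin : Finite ((Fin n → k) ≃ₗ[k] (Fin n → k)) :=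
    Finite.of_injective (fun e => (e : (Fin n → k) → (Fin n → k))) DFunLike.coe_injective
  have hGLne : Nonempty ((Fin n → k) ≃ₗ[k] (Fin n → k)) := ⟨LinearEquiv.refl k _⟩
  have hGL : 0 < (Nat.card ((Fin n → k) ≃ₗ[k] (Fin n → k)) : ℝ) := by
    exact_mod_cast Nat.card_pos
  have hkey : Tendsto (fun d => PowerSeries.coeff n (PowerSeries.rescale
      (((Nat.card k : ℝ)⁻¹) ^ d) (PowerSeries.map (Int.castRingHom ℝ) (quotZeta k m d))) *
        (Nat.card ((Fin n → k) ≃ₗ[k] (Fin n → k)) : ℝ)) atTop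
      (𝓝 (Nat.card (CurveRing k m →ₐ[k] Module.End k (Fin n → k)) : ℝ)) := by
    have hval : ∀ d, PowerSeries.coeff n (PowerSeries.rescale
      (((Nat.card k : ℝ)⁻¹) ^ d) (PowerSeries.map (Int.castRingHom ℝ) (quotZeta k m d))) *
        (Nat.card ((Fin n → k) ≃ₗ[k] (Fin n → k)) : ℝ) =
        (Nat.card (GSet k (CurveRing k m) (Fin n → k) d) : ℝ) / ((Nat.card k : ℝ) ^ n) ^ d := by
      intro d
      have h0 : Nat.card (GSet k (CurveRing k m) (Fin n → k) d) = Nat.card (QuotPoints k m d n) *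
        Nat.card ((Fin n → k) ≃ₗ[k] (Fin n → k)) := card_GSet n d
      rw [PowerSeries.coeff_rescale, PowerSeries.coeff_map, quotZeta, PowerSeries.coeff_mk,
        h0, eq_intCast, Int.cast_natCast]
      have h1 : ((((Nat.card k : ℝ)⁻¹) ^ d) ^ n) = (((Nat.card k : ℝ) ^ n) ^ d)⁻¹ := by
        rw [← pow_mul, inv_pow, ← pow_mul, mul_comm]
      rw [h1]
      push_cast
      ring
    simp only [hval]
    have hpos : ∀ d : ℕ, 0 < ((Nat.card k : ℝ) ^ n) ^ d := fun d => by positivity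
    have hposd : ∀ d : ℕ, 0 < (Nat.card k : ℝ) ^ d := fun d => by positivity
    have hup : ∀ d, (Nat.card (GSet k (CurveRing k m) (Fin n → k) d) : ℝ) /
        ((Nat.card k : ℝ) ^ n) ^ d ≤
          (Nat.card (CurveRing k m →ₐ[k] Module.End k (Fin n → k)) : ℝ) := by
      intro d
      rw [div_le_iff₀ (hpos d)]
      exact_mod_cast (card_GSet_bounds (k := k) (R := CurveRing k m) n d hfin).1
    have hlow : ∀ d, (Nat.card (CurveRing k m →ₐ[k] Module.End k (Fin n → k)) : ℝ) -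
        (Nat.card (CurveRing k m →ₐ[k] Module.End k (Fin n → k)) : ℝ) * (Nat.card k : ℝ) ^ n *
          ((Nat.card k : ℝ)⁻¹) ^ d ≤ (Nat.card (GSet k (CurveRing k m) (Fin n → k) d) : ℝ) /
        ((Nat.card k : ℝ) ^ n) ^ d := by
      intro d
      have h1 : (Nat.card (CurveRing k m →ₐ[k] Module.End k (Fin n → k)) : ℝ) *
          ((Nat.card k : ℝ) ^ n) ^ d * (Nat.card k : ℝ) ^ d ≤
          (Nat.card (GSet k (CurveRing k m) (Fin n → k) d) : ℝ) * (Nat.card k : ℝ) ^ d +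
          (Nat.card (CurveRing k m →ₐ[k] Module.End k (Fin n → k)) : ℝ) *
            ((Nat.card k : ℝ) ^ n * ((Nat.card k : ℝ) ^ n) ^ d) := by
        exact_mod_cast (card_GSet_bounds (k := k) (R := CurveRing k m) n d hfin).2
      rw [le_div_iff₀ (hpos d)]
      have h2 : ((Nat.card k : ℝ)⁻¹) ^ d * (Nat.card k : ℝ) ^ d = 1 := by
        rw [← mul_pow, inv_mul_cancel₀ hq.ne', one_pow]
      refine le_of_mul_le_mul_right ?_ (hposd d)
      have h3 : ((Nat.card (CurveRing k m →ₐ[k] Module.End k (Fin n → k)) : ℝ) -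
        (Nat.card (CurveRing k m →ₐ[k] Module.End k (Fin n → k)) : ℝ) * (Nat.card k : ℝ) ^ n *
          ((Nat.card k : ℝ)⁻¹) ^ d) * ((Nat.card k : ℝ) ^ n) ^ d * (Nat.card k : ℝ) ^ d =
          (Nat.card (CurveRing k m →ₐ[k] Module.End k (Fin n → k)) : ℝ) *
          ((Nat.card k : ℝ) ^ n) ^ d * (Nat.card k : ℝ) ^ d -
          (Nat.card (CurveRing k m →ₐ[k] Module.End k (Fin n → k)) : ℝ) *
            ((Nat.card k : ℝ) ^ n * ((Nat.card k : ℝ) ^ n) ^ d) *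
            (((Nat.card k : ℝ)⁻¹) ^ d * (Nat.card k : ℝ) ^ d) := by ring
      rw [h3, h2, mul_one]
      linarith
    refine tendsto_of_tendsto_of_tendsto_of_le_of_le ?_ tendsto_const_nhds hlow hup
    have h1 : Tendsto (fun d : ℕ => ((Nat.card k : ℝ)⁻¹) ^ d) atTop (𝓝 0) :=
      tendsto_pow_atTop_nhds_zero_of_lt_one (inv_nonneg.mpr hq.le) (qR_inv_lt k)
    have h2 := (tendsto_const_nhds (x := (Nat.card (CurveRing k m →ₐ[k]
      Module.End k (Fin n → k)) : ℝ))).sub (h1.const_mul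
        ((Nat.card (CurveRing k m →ₐ[k] Module.End k (Fin n → k)) : ℝ) * (Nat.card k : ℝ) ^ n))
    rwa [mul_zero, sub_zero] at h2
  have h := hkey.div_const (Nat.card ((Fin n → k) ≃ₗ[k] (Fin n → k)) : ℝ)
  have h2 : ∀ d, PowerSeries.coeff n (PowerSeries.rescale
      (((Nat.card k : ℝ)⁻¹) ^ d) (PowerSeries.map (Int.castRingHom ℝ) (quotZeta k m d))) *
        (Nat.card ((Fin n → k) ≃ₗ[k] (Fin n → k)) : ℝ) /
        (Nat.card ((Fin n → k) ≃ₗ[k] (Fin n → k)) : ℝ) = PowerSeries.coeff n (PowerSeries.rescale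
      (((Nat.card k : ℝ)⁻¹) ^ d) (PowerSeries.map (Int.castRingHom ℝ) (quotZeta k m d))) :=
    fun d => mul_div_cancel_right₀ _ hGL.ne'
  simp only [h2] at h
  exact h

theorem rescale_poch (d : ℕ) :
    PowerSeries.rescale (((Nat.card k : ℝ)⁻¹) ^ d) (PowerSeries.map (Int.castRingHom ℝ)
      (poch (Nat.card k) d)) = pochInv k d := by
  have hq := (qR_pos k).ne'
  rw [poch, map_prod, map_prod, pochInv, ← Finset.prod_range_reflect]
  refine Finset.prod_congr rfl fun i hi => ?_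
  rw [Finset.mem_range] at hi
  rw [map_sub, map_sub, map_one, map_one, map_mul, map_mul, PowerSeries.map_C, PowerSeries.map_X,
    rescale_CR, PowerSeries.rescale_X, ← mul_assoc, ← map_mul]
  congr 3
  have h1 : d - 1 - i + 1 = d - i := by omega
  have h2 : (d - 1 - i) + (i + 1) = d := by omega
  rw [map_pow]
  have h3 : (((Nat.card k : ℝ)⁻¹) ^ d) = ((Nat.card k : ℝ)⁻¹) ^ (d - 1 - i) *
      ((Nat.card k : ℝ)⁻¹) ^ (i + 1) := by rw [← pow_add, h2]
  have h4 : (Int.castRingHom ℝ) (Nat.card k : ℤ) = (Nat.card k : ℝ) := by simp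
  rw [h4, h3, ← mul_assoc, ← mul_pow, mul_inv_cancel₀ hq, one_pow, one_mul]

theorem hat_main {m : ℕ} (hm : 1 ≤ m) (n : ℕ) :
    ∃ s : ℝ, HasSum (fun j => (cf (dpol m j) n j : ℝ) * ((Nat.card k : ℝ)⁻¹) ^ j) ((-1) ^ n * s) ∧
      Tendsto (fun N => PowerSeries.coeff n (pochInv k N ^ 2 * cohZeta k m)) atTop (𝓝 s) := by
  have hq := qR_pos k
  choose L hL using conv_poch k
  have hp2 : ∀ i, Tendsto (fun N => PowerSeries.coeff i (pochInv k N ^ 2)) atTop
      (𝓝 (∑ ij ∈ Finset.HasAntidiagonal.antidiagonal i, L ij.1 * L ij.2)) := by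
    intro i
    simp only [pow_two]
    exact conv_mul hL hL
  have hz : ∀ i, Tendsto (fun _ : ℕ => PowerSeries.coeff i (cohZeta k m)) atTop
      (𝓝 (cohCount k m i)) := by
    intro i
    rw [cohZeta, PowerSeries.coeff_mk]
    exact tendsto_const_nhds
  have T1 := conv_mul (n := n) hp2 hz
  have T2 := conv_mul (n := n) hp2 (fun i => conv_quot k hm i)
  refine ⟨_, ?_, T1⟩
  have hval : ∀ d, PowerSeries.coeff n (pochInv k d ^ 2 *
      PowerSeries.rescale (((Nat.card k : ℝ)⁻¹) ^ d)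
        (PowerSeries.map (Int.castRingHom ℝ) (quotZeta k m d))) =
      (-1) ^ n * evN (Nat.card k : ℝ)⁻¹ ((dpol m d).coeff n) := by
    intro d
    have h1 : numerator k m d = poch (Nat.card k) d ^ 2 * quotZeta k m d := rfl
    rw [← rescale_poch, ← map_pow, ← map_pow, ← map_mul, ← map_mul, ← h1, numerator_eq k hm,
      map_ev, dpol_eq hq.ne', coeff_evR]
  simp only [hval] at T2
  have T3 := T2.const_mul ((-1 : ℝ) ^ n)
  have h1 : ∀ x : ℝ, (-1 : ℝ) ^ n * ((-1) ^ n * x) = x := by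
    intro x
    rw [← mul_assoc, ← mul_pow, neg_mul_neg, one_mul, one_pow, one_mul]
  simp only [h1] at T3
  obtain ⟨m', rfl⟩ := Nat.exists_eq_add_of_le' hm
  exact hasSum_limit m' n (inv_nonneg.mpr hq.le) T3

/-- the numerator of the Cohen–Lenstra zeta function, in `ℤ⟦u⟧⟦t⟧` with `u = L^{-1}` -/
noncomputable def fhat (m : ℕ) : PowerSeries (PowerSeries ℤ) :=
  PowerSeries.mk fun n => PowerSeries.mk fun j => (-1) ^ n * (cf (dpol m j) n j : ℤ)

theorem coeff_fhat (m n j : ℕ) : PowerSeries.coeff j (PowerSeries.coeff n (fhat m)) =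
    (-1) ^ n * (cf (dpol m j) n j : ℤ) := by
  rw [fhat, PowerSeries.coeff_mk, PowerSeries.coeff_mk]

theorem fhat_nonneg (m n j : ℕ) :
    0 ≤ (-1) ^ n * PowerSeries.coeff j (PowerSeries.coeff n (fhat m)) := by
  rw [coeff_fhat, ← mul_assoc, ← mul_pow, neg_mul_neg, one_mul, one_pow, one_mul]
  exact Int.natCast_nonneg _

theorem fhat_spec {m : ℕ} (hm : 1 ≤ m) (n : ℕ) :
    ∃ s : ℝ, HasSum (fun j => ((PowerSeries.coeff j (PowerSeries.coeff n (fhat m)) : ℤ) : ℝ) *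
        ((Nat.card k : ℝ)⁻¹) ^ j) s ∧
      Tendsto (fun N => PowerSeries.coeff n (pochInv k N ^ 2 * cohZeta k m)) atTop (𝓝 s) := by
  obtain ⟨s, h1, h2⟩ := hat_main k hm n
  refine ⟨s, ?_, h2⟩
  have h3 := h1.mul_left ((-1 : ℝ) ^ n)
  have h4 : (-1 : ℝ) ^ n * ((-1) ^ n * s) = s := by
    rw [← mul_assoc, ← mul_pow, neg_mul_neg, one_mul, one_pow, one_mul]
  rw [h4] at h3
  refine h3.congr_fun ?_
  intro j
  rw [coeff_fhat]
  push_cast
  ring

omit [Finite k] in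
theorem series_unique (h : ℕ → ℤ)
    (H : ∀ p : ℕ, p.Prime → HasSum (fun j => (h j : ℝ) * ((p : ℝ)⁻¹) ^ j) 0) : ∀ j, h j = 0 := by
  by_contra hne
  push Not at hne
  classical
  have hj0 := Nat.find_spec hne
  have hmin : ∀ i < Nat.find hne, h i = 0 := by
    intro i hi
    have := Nat.find_min hne hi
    push Not at this
    exact this
  set j0 := Nat.find hne with hj0def
  have h2 := (H 2 Nat.prime_two).summable.abs
  have h2' : Summable (fun i => |(h (i + (j0 + 1)) : ℝ) * ((2 : ℝ)⁻¹) ^ (i + (j0 + 1))|) := by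
    have := (summable_nat_add_iff (j0 + 1)).mpr h2
    exact_mod_cast this
  set Cc := ∑' i, |(h (i + (j0 + 1)) : ℝ) * ((2 : ℝ)⁻¹) ^ (i + (j0 + 1))| with hCc
  obtain ⟨p, hp1, hp⟩ := Nat.exists_infinite_primes (⌈2 ^ (j0 + 1) * Cc⌉₊ + 1)
  have hp0 : 0 < (p : ℝ) := by exact_mod_cast hp.pos
  have hp2 : (2 : ℝ) ≤ p := by exact_mod_cast hp.two_le
  have h3 := (hasSum_nat_add_iff' (j0 + 1)).mpr (H p hp)
  have h4 : ∑ i ∈ Finset.range (j0 + 1), (h i : ℝ) * ((p : ℝ)⁻¹) ^ i =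
      (h j0 : ℝ) * ((p : ℝ)⁻¹) ^ j0 := by
    rw [Finset.sum_range_succ, Finset.sum_eq_zero, zero_add]
    intro i hi
    rw [hmin i (Finset.mem_range.mp hi)]
    simp
  rw [h4, zero_sub] at h3
  have h5 : ∀ i, |(h (i + (j0 + 1)) : ℝ) * ((p : ℝ)⁻¹) ^ (i + (j0 + 1))| ≤
      (2 / p) ^ (j0 + 1) * |(h (i + (j0 + 1)) : ℝ) * ((2 : ℝ)⁻¹) ^ (i + (j0 + 1))| := by
    intro i
    rw [abs_mul, abs_mul, abs_of_nonneg (by positivity : (0 : ℝ) ≤ ((p : ℝ)⁻¹) ^ (i + (j0 + 1))),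
      abs_of_nonneg (by positivity : (0 : ℝ) ≤ ((2 : ℝ)⁻¹) ^ (i + (j0 + 1)))]
    have h6 : ((p : ℝ)⁻¹) ^ (i + (j0 + 1)) = (2 / p) ^ (i + (j0 + 1)) *
        ((2 : ℝ)⁻¹) ^ (i + (j0 + 1)) := by
      rw [← mul_pow]
      congr 1
      field_simp
    have h7 : (2 / (p : ℝ)) ^ (i + (j0 + 1)) ≤ (2 / p) ^ (j0 + 1) :=
      pow_le_pow_of_le_one (by positivity) ((div_le_one hp0).mpr hp2) (by omega)
    rw [h6]
    calc |(h (i + (j0 + 1)) : ℝ)| * ((2 / (p : ℝ)) ^ (i + (j0 + 1)) *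
        ((2 : ℝ)⁻¹) ^ (i + (j0 + 1)))
        = (2 / (p : ℝ)) ^ (i + (j0 + 1)) * (|(h (i + (j0 + 1)) : ℝ)| *
          ((2 : ℝ)⁻¹) ^ (i + (j0 + 1))) := by ring
      _ ≤ (2 / p) ^ (j0 + 1) * (|(h (i + (j0 + 1)) : ℝ)| * ((2 : ℝ)⁻¹) ^ (i + (j0 + 1))) :=
        mul_le_mul_of_nonneg_right h7 (by positivity)
  have h8 : |-((h j0 : ℝ) * ((p : ℝ)⁻¹) ^ j0)| ≤ (2 / p) ^ (j0 + 1) * Cc := by
    rw [← h3.tsum_eq]
    have hs : Summable (fun i => |(h (i + (j0 + 1)) : ℝ) * ((p : ℝ)⁻¹) ^ (i + (j0 + 1))|) :=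
      h3.summable.abs
    have h9 : |∑' i, (h (i + (j0 + 1)) : ℝ) * ((p : ℝ)⁻¹) ^ (i + (j0 + 1))| ≤
        ∑' i, |(h (i + (j0 + 1)) : ℝ) * ((p : ℝ)⁻¹) ^ (i + (j0 + 1))| := by
      have := norm_tsum_le_tsum_norm (f := fun i => (h (i + (j0 + 1)) : ℝ) *
        ((p : ℝ)⁻¹) ^ (i + (j0 + 1))) hs
      exact this
    refine h9.trans ?_
    rw [hCc, ← tsum_mul_left]
    exact hs.tsum_le_tsum h5 (h2'.mul_left _)
  have h10 : (1 : ℝ) ≤ |(h j0 : ℝ)| := by
    have : (1 : ℤ) ≤ |h j0| := Int.one_le_abs hj0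
    exact_mod_cast this
  rw [abs_neg, abs_mul, abs_of_nonneg (by positivity : (0 : ℝ) ≤ ((p : ℝ)⁻¹) ^ j0)] at h8
  have h11 : ((p : ℝ)⁻¹) ^ j0 ≤ (2 / p) ^ (j0 + 1) * Cc := by
    refine le_trans ?_ h8
    exact le_mul_of_one_le_left (by positivity) h10
  have h12 : (p : ℝ) ≤ 2 ^ (j0 + 1) * Cc := by
    have h13 : (p : ℝ) = ((p : ℝ)⁻¹) ^ j0 * (p : ℝ) ^ (j0 + 1) := by
      rw [pow_succ, ← mul_assoc, ← mul_pow, inv_mul_cancel₀ hp0.ne', one_pow, one_mul]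
    have h14 : (2 / (p : ℝ)) ^ (j0 + 1) * Cc * (p : ℝ) ^ (j0 + 1) = 2 ^ (j0 + 1) * Cc := by
      rw [div_pow]
      field_simp
    rw [h13, ← h14]
    exact mul_le_mul_of_nonneg_right h11 (by positivity)
  have h15 : (p : ℝ) ≤ (⌈2 ^ (j0 + 1) * Cc⌉₊ : ℝ) := h12.trans (Nat.le_ceil _)
  have h16 : p ≤ ⌈2 ^ (j0 + 1) * Cc⌉₊ := by exact_mod_cast h15
  omega

end Pool.Agent.H43.Quot
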