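import Pool.Agent.H43.Quot.PS

/-!
Weighted counts of submodules and their recursions.
-/

namespace Pool.Agent.H43.Quot

open PowerSeries

/-! ### counting lemmas -/

theorem card_split {T : Type} [Finite T] (p : T → Prop) :
    Nat.card T = Nat.card {x : T // p x} + Nat.card {x : T // ¬ p x} := by
  classical
  rw [← Nat.card_sum]
  exact Nat.card_congr (Equiv.sumCompl p).symm

theorem card_sigma_eq {α : Type} [Finite α] {β γ : α → Type} (c : ℕ)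
    [∀ a, Finite (β a)] [∀ a, Finite (γ a)]
    (h : ∀ a, Nat.card (β a) = c * Nat.card (γ a)) :
    Nat.card (Σ a, β a) = c * Nat.card (Σ a, γ a) := by
  classical
  have := Fintype.ofFinite α
  rw [Nat.card_sigma, Nat.card_sigma, Finset.mul_sum]
  exact Finset.sum_congr rfl fun a _ => h a

variable {k : Type} [Field k]
variable {F G F' G' : Type} [AddCommGroup F] [Module k⟦X⟧ F] [AddCommGroup G] [Module k⟦X⟧ G]
  [AddCommGroup F'] [Module k⟦X⟧ F'] [AddCommGroup G'] [Module k⟦X⟧ G']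

/-- index of the image of a submodule under an injective map -/
theorem card_map_inj (ψ : F →ₗ[k⟦X⟧] G) (hψ : Function.Injective ψ) (N : Submodule k⟦X⟧ F) :
    Nat.card (G ⧸ N.map ψ) = Nat.card (G ⧸ LinearMap.range ψ) * Nat.card (F ⧸ N) := by
  -- map G / N.map ψ → G / range ψ
  let f : (G ⧸ N.map ψ) →ₗ[k⟦X⟧] G ⧸ LinearMap.range ψ :=
    (N.map ψ).liftQ (LinearMap.range ψ).mkQ (by
      rintro _ ⟨x, _, rfl⟩
      exact (Submodule.Quotient.mk_eq_zero _).mpr ⟨x, rfl⟩)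
  have hf : Function.Surjective f := by
    intro y
    obtain ⟨a, rfl⟩ := (LinearMap.range ψ).mkQ_surjective y
    exact ⟨(N.map ψ).mkQ a, rfl⟩
  have h1 := Submodule.card_eq_card_quotient_mul_card (LinearMap.ker f)
  have h2 : Nat.card ((G ⧸ N.map ψ) ⧸ LinearMap.ker f) = Nat.card (G ⧸ LinearMap.range ψ) :=
    Nat.card_congr (f.quotKerEquivOfSurjective hf).toEquiv
  let g : (F ⧸ N) →ₗ[k⟦X⟧] LinearMap.ker f :=
    N.liftQ (LinearMap.codRestrict (LinearMap.ker f) ((N.map ψ).mkQ ∘ₗ ψ) (by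
      intro b
      rw [LinearMap.mem_ker]
      exact (Submodule.Quotient.mk_eq_zero _).mpr ⟨b, rfl⟩)) (by
      intro b hb
      rw [LinearMap.mem_ker]
      apply Subtype.ext
      exact (Submodule.Quotient.mk_eq_zero _).mpr ⟨b, hb, rfl⟩)
  have hgi : Function.Injective g := by
    rw [← LinearMap.ker_eq_bot, LinearMap.ker_eq_bot']
    intro y hy
    obtain ⟨b, rfl⟩ := N.mkQ_surjective y
    have : (N.map ψ).mkQ (ψ b) = 0 := congrArg Subtype.val hy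
    obtain ⟨b', hb', h⟩ := (Submodule.Quotient.mk_eq_zero _).mp this
    rw [hψ h] at hb'
    exact (Submodule.Quotient.mk_eq_zero _).mpr hb'
  have hgs : Function.Surjective g := by
    rintro ⟨y, hy⟩
    obtain ⟨a, rfl⟩ := (N.map ψ).mkQ_surjective y
    obtain ⟨b, rfl⟩ := (Submodule.Quotient.mk_eq_zero _).mp (LinearMap.mem_ker.mp hy)
    exact ⟨N.mkQ b, rfl⟩
  have h3 : Nat.card (LinearMap.ker f) = Nat.card (F ⧸ N) :=
    (Nat.card_congr (Equiv.ofBijective g ⟨hgi, hgs⟩)).symm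
  rw [h1, h2, h3]
  ring

/-- `φ(N) + X^m G` -/
noncomputable def tg (m : ℕ) (φ : F →ₗ[k⟦X⟧] G) (N : Submodule k⟦X⟧ F) : Submodule k⟦X⟧ G :=
  N.map φ ⊔ xpow (k := k) m G

theorem tg_zero (φ : F →ₗ[k⟦X⟧] G) (N : Submodule k⟦X⟧ F) : tg 0 φ N = ⊤ := by
  have : xpow (k := k) 0 G = ⊤ := by
    rw [eq_top_iff]
    intro x _
    exact ⟨x, by simp⟩
  rw [tg, this, sup_top_eq]

/-- the submodules with the given total size -/
def USet (m : ℕ) (φ : F →ₗ[k⟦X⟧] G) (n : ℕ) : Type :=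
  {N : Submodule k⟦X⟧ F // Nat.card (F ⧸ N) * Nat.card (G ⧸ tg m φ N) = Nat.card k ^ n}

/-- the weighted count -/
noncomputable def U (m : ℕ) (φ : F →ₗ[k⟦X⟧] G) (D n : ℕ) : ℕ :=
  Nat.card (Σ N : USet m φ n, (Fin D → G ⧸ tg m φ N.1))

theorem qpos [Finite k] (n : ℕ) : 0 < Nat.card k ^ n :=
  pow_pos (lt_trans zero_lt_one one_lt_card) n

theorem USet.finF [Finite k] {m n : ℕ} {φ : F →ₗ[k⟦X⟧] G} (N : USet m φ n) : Finite (F ⧸ N.1) := by
  have h := N.2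
  have hp := qpos (k := k) n
  apply Nat.finite_of_card_ne_zero
  intro h0
  rw [h0, zero_mul] at h
  omega

theorem USet.finG [Finite k] {m n : ℕ} {φ : F →ₗ[k⟦X⟧] G} (N : USet m φ n) :
    Finite (G ⧸ tg m φ N.1) := by
  have h := N.2
  have hp := qpos (k := k) n
  apply Nat.finite_of_card_ne_zero
  intro h0
  rw [h0, mul_zero] at h
  omega

theorem finite_USet [Finite k] [Module.Finite k⟦X⟧ F] (m n : ℕ) (φ : F →ₗ[k⟦X⟧] G) :
    Finite (USet m φ n) := by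
  have := finite_submodules (k := k) (F := F) n
  refine Finite.of_injective
    (fun N : USet m φ n =>
      (⟨N.1, ?_⟩ : {N : Submodule k⟦X⟧ F // xpow (k := k) n F ≤ N}))
    (fun N N' h => Subtype.ext (congrArg (fun x => (x : {N : Submodule k⟦X⟧ F // xpow (k := k) n F ≤ N}).1) h))
  have hf := N.finF
  obtain ⟨a, ha⟩ := exists_card_eq (k := k) (M := F ⧸ N.1)
  have h1 := N.2
  have h2 : Nat.card (F ⧸ N.1) ∣ Nat.card k ^ n := ⟨_, h1.symm⟩
  rw [ha] at h2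
  have h3 : a ≤ n := (Nat.pow_dvd_pow_iff_le_right one_lt_card).mp h2
  refine le_trans ?_ (xpow_le_of_card ha)
  rintro _ ⟨y, rfl⟩
  refine ⟨(X : k⟦X⟧) ^ (n - a) • y, ?_⟩
  show (X : k⟦X⟧) ^ a • (X : k⟦X⟧) ^ (n - a) • y = (X : k⟦X⟧) ^ n • y
  rw [smul_smul, ← pow_add]
  congr 2
  omega

/-! ### invariance under isomorphism -/

theorem card_quot_equiv (e : F ≃ₗ[k⟦X⟧] F') (N : Submodule k⟦X⟧ F) :
    Nat.card (F' ⧸ N.map (e : F →ₗ[k⟦X⟧] F')) = Nat.card (F ⧸ N) :=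
  Nat.card_congr (Submodule.Quotient.equiv N (N.map (e : F →ₗ[k⟦X⟧] F')) e rfl).toEquiv.symm

theorem map_xpow (m : ℕ) (e : G ≃ₗ[k⟦X⟧] G') :
    (xpow (k := k) m G).map (e : G →ₗ[k⟦X⟧] G') = xpow (k := k) m G' := by
  ext x
  constructor
  · rintro ⟨_, ⟨y, rfl⟩, rfl⟩
    exact ⟨e y, by simp⟩
  · rintro ⟨y, rfl⟩
    refine ⟨(X : k⟦X⟧) ^ m • e.symm y, ⟨e.symm y, rfl⟩, ?_⟩
    simp

theorem tg_equiv {m : ℕ} {φ : F →ₗ[k⟦X⟧] G} {φ' : F' →ₗ[k⟦X⟧] G'} (e : F ≃ₗ[k⟦X⟧] F')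
    (e' : G ≃ₗ[k⟦X⟧] G') (h : ∀ x, φ' (e x) = e' (φ x)) (N : Submodule k⟦X⟧ F) :
    tg m φ' (N.map (e : F →ₗ[k⟦X⟧] F')) = (tg m φ N).map (e' : G →ₗ[k⟦X⟧] G') := by
  rw [tg, tg, Submodule.map_sup, map_xpow, ← Submodule.map_comp, ← Submodule.map_comp]
  congr 2
  ext x
  exact h x

theorem U_equiv {m : ℕ} {φ : F →ₗ[k⟦X⟧] G} {φ' : F' →ₗ[k⟦X⟧] G'} (e : F ≃ₗ[k⟦X⟧] F')
    (e' : G ≃ₗ[k⟦X⟧] G') (h : ∀ x, φ' (e x) = e' (φ x)) (D n : ℕ) :
    U m φ' D n = U m φ D n := by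
  have hc : ∀ N : Submodule k⟦X⟧ F,
      Nat.card (G' ⧸ tg m φ' (N.map (e : F →ₗ[k⟦X⟧] F'))) = Nat.card (G ⧸ tg m φ N) := by
    intro N
    rw [tg_equiv e e' h, card_quot_equiv]
  let E : USet m φ n ≃ USet m φ' n :=
    { toFun := fun N => ⟨N.1.map (e : F →ₗ[k⟦X⟧] F'), by
        rw [hc, card_quot_equiv]; exact N.2⟩
      invFun := fun N => ⟨N.1.map (e.symm : F' →ₗ[k⟦X⟧] F), by
        have h1 : N.1 = (N.1.map (e.symm : F' →ₗ[k⟦X⟧] F)).map (e : F →ₗ[k⟦X⟧] F') := by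
          rw [← Submodule.map_comp]
          simp
        have h2 := N.2
        rw [h1, hc, card_quot_equiv] at h2
        exact h2⟩
      left_inv := fun N => Subtype.ext (by
        show (N.1.map (e : F →ₗ[k⟦X⟧] F')).map (e.symm : F' →ₗ[k⟦X⟧] F) = N.1
        rw [← Submodule.map_comp]
        simp)
      right_inv := fun N => Subtype.ext (by
        show (N.1.map (e.symm : F' →ₗ[k⟦X⟧] F)).map (e : F →ₗ[k⟦X⟧] F') = N.1
        rw [← Submodule.map_comp]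
        simp) }
  refine Nat.card_congr (Equiv.symm ?_)
  refine Equiv.sigmaCongr E fun N => ?_
  refine Equiv.arrowCongr (Equiv.refl _) ?_
  refine (Submodule.Quotient.equiv (tg m φ N.1) _ e' ?_).toEquiv
  exact (tg_equiv e e' h N.1).symm

end Pool.Agent.H43.Quot
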