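import Pool.Agent.H43.Quot.Pow

/-!
Counting the liftings `g : I → F / N` with `X^m g(x) = -x`.
-/

namespace Pool.Agent.H43.Quot

open PowerSeries

variable {k : Type} [Field k]

/-- a submodule of finite index of `O^d` has a basis with `d` elements -/
theorem exists_basis [Finite k] {d : ℕ} (I : Submodule k⟦X⟧ (Fin d → k⟦X⟧))
    (hI : Nat.card ((Fin d → k⟦X⟧) ⧸ I) ≠ 0) : Nonempty (Module.Basis (Fin d) k⟦X⟧ I) := by
  have hfin : Finite ((Fin d → k⟦X⟧) ⧸ I) := Nat.finite_of_card_ne_zero hI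
  obtain ⟨a, ha⟩ := exists_card_eq (k := k) (M := (Fin d → k⟦X⟧) ⧸ I)
  have hle := xpow_le_of_card ha
  have h1 : Module.finrank k⟦X⟧ I ≤ Module.finrank k⟦X⟧ (Fin d → k⟦X⟧) :=
    LinearMap.finrank_le_finrank_of_injective (f := I.subtype) Subtype.val_injective
  have h2 : Module.finrank k⟦X⟧ (Fin d → k⟦X⟧) ≤ Module.finrank k⟦X⟧ I := by
    let f : (Fin d → k⟦X⟧) →ₗ[k⟦X⟧] I :=
      LinearMap.codRestrict I (LinearMap.lsmul k⟦X⟧ (Fin d → k⟦X⟧) ((X : k⟦X⟧) ^ a))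
        (fun x => hle ⟨x, rfl⟩)
    have hf : Function.Injective f := by
      intro x y h
      have h' : (X : k⟦X⟧) ^ a • x = (X : k⟦X⟧) ^ a • y := congrArg Subtype.val h
      funext i
      have h3 : (X : k⟦X⟧) ^ a * x i = (X : k⟦X⟧) ^ a * y i := congrFun h' i
      exact mul_left_cancel₀ (pow_ne_zero _ PowerSeries.X_ne_zero) h3
    exact LinearMap.finrank_le_finrank_of_injective (f := f) hf
  have h3 : Module.finrank k⟦X⟧ (Fin d → k⟦X⟧) = d := by simp
  have h4 : Module.finrank k⟦X⟧ I = d := by omega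
  exact ⟨Module.finBasisOfFinrankEq k⟦X⟧ I h4⟩

/-- a submodule of finite index of `O^d` is the image of an injective endomorphism -/
theorem exists_psi [Finite k] {d : ℕ} (I : Submodule k⟦X⟧ (Fin d → k⟦X⟧))
    (hI : Nat.card ((Fin d → k⟦X⟧) ⧸ I) ≠ 0) :
    ∃ ψ : (Fin d → k⟦X⟧) →ₗ[k⟦X⟧] (Fin d → k⟦X⟧), Function.Injective ψ ∧ LinearMap.range ψ = I := by
  obtain ⟨b⟩ := exists_basis I hI
  refine ⟨I.subtype ∘ₗ (b.equivFun.symm : (Fin d → k⟦X⟧) →ₗ[k⟦X⟧] I), ?_, ?_⟩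
  · intro x y h
    exact b.equivFun.symm.injective (Subtype.val_injective h)
  · rw [LinearMap.range_comp, LinearEquiv.range, Submodule.map_top, Submodule.range_subtype]

variable {F : Type} [AddCommGroup F] [Module k⟦X⟧ F]

/-- multiplication by `X^m` on `F / N` -/
noncomputable def mulX (m : ℕ) (N : Submodule k⟦X⟧ F) : (F ⧸ N) →ₗ[k⟦X⟧] (F ⧸ N) :=
  LinearMap.lsmul k⟦X⟧ (F ⧸ N) ((X : k⟦X⟧) ^ m)

theorem mulX_mkQ (m : ℕ) (N : Submodule k⟦X⟧ F) (v : F) :
    mulX m N (N.mkQ v) = N.mkQ ((X : k⟦X⟧) ^ m • v) := rfl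

theorem range_mulX (m : ℕ) (N : Submodule k⟦X⟧ F) :
    LinearMap.range (mulX m N) = (tg m LinearMap.id N).map N.mkQ := by
  ext y
  constructor
  · rintro ⟨z, rfl⟩
    obtain ⟨v, rfl⟩ := N.mkQ_surjective z
    exact ⟨(X : k⟦X⟧) ^ m • v, mem_tg.mpr ⟨0, N.zero_mem, v, by simp⟩, rfl⟩
  · rintro ⟨_, hx, rfl⟩
    obtain ⟨b, hb, v, rfl⟩ := mem_tg.mp hx
    refine ⟨N.mkQ v, ?_⟩
    rw [mulX_mkQ, map_add]
    have h : N.mkQ ((LinearMap.id : F →ₗ[k⟦X⟧] F) b) = 0 := (Submodule.Quotient.mk_eq_zero _).mpr hb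
    rw [h, zero_add]

theorem card_ker_mulX (m : ℕ) (N : Submodule k⟦X⟧ F) [Finite (F ⧸ N)] :
    Nat.card (LinearMap.ker (mulX m N)) = Nat.card (F ⧸ tg m LinearMap.id N) := by
  have h1 := Submodule.card_eq_card_quotient_mul_card (LinearMap.ker (mulX m N))
  have h2 := Submodule.card_eq_card_quotient_mul_card (LinearMap.range (mulX m N))
  have h3 : Nat.card ((F ⧸ N) ⧸ LinearMap.ker (mulX m N)) = Nat.card (LinearMap.range (mulX m N)) :=
    Nat.card_congr (mulX m N).quotKerEquivRange.toEquiv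
  have h4 : Nat.card ((F ⧸ N) ⧸ LinearMap.range (mulX m N)) =
      Nat.card (F ⧸ tg m LinearMap.id N) := by
    rw [range_mulX]
    refine Nat.card_congr (Submodule.quotientQuotientEquivQuotient N _ ?_).toEquiv
    intro x hx
    exact mem_tg.mpr ⟨x, hx, 0, by simp⟩
  rw [h3] at h1
  rw [h4] at h2
  have h5 : 0 < Nat.card (LinearMap.range (mulX m N)) := Nat.card_pos
  have h6 : Nat.card (LinearMap.range (mulX m N)) * Nat.card (LinearMap.ker (mulX m N)) =
      Nat.card (LinearMap.range (mulX m N)) * Nat.card (F ⧸ tg m LinearMap.id N) := by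
    rw [mul_comm (Nat.card (LinearMap.range (mulX m N))), ← h1, h2]
  exact Nat.eq_of_mul_eq_mul_left h5 h6

/-- the fibres of multiplication by `X^m` -/
theorem card_fib (m : ℕ) (N : Submodule k⟦X⟧ F) [Finite (F ⧸ N)] (c : F ⧸ N)
    (hc : c ∈ LinearMap.range (mulX m N)) :
    Nat.card {y : F ⧸ N // mulX m N y = c} = Nat.card (F ⧸ tg m LinearMap.id N) := by
  obtain ⟨y0, hy0⟩ := hc
  rw [← card_ker_mulX]
  refine Nat.card_congr ?_
  refine
    { toFun := fun y => ⟨y.1 - y0, ?_⟩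
      invFun := fun y => ⟨y.1 + y0, ?_⟩
      left_inv := fun y => Subtype.ext (sub_add_cancel _ _)
      right_inv := fun y => Subtype.ext (add_sub_cancel_right _ _) }
  · rw [LinearMap.mem_ker, map_sub, y.2, hy0, sub_self]
  · rw [map_add, hy0, LinearMap.mem_ker.mp y.2, zero_add]

/-- the liftings -/
def LSet (m : ℕ) (I N : Submodule k⟦X⟧ F) : Type :=
  {g : I →ₗ[k⟦X⟧] F ⧸ N // ∀ x : I, mulX m N (g x) = - N.mkQ (x : F)}

theorem card_LSet [Finite k] {d : ℕ} (m : ℕ) (I N : Submodule k⟦X⟧ (Fin d → k⟦X⟧))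
    [Finite ((Fin d → k⟦X⟧) ⧸ N)] (hI : Nat.card ((Fin d → k⟦X⟧) ⧸ I) ≠ 0)
    (hIN : I ≤ tg m LinearMap.id N) :
    Nat.card (LSet m I N) = Nat.card (Fin d → (Fin d → k⟦X⟧) ⧸ tg m LinearMap.id N) := by
  obtain ⟨b⟩ := exists_basis I hI
  have e : LSet m I N ≃ (∀ i : Fin d, {y : (Fin d → k⟦X⟧) ⧸ N //
      mulX m N y = - N.mkQ ((b i : I) : Fin d → k⟦X⟧)}) := by
    refine
      { toFun := fun g i => ⟨g.1 (b i), g.2 (b i)⟩
        invFun := fun y => ⟨b.constr k⟦X⟧ (fun i => (y i).1), ?_⟩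
        left_inv := fun g => ?_
        right_inv := fun y => ?_ }
    · have h : (mulX m N) ∘ₗ (b.constr k⟦X⟧ (fun i => (y i).1)) =
          - (N.mkQ ∘ₗ I.subtype) := by
        refine b.ext fun i => ?_
        rw [LinearMap.comp_apply, Module.Basis.constr_basis, (y i).2]
        rfl
      intro x
      exact LinearMap.congr_fun h x
    · apply Subtype.ext
      refine b.ext fun i => ?_
      rw [Module.Basis.constr_basis]
    · funext i
      apply Subtype.ext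
      show (b.constr k⟦X⟧ (fun i => (y i).1)) (b i) = (y i).1
      rw [Module.Basis.constr_basis]
  rw [Nat.card_congr e, Nat.card_pi, card_fin_fun]
  have h : ∀ i : Fin d, Nat.card {y : (Fin d → k⟦X⟧) ⧸ N //
      mulX m N y = - N.mkQ ((b i : I) : Fin d → k⟦X⟧)} =
      Nat.card ((Fin d → k⟦X⟧) ⧸ tg m LinearMap.id N) := by
    intro i
    apply card_fib
    rw [range_mulX]
    exact Submodule.neg_mem _ ⟨_, hIN (b i).2, rfl⟩
  rw [Finset.prod_congr rfl (fun i _ => h i)]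
  simp

end Pool.Agent.H43.Quot
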