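import Pool.Agent.H43.Quot.Goursat

/-!
Ideals of `k⟦X⟧` of finite index, finiteness of the set of submodules of given index.
-/

namespace Pool.Agent.H43.Quot

open PowerSeries

variable {k : Type} [Field k]

/-- truncation to the first `n` coefficients -/
noncomputable def truncMap (k : Type) [Field k] (n : ℕ) : k⟦X⟧ →ₗ[k] (Fin n → k) :=
  LinearMap.pi fun i => PowerSeries.coeff (R := k) (i : ℕ)

theorem truncMap_surjective (n : ℕ) : Function.Surjective (truncMap k n) := by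
  intro v
  refine ⟨PowerSeries.mk fun i => if h : i < n then v ⟨i, h⟩ else 0, ?_⟩
  ext i
  simp [truncMap]

theorem ker_truncMap (n : ℕ) (f : k⟦X⟧) : truncMap k n f = 0 ↔ (X : k⟦X⟧) ^ n ∣ f := by
  rw [PowerSeries.X_pow_dvd_iff]
  constructor
  · intro h m hm
    exact congrFun h ⟨m, hm⟩
  · intro h
    ext i
    exact h i i.2

theorem card_quot_pow (n : ℕ) :
    Nat.card (k⟦X⟧ ⧸ (Ideal.span {(X : k⟦X⟧) ^ n})) = Nat.card k ^ n := by
  have e : (k⟦X⟧ ⧸ (Ideal.span {(X : k⟦X⟧) ^ n})) ≃ (Fin n → k) := by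
    refine Equiv.ofBijective (Quotient.lift (truncMap k n) ?_) ⟨?_, ?_⟩
    · intro a b hab
      have h1 : a - b ∈ Ideal.span {(X : k⟦X⟧) ^ n} := (Submodule.quotientRel_def _).mp hab
      rw [Ideal.mem_span_singleton, ← ker_truncMap, map_sub, sub_eq_zero] at h1
      exact h1
    · intro a b
      refine Quotient.inductionOn₂ a b ?_
      intro a b h
      apply Quotient.sound
      refine (Submodule.quotientRel_def _).mpr ?_
      rw [Ideal.mem_span_singleton, ← ker_truncMap, map_sub, sub_eq_zero]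
      exact h
    · intro v
      obtain ⟨f, hf⟩ := truncMap_surjective n v
      exact ⟨Quotient.mk _ f, hf⟩
  rw [Nat.card_congr e]
  simp [Nat.card_pi]

theorem X_irred : Irreducible (X : k⟦X⟧) := PowerSeries.X_prime.irreducible

theorem infinite_ps : Infinite (k⟦X⟧) := by
  refine Infinite.of_injective (fun n : ℕ => (X : k⟦X⟧) ^ n) ?_
  intro a b h
  have h' : (X : k⟦X⟧) ^ a = X ^ b := h
  by_contra hne
  have := congrArg (PowerSeries.coeff (R := k) a) h'
  simp [PowerSeries.coeff_X_pow, hne] at this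

theorem one_lt_card [Finite k] : 1 < Nat.card k := Finite.one_lt_card

/-- ideals of finite index are the powers of `X` -/
theorem ideal_of_card [Finite k] {I : Ideal k⟦X⟧} {n : ℕ} (h : Nat.card (k⟦X⟧ ⧸ I) = Nat.card k ^ n) :
    I = Ideal.span {(X : k⟦X⟧) ^ n} := by
  have hI : I ≠ ⊥ := by
    rintro rfl
    have h1 : Nat.card (k⟦X⟧ ⧸ (⊥ : Ideal k⟦X⟧)) = Nat.card k⟦X⟧ :=
      Nat.card_congr (Submodule.quotEquivOfEqBot (⊥ : Ideal k⟦X⟧) rfl).toEquiv
    have h2 : Nat.card k⟦X⟧ = 0 := by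
      have := infinite_ps (k := k)
      exact Nat.card_eq_zero_of_infinite
    have h3 : 0 < Nat.card k ^ n := pow_pos (lt_trans zero_lt_one one_lt_card) n
    omega
  obtain ⟨m, hm⟩ := IsDiscreteValuationRing.ideal_eq_span_pow_irreducible hI (X_irred (k := k))
  rw [hm, card_quot_pow] at h
  have : m = n := Nat.pow_right_injective one_lt_card h
  rw [hm, this]

theorem ideal_of_finite [Finite k] {I : Ideal k⟦X⟧} (h : Nat.card (k⟦X⟧ ⧸ I) ≠ 0) :
    ∃ n, I = Ideal.span {(X : k⟦X⟧) ^ n} := by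
  have hI : I ≠ ⊥ := by
    rintro rfl
    have h1 : Nat.card (k⟦X⟧ ⧸ (⊥ : Ideal k⟦X⟧)) = Nat.card k⟦X⟧ :=
      Nat.card_congr (Submodule.quotEquivOfEqBot (⊥ : Ideal k⟦X⟧) rfl).toEquiv
    have h2 : Nat.card k⟦X⟧ = 0 := by
      have := infinite_ps (k := k)
      exact Nat.card_eq_zero_of_infinite
    omega
  exact IsDiscreteValuationRing.ideal_eq_span_pow_irreducible hI (X_irred (k := k))

variable {F : Type} [AddCommGroup F] [Module k⟦X⟧ F]

/-- `X ^ n` times the module -/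
noncomputable def xpow (n : ℕ) (F : Type) [AddCommGroup F] [Module k⟦X⟧ F] : Submodule k⟦X⟧ F :=
  LinearMap.range (LinearMap.lsmul k⟦X⟧ F ((X : k⟦X⟧) ^ n))

theorem mem_xpow {n : ℕ} {x : F} : x ∈ xpow (k := k) n F ↔ ∃ y, ((X : k⟦X⟧) ^ n) • y = x := Iff.rfl

theorem xpow_eq (n : ℕ) : xpow (k := k) n F = (Ideal.span {(X : k⟦X⟧) ^ n}) • (⊤ : Submodule k⟦X⟧ F) := by
  ext x
  rw [Submodule.ideal_span_singleton_smul, mem_xpow, Submodule.mem_smul_pointwise_iff_exists]
  simp

theorem xpow_le_of_card [Finite k] {N : Submodule k⟦X⟧ F} {n : ℕ}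
    (h : Nat.card (F ⧸ N) = Nat.card k ^ n) : xpow (k := k) n F ≤ N := by
  have hpos : 0 < Nat.card k ^ n := pow_pos (lt_trans zero_lt_one one_lt_card) n
  have hfin : Finite (F ⧸ N) := Nat.finite_of_card_ne_zero (by omega)
  rintro _ ⟨y, rfl⟩
  show ((X : k⟦X⟧) ^ n) • y ∈ N
  -- the orbit map
  let f : k⟦X⟧ →ₗ[k⟦X⟧] F ⧸ N := LinearMap.toSpanSingleton k⟦X⟧ (F ⧸ N) (N.mkQ y)
  have e := f.quotKerEquivRange
  have hc : Nat.card (k⟦X⟧ ⧸ LinearMap.ker f) = Nat.card (LinearMap.range f) :=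
    Nat.card_congr e.toEquiv
  have hle : Nat.card (LinearMap.range f) ≤ Nat.card (F ⧸ N) :=
    Nat.card_le_card_of_injective _ Subtype.val_injective
  have hr : Nat.card (LinearMap.range f) ≠ 0 := by
    have : Finite (LinearMap.range f) := inferInstance
    exact Nat.card_pos.ne'
  obtain ⟨a, ha⟩ := ideal_of_finite (k := k) (I := LinearMap.ker f) (by rw [hc]; exact hr)
  rw [ha, card_quot_pow] at hc
  have han : a ≤ n := by
    rw [← hc, h] at hle
    exact (Nat.pow_le_pow_iff_right one_lt_card).mp hle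
  have hmem : (X : k⟦X⟧) ^ n ∈ LinearMap.ker f := by
    rw [ha, Ideal.mem_span_singleton]
    exact pow_dvd_pow _ han
  rw [LinearMap.mem_ker, LinearMap.toSpanSingleton_apply, ← map_smul] at hmem
  exact (Submodule.Quotient.mk_eq_zero _).mp hmem

theorem finite_quot_xpow [Finite k] [Module.Finite k⟦X⟧ F] (n : ℕ) :
    Finite (F ⧸ (xpow (k := k) n F)) := by
  rw [xpow_eq]
  have : Finite (k⟦X⟧ ⧸ (Ideal.span {(X : k⟦X⟧) ^ n})) := by
    apply Nat.finite_of_card_ne_zero
    rw [card_quot_pow]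
    exact (pow_pos (lt_trans zero_lt_one one_lt_card) n).ne'
  exact Module.finite_of_finite (k⟦X⟧ ⧸ (Ideal.span {(X : k⟦X⟧) ^ n}))

theorem finite_submodules [Finite k] [Module.Finite k⟦X⟧ F] (n : ℕ) :
    Finite {N : Submodule k⟦X⟧ F // xpow (k := k) n F ≤ N} := by
  have := finite_quot_xpow (k := k) (F := F) n
  have h2 : Finite (Submodule k⟦X⟧ (F ⧸ (xpow (k := k) n F))) :=
    Finite.of_injective (fun N => (N : Set (F ⧸ (xpow (k := k) n F)))) SetLike.coe_injective
  refine Finite.of_injective (fun N : {N : Submodule k⟦X⟧ F // xpow (k := k) n F ≤ N} =>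
    N.1.map (xpow (k := k) n F).mkQ) ?_
  rintro ⟨N, hN⟩ ⟨N', hN'⟩ h
  apply Subtype.ext
  have h' : N.map (xpow (k := k) n F).mkQ = N'.map (xpow (k := k) n F).mkQ := h
  have := congrArg (Submodule.comap (xpow (k := k) n F).mkQ) h'
  rw [Submodule.comap_map_mkQ, Submodule.comap_map_mkQ, sup_eq_right.mpr hN, sup_eq_right.mpr hN']
    at this
  exact this

theorem finite_of_card [Finite k] [Module.Finite k⟦X⟧ F] (n : ℕ) :
    Finite {N : Submodule k⟦X⟧ F // Nat.card (F ⧸ N) = Nat.card k ^ n} := by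
  have := finite_submodules (k := k) (F := F) n
  exact Finite.of_injective
    (fun N : {N : Submodule k⟦X⟧ F // Nat.card (F ⧸ N) = Nat.card k ^ n} =>
      (⟨N.1, xpow_le_of_card N.2⟩ : {N : Submodule k⟦X⟧ F // xpow (k := k) n F ≤ N}))
    (fun N N' h => Subtype.ext (congrArg (fun x => (x : {N : Submodule k⟦X⟧ F // xpow (k := k) n F ≤ N}).1) h))

/-- a finite quotient has cardinality a power of `q` -/
theorem exists_card_eq [Finite k] {M : Type} [AddCommGroup M] [Module k⟦X⟧ M] [Finite M] :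
    ∃ n, Nat.card M = Nat.card k ^ n := by
  let _ : Module k M := Module.compHom M (algebraMap k k⟦X⟧)
  exact ⟨_, Module.natCard_eq_pow_finrank (K := k)⟩

end Pool.Agent.H43.Quot
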