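import Pool.Agent.H43.Quot.Rec

/-!
Power series identities and the polynomials with nonnegative coefficients.
-/

namespace Pool.Agent.H43.Quot

open PowerSeries

/-! ### the polynomials -/

/-- one round of the recursion -/
noncomputable def cst (prev : ℕ → Polynomial (Polynomial ℕ)) : ℕ → ℕ → Polynomial (Polynomial ℕ)
  | 0, r => Polynomial.C (Polynomial.X ^ (r * r)) * Polynomial.X ^ r * prev r
  | d + 1, r => (1 + Polynomial.X) *
      (cst prev d r).comp (Polynomial.C Polynomial.X * Polynomial.X) +
      Polynomial.X * cst prev d (r + 1)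

/-- the numerator polynomials, at `-t` -/
noncomputable def cpol : ℕ → ℕ → Polynomial (Polynomial ℕ)
  | 0, _ => 1
  | m + 1, d => cst (cpol m) d 0

theorem rescale_C' (a b : ℤ) : PowerSeries.rescale a (PowerSeries.C b) = PowerSeries.C b := by
  ext n
  rw [PowerSeries.coeff_rescale, PowerSeries.coeff_C]
  split_ifs with h
  · rw [h, pow_zero, one_mul]
  · rw [mul_zero]

/-- evaluation at `q` of the coefficients -/
noncomputable def evC (q : ℕ) : Polynomial ℕ →+* ℤ⟦X⟧ :=
  (PowerSeries.C (R := ℤ)).comp ((Nat.castRingHom ℤ).comp (Polynomial.evalRingHom q))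

/-- evaluation at `(q, -t)` -/
noncomputable def ev (q : ℕ) : Polynomial (Polynomial ℕ) →+* ℤ⟦X⟧ :=
  Polynomial.eval₂RingHom (evC q) (-X)

theorem evC_apply (q : ℕ) (p : Polynomial ℕ) :
    evC q p = PowerSeries.C ((p.eval q : ℕ) : ℤ) := rfl

theorem ev_C (q : ℕ) (p : Polynomial ℕ) :
    ev q (Polynomial.C p) = PowerSeries.C ((p.eval q : ℕ) : ℤ) := by
  rw [ev, Polynomial.coe_eval₂RingHom, Polynomial.eval₂_C, evC_apply]

theorem ev_X (q : ℕ) : ev q Polynomial.X = -X := by
  rw [ev, Polynomial.coe_eval₂RingHom, Polynomial.eval₂_X]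

theorem coeff_ev (q : ℕ) (P : Polynomial (Polynomial ℕ)) (n : ℕ) :
    PowerSeries.coeff n (ev q P) = (-1) ^ n * (((P.coeff n).eval q : ℕ) : ℤ) := by
  induction P using Polynomial.induction_on' with
  | add p p' hp hp' =>
    rw [map_add, map_add, hp, hp', Polynomial.coeff_add, Polynomial.eval_add]
    push_cast
    ring
  | monomial j a =>
    rw [← Polynomial.C_mul_X_pow_eq_monomial, map_mul, map_pow, ev_C, ev_X,
      PowerSeries.coeff_C_mul, neg_pow, Polynomial.coeff_C_mul, Polynomial.coeff_X_pow]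
    have h : ((-1 : ℤ⟦X⟧) ^ j * X ^ j) = PowerSeries.C ((-1 : ℤ) ^ j) * X ^ j := by
      rw [map_pow, map_neg, map_one]
    rw [h, PowerSeries.coeff_C_mul, PowerSeries.coeff_X_pow]
    split_ifs with h1
    · rw [h1]
      simp
      ring
    · simp

theorem rescale_ev (q : ℕ) (P : Polynomial (Polynomial ℕ)) :
    PowerSeries.rescale ((q : ℕ) : ℤ) (ev q P) =
      ev q (P.comp (Polynomial.C Polynomial.X * Polynomial.X)) := by
  induction P using Polynomial.induction_on' with
  | add p p' hp hp' =>
    rw [map_add, map_add, hp, hp', Polynomial.add_comp, map_add]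
  | monomial j a =>
    rw [← Polynomial.C_mul_X_pow_eq_monomial, map_mul, map_pow, ev_C, ev_X, map_mul, map_pow,
      Polynomial.mul_comp, Polynomial.C_comp, Polynomial.X_pow_comp, map_mul, ev_C, map_pow,
      map_mul, ev_C, ev_X, map_neg, PowerSeries.rescale_X, rescale_C',
      Polynomial.eval_X]
    congr 2
    ring

/-! ### the generating functions -/

/-- `(t; q)_d` -/
noncomputable def poch (q d : ℕ) : ℤ⟦X⟧ :=
  ∏ i ∈ Finset.range d, (1 - PowerSeries.C ((q : ℤ) ^ i) * X)

theorem poch_zero (q : ℕ) : poch q 0 = 1 := by simp [poch]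

theorem poch_succ (q d : ℕ) :
    poch q (d + 1) = (1 - X) * PowerSeries.rescale ((q : ℕ) : ℤ) (poch q d) := by
  rw [poch, Finset.prod_range_succ', poch, map_prod, pow_zero, map_one, one_mul, mul_comm]
  congr 1
  refine Finset.prod_congr rfl fun i _ => ?_
  rw [map_sub, map_one, map_mul, rescale_C', PowerSeries.rescale_X, ← mul_assoc,
    ← map_mul, pow_succ]

variable (k : Type) [Field k]

/-- generating function of the weighted counts -/
noncomputable def wps (m r d : ℕ) : ℤ⟦X⟧ := PowerSeries.mk fun n => (W k m r d n : ℤ)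

/-- generating function of all submodules -/
noncomputable def zps (d : ℕ) : ℤ⟦X⟧ := PowerSeries.mk fun n => (cnt k d n : ℤ)

theorem wps_succ [Finite k] (m r d : ℕ) :
    wps k m r (d + 1) = PowerSeries.rescale ((Nat.card k : ℕ) : ℤ) (wps k m r d) +
      X * wps k m (r + 1) d := by
  ext n
  rw [map_add, PowerSeries.coeff_rescale, wps, wps, wps, PowerSeries.coeff_mk,
    PowerSeries.coeff_mk]
  rcases n with _ | n
  · rw [W_rec_zero, PowerSeries.coeff_zero_X_mul]
    simp
  · rw [W_rec_succ, PowerSeries.coeff_succ_X_mul, PowerSeries.coeff_mk]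
    push_cast
    ring

theorem wps_term [Finite k] (m r : ℕ) :
    wps k (m + 1) r 0 = PowerSeries.C ((Nat.card k : ℤ) ^ (r * r)) * X ^ r * wps k m 0 r := by
  ext n
  rw [mul_assoc, PowerSeries.coeff_C_mul, PowerSeries.coeff_X_pow_mul', wps,
    PowerSeries.coeff_mk]
  split_ifs with h
  · obtain ⟨n', rfl⟩ := Nat.exists_eq_add_of_le h
    rw [add_comm r n', W_term, wps, PowerSeries.coeff_mk, Nat.add_sub_cancel]
    push_cast
    ring
  · rw [W_term_lt _ _ _ (by omega), mul_zero, Nat.cast_zero]

theorem wps_zero [Finite k] (d : ℕ) : wps k 0 0 d = zps k d := by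
  ext n
  rw [wps, zps, PowerSeries.coeff_mk, PowerSeries.coeff_mk, W_zero, zero_add]

theorem zps_zero [Finite k] : zps k 0 = 1 := by
  ext n
  rw [zps, PowerSeries.coeff_mk, cnt_zero_left, PowerSeries.coeff_one]
  split_ifs <;> simp

theorem zps_succ [Finite k] (d : ℕ) :
    (1 - X) * zps k (d + 1) = PowerSeries.rescale ((Nat.card k : ℕ) : ℤ) (zps k d) := by
  have h : zps k (d + 1) = PowerSeries.rescale ((Nat.card k : ℕ) : ℤ) (zps k d) +
      X * zps k (d + 1) := by
    ext n
    rw [map_add, PowerSeries.coeff_rescale]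
    rcases n with _ | n
    · rw [zps, zps, PowerSeries.coeff_mk, PowerSeries.coeff_mk, cnt_zero_right,
        PowerSeries.coeff_zero_X_mul]
      simp
    · rw [PowerSeries.coeff_succ_X_mul, zps, zps, PowerSeries.coeff_mk, PowerSeries.coeff_mk,
        PowerSeries.coeff_mk, cnt_succ_right]
      push_cast
      ring
  linear_combination h

theorem poch_mul_zps [Finite k] (d : ℕ) : poch (Nat.card k) d * zps k d = 1 := by
  induction d with
  | zero => rw [poch_zero, zps_zero, one_mul]
  | succ d ih =>
    rw [poch_succ, mul_comm (1 - X), mul_assoc, zps_succ, ← map_mul, ih, map_one]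

theorem main_step [Finite k] (m : ℕ)
    (hm : ∀ d, poch (Nat.card k) d * wps k m 0 d = ev (Nat.card k) (cpol m d)) (d : ℕ) :
    ∀ r, poch (Nat.card k) (r + d) * wps k (m + 1) r d =
      (-1) ^ r * ev (Nat.card k) (cst (cpol m) d r) := by
  induction d with
  | zero =>
    intro r
    rw [add_zero, wps_term, cst, map_mul, map_mul, map_pow (ev (Nat.card k)), ev_C, ev_X, ← hm r,
      neg_pow, Polynomial.eval_pow, Polynomial.eval_X, Nat.cast_pow]
    have h1 : ((-1 : ℤ⟦X⟧) ^ r) * (-1) ^ r = 1 := by
      rw [← mul_pow]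
      simp
    linear_combination (-(PowerSeries.C ((Nat.card k : ℤ) ^ (r * r)) * X ^ r *
      (poch (Nat.card k) r * wps k m 0 r))) * h1
  | succ d ih =>
    intro r
    have h1 := ih r
    have h2 := ih (r + 1)
    have h3 : r + (d + 1) = (r + d) + 1 := by omega
    have h4 : r + 1 + d = (r + d) + 1 := by omega
    rw [h4] at h2
    rw [h3, wps_succ, cst, map_add, map_mul, map_mul, map_add, map_one, ev_X, ← rescale_ev,
      mul_add]
    have h5 : poch (Nat.card k) (r + d + 1) *
        PowerSeries.rescale ((Nat.card k : ℕ) : ℤ) (wps k (m + 1) r d) =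
        (1 - X) * ((-1) ^ r * PowerSeries.rescale ((Nat.card k : ℕ) : ℤ)
          (ev (Nat.card k) (cst (cpol m) d r))) := by
      rw [poch_succ, mul_assoc, ← map_mul, h1, map_mul, map_pow, map_neg, map_one]
    rw [h5]
    linear_combination X * h2

theorem main_poch [Finite k] (m : ℕ) :
    ∀ d, poch (Nat.card k) d * wps k m 0 d = ev (Nat.card k) (cpol m d) := by
  induction m with
  | zero =>
    intro d
    rw [wps_zero, poch_mul_zps, cpol, map_one]
  | succ m ih =>
    intro d
    have h := main_step k m ih d 0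
    rw [zero_add, pow_zero, one_mul] at h
    rw [h, cpol]

end Pool.Agent.H43.Quot
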