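import Pool.Agent.H43.Quot.Step

/-!
The recursions for the weighted counts.
-/

namespace Pool.Agent.H43.Quot

open PowerSeries

variable {k : Type} [Field k]

/-- `O^r × O^d` -/
abbrev Fr (k : Type) [Field k] (r d : ℕ) : Type := (Fin r → k⟦X⟧) × (Fin d → k⟦X⟧)

/-- multiplication by `X` on the first `r` coordinates -/
noncomputable def phi (k : Type) [Field k] (r d : ℕ) : Fr k r d →ₗ[k⟦X⟧] Fr k r d :=
  LinearMap.prodMap (LinearMap.lsmul k⟦X⟧ (Fin r → k⟦X⟧) (X : k⟦X⟧)) LinearMap.id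

theorem phi_apply (r d : ℕ) (x : Fin r → k⟦X⟧) (y : Fin d → k⟦X⟧) :
    phi k r d (x, y) = ((X : k⟦X⟧) • x, y) := rfl

/-- the weighted count -/
noncomputable def W (k : Type) [Field k] (m r d n : ℕ) : ℕ := U m (phi k r d) (r + d) n

/-- splitting off the last kind of coordinate -/
noncomputable def eD (k : Type) [Field k] (r d : ℕ) : (k⟦X⟧ × Fr k r d) ≃ₗ[k⟦X⟧] Fr k r (d + 1) where
  toFun p := (p.2.1, Fin.cons p.1 p.2.2)
  map_add' p p' := by
    refine Prod.ext rfl ?_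
    funext i
    refine Fin.cases ?_ (fun i => ?_) i
    · rfl
    · rfl
  map_smul' c p := by
    refine Prod.ext rfl ?_
    funext i
    refine Fin.cases ?_ (fun i => ?_) i
    · rfl
    · rfl
  invFun p := (p.2 0, (p.1, Fin.tail p.2))
  left_inv p := rfl
  right_inv p := by
    refine Prod.ext rfl ?_
    exact Fin.cons_self_tail p.2

/-- splitting off the first kind of coordinate -/
noncomputable def eR (k : Type) [Field k] (r d : ℕ) : (k⟦X⟧ × Fr k r d) ≃ₗ[k⟦X⟧] Fr k (r + 1) d where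
  toFun p := (Fin.cons p.1 p.2.1, p.2.2)
  map_add' p p' := by
    refine Prod.ext ?_ rfl
    funext i
    refine Fin.cases ?_ (fun i => ?_) i
    · rfl
    · rfl
  map_smul' c p := by
    refine Prod.ext ?_ rfl
    funext i
    refine Fin.cases ?_ (fun i => ?_) i
    · rfl
    · rfl
  invFun p := (p.1 0, (Fin.tail p.1, p.2))
  left_inv p := rfl
  right_inv p := by
    refine Prod.ext ?_ rfl
    exact Fin.cons_self_tail p.1

theorem phi_eD (r d : ℕ) (p : k⟦X⟧ × Fr k r d) :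
    phi k r (d + 1) (eD k r d p) = eD k r d (idProd (phi k r d) p) := rfl

theorem phi_eR (r d : ℕ) (p : k⟦X⟧ × Fr k r d) :
    phi k (r + 1) d (eR k r d p) = eR k r d (xProd (phi k r d) p) := by
  refine Prod.ext ?_ rfl
  funext i
  refine Fin.cases ?_ (fun i => ?_) i
  · rfl
  · rfl

theorem W_rec_zero [Finite k] (m r d : ℕ) : W k m r (d + 1) 0 = W k m r d 0 := by
  rw [W, W, U_equiv (eD k r d) (eD k r d) (phi_eD r d)]
  exact step_zero m (r + d) (phi k r d)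

theorem W_rec_succ [Finite k] (m r d n : ℕ) :
    W k m r (d + 1) (n + 1) = Nat.card k ^ (n + 1) * W k m r d (n + 1) + W k m (r + 1) d n := by
  rw [W, W, W, U_equiv (eD k r d) (eD k r d) (phi_eD r d),
    U_equiv (eR k r d) (eR k r d) (phi_eR r d)]
  have h := step_succ m n (r + d) (phi k r d)
  have h2 : r + 1 + d = r + d + 1 := by omega
  rw [h2]
  exact h

/-! ### counting all submodules -/

/-- the number of submodules of index `q ^ n` -/
noncomputable def cnt (k : Type) [Field k] (d n : ℕ) : ℕ :=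
  Nat.card {N : Submodule k⟦X⟧ (Fin d → k⟦X⟧) // Nat.card ((Fin d → k⟦X⟧) ⧸ N) = Nat.card k ^ n}

theorem U_zero [Finite k] {F G : Type} [AddCommGroup F] [Module k⟦X⟧ F] [AddCommGroup G]
    [Module k⟦X⟧ G] (φ : F →ₗ[k⟦X⟧] G) (D n : ℕ) :
    U 0 φ D n = Nat.card {N : Submodule k⟦X⟧ F // Nat.card (F ⧸ N) = Nat.card k ^ n} := by
  have hc : ∀ N : Submodule k⟦X⟧ F, Nat.card (G ⧸ tg 0 φ N) = 1 := by
    intro N
    rw [tg_zero, card_quot_top]
  have hs : ∀ N : USet 0 φ n, Subsingleton (G ⧸ tg 0 φ N.1) :=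
    fun N => (Nat.card_eq_one_iff_unique.mp (hc N.1)).1
  let _ : ∀ N : USet 0 φ n, Unique (Fin D → G ⧸ tg 0 φ N.1) := by
    intro N
    have := hs N
    exact ⟨⟨0⟩, fun x => Subsingleton.elim _ _⟩
  have e1 : (Σ N : USet 0 φ n, (Fin D → G ⧸ tg 0 φ N.1)) ≃ USet 0 φ n :=
    Equiv.sigmaUnique (USet 0 φ n) (fun N => (Fin D → G ⧸ tg 0 φ N.1))
  rw [U, Nat.card_congr e1]
  refine Nat.card_congr (Equiv.subtypeEquivRight fun N => ?_)
  rw [hc, mul_one]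

/-- the module `O^r × O^d` is `O^(r+d)` -/
noncomputable def frEquiv (k : Type) [Field k] (r d : ℕ) :
    Fr k r d ≃ₗ[k⟦X⟧] (Fin (r + d) → k⟦X⟧) :=
  (LinearEquiv.sumArrowLequivProdArrow (Fin r) (Fin d) k⟦X⟧ k⟦X⟧).symm.trans
    (LinearEquiv.funCongrLeft k⟦X⟧ k⟦X⟧ finSumFinEquiv.symm)

theorem cnt_congr {F G : Type} [AddCommGroup F] [Module k⟦X⟧ F] [AddCommGroup G]
    [Module k⟦X⟧ G] (e : F ≃ₗ[k⟦X⟧] G) (n : ℕ) :
    Nat.card {N : Submodule k⟦X⟧ F // Nat.card (F ⧸ N) = Nat.card k ^ n} =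
      Nat.card {N : Submodule k⟦X⟧ G // Nat.card (G ⧸ N) = Nat.card k ^ n} := by
  refine Nat.card_congr (Equiv.subtypeEquiv (Submodule.orderIsoMapComap e).toEquiv fun N => ?_)
  have h := card_quot_equiv e N
  have h2 : (Submodule.orderIsoMapComap e).toEquiv N = N.map (e : F →ₗ[k⟦X⟧] G) := rfl
  rw [h2, h]

theorem W_zero [Finite k] (r d n : ℕ) : W k 0 r d n = cnt k (r + d) n := by
  rw [W, U_zero, cnt, cnt_congr (frEquiv k r d)]

/-! ### the terminal step -/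

/-- `O^(r+1) = O × O^r` -/
noncomputable def eC (k : Type) [Field k] (r : ℕ) :
    (k⟦X⟧ × (Fin r → k⟦X⟧)) ≃ₗ[k⟦X⟧] (Fin (r + 1) → k⟦X⟧) where
  toFun p := Fin.cons p.1 p.2
  map_add' p p' := by
    funext i
    refine Fin.cases ?_ (fun i => ?_) i
    · rfl
    · rfl
  map_smul' c p := by
    funext i
    refine Fin.cases ?_ (fun i => ?_) i
    · rfl
    · rfl
  invFun p := (p 0, Fin.tail p)
  left_inv p := rfl
  right_inv p := Fin.cons_self_tail p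

theorem card_quot_xpow_prod (n : ℕ) (F : Type) [AddCommGroup F] [Module k⟦X⟧ F] :
    Nat.card ((k⟦X⟧ × F) ⧸ xpow (k := k) n (k⟦X⟧ × F)) =
      Nat.card k ^ n * Nat.card (F ⧸ xpow (k := k) n F) := by
  have h1 : im (xpow (k := k) n (k⟦X⟧ × F)) = Ideal.span {(X : k⟦X⟧) ^ n} := by
    ext a
    rw [mem_im, Ideal.mem_span_singleton]
    constructor
    · rintro ⟨b, ⟨a', b'⟩, h⟩
      exact ⟨a', (congrArg Prod.fst h).symm⟩
    · rintro ⟨a', rfl⟩
      exact ⟨(X : k⟦X⟧) ^ n • 0, (a', 0), rfl⟩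
  have h2 : ke (xpow (k := k) n (k⟦X⟧ × F)) = xpow (k := k) n F := by
    ext b
    rw [mem_ke]
    constructor
    · rintro ⟨⟨a', b'⟩, h⟩
      exact ⟨b', congrArg Prod.snd h⟩
    · rintro ⟨b', rfl⟩
      refine ⟨(0, b'), Prod.ext ?_ rfl⟩
      exact mul_zero _
  have h3 := card_quot_pow (k := k) n
  rw [card_quot, h1, h2]
  rw [h3]

theorem card_quot_xpow (n r : ℕ) :
    Nat.card ((Fin r → k⟦X⟧) ⧸ xpow (k := k) n (Fin r → k⟦X⟧)) = (Nat.card k ^ n) ^ r := by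
  induction r with
  | zero =>
    rw [pow_zero]
    have : Subsingleton ((Fin 0 → k⟦X⟧) ⧸ xpow (k := k) n (Fin 0 → k⟦X⟧)) := by
      constructor
      intro a b
      obtain ⟨a, rfl⟩ := (xpow (k := k) n (Fin 0 → k⟦X⟧)).mkQ_surjective a
      obtain ⟨b, rfl⟩ := (xpow (k := k) n (Fin 0 → k⟦X⟧)).mkQ_surjective b
      rw [Subsingleton.elim a b]
    exact Nat.card_unique
  | succ r ih =>
    rw [← map_xpow n (eC k r), card_quot_equiv, card_quot_xpow_prod, ih, pow_succ']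

theorem card_tg_succ {F : Type} [AddCommGroup F] [Module k⟦X⟧ F]
    (hinj : Function.Injective (LinearMap.lsmul k⟦X⟧ F (X : k⟦X⟧))) (m : ℕ)
    (N : Submodule k⟦X⟧ F) :
    Nat.card (F ⧸ tg (m + 1) (LinearMap.lsmul k⟦X⟧ F (X : k⟦X⟧)) N) =
      Nat.card (F ⧸ xpow (k := k) 1 F) * Nat.card (F ⧸ tg m LinearMap.id N) := by
  have h1 : tg (m + 1) (LinearMap.lsmul k⟦X⟧ F (X : k⟦X⟧)) N =
      (tg m LinearMap.id N).map (LinearMap.lsmul k⟦X⟧ F (X : k⟦X⟧)) := by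
    ext y
    rw [mem_tg]
    constructor
    · rintro ⟨b, hb, v, rfl⟩
      refine ⟨b + (X : k⟦X⟧) ^ m • v, mem_tg.mpr ⟨b, hb, v, rfl⟩, ?_⟩
      rw [map_add]
      congr 1
      show (X : k⟦X⟧) • (X : k⟦X⟧) ^ m • v = (X : k⟦X⟧) ^ (m + 1) • v
      rw [smul_smul, ← pow_succ']
    · rintro ⟨_, hx, rfl⟩
      obtain ⟨b, hb, v, rfl⟩ := mem_tg.mp hx
      refine ⟨b, hb, v, ?_⟩
      rw [map_add]
      congr 1
      show (X : k⟦X⟧) ^ (m + 1) • v = (X : k⟦X⟧) • (X : k⟦X⟧) ^ m • v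
      rw [smul_smul, ← pow_succ']
  have h2 : xpow (k := k) 1 F = LinearMap.range (LinearMap.lsmul k⟦X⟧ F (X : k⟦X⟧)) := by
    rw [xpow, pow_one]
  rw [h1, card_map_inj _ hinj, h2]

theorem lsmul_injective (r : ℕ) :
    Function.Injective (LinearMap.lsmul k⟦X⟧ (Fin r → k⟦X⟧) (X : k⟦X⟧)) := by
  intro x y h
  funext i
  have h1 : (X : k⟦X⟧) * x i = X * y i := congrFun h i
  exact mul_left_cancel₀ PowerSeries.X_ne_zero h1

theorem card_sigma_congr_mul {α α' : Type} [Finite α'] {β : α → Type} {γ : α' → Type}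
    (E : α ≃ α') (c : ℕ) (hβ : ∀ a, Finite (β a)) (hγ : ∀ a, Finite (γ a))
    (h : ∀ a, Nat.card (β a) = c * Nat.card (γ (E a))) :
    Nat.card (Σ a, β a) = c * Nat.card (Σ a, γ a) := by
  have : Finite α := Finite.of_equiv _ E.symm
  have e1 : (Σ a, γ a) ≃ Σ a, γ (E a) := (Equiv.sigmaCongrLeft E).symm
  rw [Nat.card_congr e1]
  have h2 : ∀ a, Finite (γ (E a)) := fun a => hγ (E a)
  exact card_sigma_eq c h

theorem USet_term_iff [Finite k] (m r n : ℕ) (N : Submodule k⟦X⟧ (Fin r → k⟦X⟧)) :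
    Nat.card ((Fin r → k⟦X⟧) ⧸ N) * Nat.card ((Fin r → k⟦X⟧) ⧸ tg (m + 1)
        (LinearMap.lsmul k⟦X⟧ (Fin r → k⟦X⟧) (X : k⟦X⟧)) N) = Nat.card k ^ (n + r) ↔
      Nat.card ((Fin r → k⟦X⟧) ⧸ N) * Nat.card ((Fin r → k⟦X⟧) ⧸ tg m LinearMap.id N) =
        Nat.card k ^ n := by
  have hc := card_tg_succ (k := k) (lsmul_injective r) m N
  have hx := card_quot_xpow (k := k) 1 r
  rw [pow_one] at hx
  rw [hc, hx, mul_left_comm, pow_add, mul_comm (Nat.card k ^ n)]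
  exact Nat.mul_right_inj (qpos (k := k) r).ne'

theorem fib_term [Finite k] (m r : ℕ) (N : Submodule k⟦X⟧ (Fin r → k⟦X⟧)) :
    Nat.card (Fin r → (Fin r → k⟦X⟧) ⧸ tg (m + 1)
        (LinearMap.lsmul k⟦X⟧ (Fin r → k⟦X⟧) (X : k⟦X⟧)) N) =
      Nat.card k ^ (r * r) * Nat.card (Fin r → (Fin r → k⟦X⟧) ⧸ tg m LinearMap.id N) := by
  have hc := card_tg_succ (k := k) (lsmul_injective r) m N
  have hx := card_quot_xpow (k := k) 1 r
  rw [pow_one] at hx
  rw [card_fin_fun, card_fin_fun, hc, hx, mul_pow, ← pow_mul]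

/-- the comparison of index sets in the terminal step -/
noncomputable def termE [Finite k] (m r n : ℕ) :
    USet (m + 1) (LinearMap.lsmul k⟦X⟧ (Fin r → k⟦X⟧) (X : k⟦X⟧)) (n + r) ≃
      USet m (LinearMap.id : (Fin r → k⟦X⟧) →ₗ[k⟦X⟧] (Fin r → k⟦X⟧)) n where
  toFun N := ⟨N.1, (USet_term_iff m r n N.1).mp N.2⟩
  invFun N := ⟨N.1, (USet_term_iff m r n N.1).mpr N.2⟩
  left_inv _ := rfl
  right_inv _ := rfl

theorem termE_coe [Finite k] (m r n : ℕ)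
    (N : USet (m + 1) (LinearMap.lsmul k⟦X⟧ (Fin r → k⟦X⟧) (X : k⟦X⟧)) (n + r)) :
    (termE m r n N).1 = N.1 := by
  unfold termE
  rw [Equiv.coe_fn_mk]

theorem U_term [Finite k] (m r n : ℕ) :
    U (m + 1) (LinearMap.lsmul k⟦X⟧ (Fin r → k⟦X⟧) (X : k⟦X⟧)) r (n + r) =
      Nat.card k ^ (r * r) * U m (LinearMap.id : (Fin r → k⟦X⟧) →ₗ[k⟦X⟧] (Fin r → k⟦X⟧)) r n := by
  have hfin := finite_USet (k := k) m n (LinearMap.id : (Fin r → k⟦X⟧) →ₗ[k⟦X⟧] (Fin r → k⟦X⟧))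
  have h1 : ∀ N : USet (m + 1) (LinearMap.lsmul k⟦X⟧ (Fin r → k⟦X⟧) (X : k⟦X⟧)) (n + r),
      Finite (Fin r → (Fin r → k⟦X⟧) ⧸ tg (m + 1)
        (LinearMap.lsmul k⟦X⟧ (Fin r → k⟦X⟧) (X : k⟦X⟧)) N.1) := by
    intro N
    have := N.finG
    infer_instance
  have h2 : ∀ N : USet m (LinearMap.id : (Fin r → k⟦X⟧) →ₗ[k⟦X⟧] (Fin r → k⟦X⟧)) n,
      Finite (Fin r → (Fin r → k⟦X⟧) ⧸ tg m LinearMap.id N.1) := by
    intro N
    have := N.finG
    infer_instance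
  have h3 : ∀ N : USet (m + 1) (LinearMap.lsmul k⟦X⟧ (Fin r → k⟦X⟧) (X : k⟦X⟧)) (n + r),
      Nat.card (Fin r → (Fin r → k⟦X⟧) ⧸ tg (m + 1)
        (LinearMap.lsmul k⟦X⟧ (Fin r → k⟦X⟧) (X : k⟦X⟧)) N.1) =
      Nat.card k ^ (r * r) * Nat.card (Fin r → (Fin r → k⟦X⟧) ⧸ tg m LinearMap.id (termE m r n N).1) := by
    intro N
    rw [termE_coe]
    exact fib_term m r N.1
  rw [U, U]
  exact card_sigma_congr_mul (termE m r n) (Nat.card k ^ (r * r)) h1 h2 h3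

theorem U_term_lt [Finite k] (m r n : ℕ) (hn : n < r) :
    U (m + 1) (LinearMap.lsmul k⟦X⟧ (Fin r → k⟦X⟧) (X : k⟦X⟧)) r n = 0 := by
  have hx := card_quot_xpow (k := k) 1 r
  rw [pow_one] at hx
  have : IsEmpty (USet (m + 1) (LinearMap.lsmul k⟦X⟧ (Fin r → k⟦X⟧) (X : k⟦X⟧)) n) := by
    constructor
    intro N
    have h1 : Nat.card k ^ r ∣ Nat.card k ^ n := by
      have h2 := N.2
      have hc := card_tg_succ (k := k) (lsmul_injective r) m N.1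
      rw [hc, hx, mul_left_comm] at h2
      exact ⟨_, h2.symm⟩
    have h3 := (Nat.pow_dvd_pow_iff_le_right one_lt_card).mp h1
    omega
  have : IsEmpty (Σ N : USet (m + 1) (LinearMap.lsmul k⟦X⟧ (Fin r → k⟦X⟧) (X : k⟦X⟧)) n,
      (Fin r → (Fin r → k⟦X⟧) ⧸ tg (m + 1)
        (LinearMap.lsmul k⟦X⟧ (Fin r → k⟦X⟧) (X : k⟦X⟧)) N.1)) := by
    constructor
    rintro ⟨N, _⟩
    exact isEmptyElim N
  exact Nat.card_of_isEmpty

/-- `O^r × O^0 = O^r` -/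
noncomputable def eZ (k : Type) [Field k] (r : ℕ) : (Fin r → k⟦X⟧) ≃ₗ[k⟦X⟧] Fr k r 0 where
  toFun p := (p, 0)
  map_add' p p' := Prod.ext rfl (Subsingleton.elim _ _)
  map_smul' c p := Prod.ext rfl (Subsingleton.elim _ _)
  invFun p := p.1
  left_inv p := rfl
  right_inv p := Prod.ext rfl (Subsingleton.elim _ _)

/-- `O^0 × O^r = O^r` -/
noncomputable def eY (k : Type) [Field k] (r : ℕ) : (Fin r → k⟦X⟧) ≃ₗ[k⟦X⟧] Fr k 0 r where
  toFun p := (0, p)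
  map_add' p p' := Prod.ext (Subsingleton.elim _ _) rfl
  map_smul' c p := Prod.ext (Subsingleton.elim _ _) rfl
  invFun p := p.2
  left_inv p := rfl
  right_inv p := Prod.ext (Subsingleton.elim _ _) rfl

theorem W_id (m r n : ℕ) :
    W k m 0 r n = U m (LinearMap.id : (Fin r → k⟦X⟧) →ₗ[k⟦X⟧] (Fin r → k⟦X⟧)) r n := by
  rw [W, zero_add]
  refine U_equiv (eY k r) (eY k r) (fun x => ?_) r n
  exact Prod.ext (Subsingleton.elim _ _) rfl

theorem W_term_aux (m r n : ℕ) :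
    W k m r 0 n = U m (LinearMap.lsmul k⟦X⟧ (Fin r → k⟦X⟧) (X : k⟦X⟧)) r n := by
  rw [W, add_zero]
  refine U_equiv (eZ k r) (eZ k r) (fun x => ?_) r n
  exact Prod.ext rfl (Subsingleton.elim _ _)

theorem W_term [Finite k] (m r n : ℕ) :
    W k (m + 1) r 0 (n + r) = Nat.card k ^ (r * r) * W k m 0 r n := by
  rw [W_term_aux, U_term, W_id]

theorem W_term_lt [Finite k] (m r n : ℕ) (hn : n < r) : W k (m + 1) r 0 n = 0 := by
  rw [W_term_aux, U_term_lt _ _ _ hn]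

/-! ### the zeta function of `O^d` -/

theorem cnt_zero_right [Finite k] (d : ℕ) : cnt k (d + 1) 0 = cnt k d 0 := by
  have h := W_rec_zero (k := k) 0 0 d
  rw [W_zero, W_zero] at h
  have h1 : 0 + (d + 1) = d + 1 := by omega
  have h2 : 0 + d = d := by omega
  rwa [h1, h2] at h

theorem cnt_succ_right [Finite k] (d n : ℕ) :
    cnt k (d + 1) (n + 1) = Nat.card k ^ (n + 1) * cnt k d (n + 1) + cnt k (d + 1) n := by
  have h := W_rec_succ (k := k) 0 0 d n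
  rw [W_zero, W_zero, W_zero] at h
  have h1 : 0 + (d + 1) = d + 1 := by omega
  have h2 : 0 + d = d := by omega
  have h3 : 0 + 1 + d = d + 1 := by omega
  rwa [h1, h2, h3] at h

theorem cnt_zero_left [Finite k] (n : ℕ) : cnt k 0 n = if n = 0 then 1 else 0 := by
  have hc : ∀ N : Submodule k⟦X⟧ (Fin 0 → k⟦X⟧), Nat.card ((Fin 0 → k⟦X⟧) ⧸ N) = 1 := by
    intro N
    have : Subsingleton ((Fin 0 → k⟦X⟧) ⧸ N) := by
      constructor
      intro a b
      obtain ⟨a, rfl⟩ := N.mkQ_surjective a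
      obtain ⟨b, rfl⟩ := N.mkQ_surjective b
      rw [Subsingleton.elim a b]
    exact Nat.card_unique
  split_ifs with h
  · subst h
    have : Unique {N : Submodule k⟦X⟧ (Fin 0 → k⟦X⟧) //
        Nat.card ((Fin 0 → k⟦X⟧) ⧸ N) = Nat.card k ^ 0} :=
      ⟨⟨⟨⊤, by rw [hc, pow_zero]⟩⟩, fun x => Subtype.ext (Subsingleton.elim _ _)⟩
    exact Nat.card_unique
  · have : IsEmpty {N : Submodule k⟦X⟧ (Fin 0 → k⟦X⟧) //
        Nat.card ((Fin 0 → k⟦X⟧) ⧸ N) = Nat.card k ^ n} := by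
      constructor
      rintro ⟨N, hN⟩
      rw [hc] at hN
      have := Nat.one_lt_pow h (one_lt_card (k := k))
      omega
    exact Nat.card_of_isEmpty

end Pool.Agent.H43.Quot
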