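import Pool.Agent.H43.Quot.Abs

/-!
The ring `k⟦x, y⟧ / (y (y - x^m))`.
-/

namespace Pool.Agent.H43.Quot

open PowerSeries

variable {k : Type} [Field k]

/-! ### division by `y (y - x^m)` -/

/-- the sum of `f_{j+i} x^{m i}` over all `i` -/
noncomputable def tailSum (m : ℕ) (f : k⟦X⟧⟦X⟧) (j : ℕ) : k⟦X⟧ :=
  PowerSeries.mk fun n => ∑ i ∈ Finset.range (n + 1),
    if m * i ≤ n then PowerSeries.coeff (n - m * i) (PowerSeries.coeff (j + i) f) else 0

theorem tailSum_eq {m : ℕ} (hm : 1 ≤ m) (f : k⟦X⟧⟦X⟧) (j : ℕ) :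
    tailSum m f j = PowerSeries.coeff j f + X ^ m * tailSum m f (j + 1) := by
  ext n
  rw [map_add, PowerSeries.coeff_X_pow_mul', tailSum, PowerSeries.coeff_mk,
    Finset.sum_range_succ', mul_zero, if_pos (Nat.zero_le n), Nat.sub_zero, add_zero, add_comm]
  congr 1
  split_ifs with h
  · rw [tailSum, PowerSeries.coeff_mk]
    symm
    have hsub : Finset.range (n - m + 1) ⊆ Finset.range n := by
      intro i hi
      rw [Finset.mem_range] at hi ⊢
      omega
    rw [Finset.sum_subset hsub]
    · refine Finset.sum_congr rfl fun i _ => ?_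
      have e1 : m * (i + 1) = m * i + m := by ring
      have e2 : j + 1 + i = j + (i + 1) := by omega
      by_cases h1 : m * i ≤ n - m
      · have h2 : m * (i + 1) ≤ n := by omega
        have e3 : n - m - m * i = n - m * (i + 1) := by omega
        rw [if_pos h1, if_pos h2, e2, e3]
      · have h2 : ¬ m * (i + 1) ≤ n := by omega
        rw [if_neg h1, if_neg h2]
    · intro i _ hi
      rw [Finset.mem_range] at hi
      rw [if_neg]
      intro h1
      have h2 : i ≤ m * i := Nat.le_mul_of_pos_left i hm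
      omega
  · apply Finset.sum_eq_zero
    intro i _
    rw [if_neg]
    intro h1
    have h2 : m * 1 ≤ m * (i + 1) := Nat.mul_le_mul_left m (by omega)
    omega

/-- `y (y - x^m)` -/
noncomputable def gpoly (k : Type) [Field k] (m : ℕ) : k⟦X⟧⟦X⟧ :=
  X * (X - PowerSeries.C ((X : k⟦X⟧) ^ m))

theorem division {m : ℕ} (hm : 1 ≤ m) (f : k⟦X⟧⟦X⟧) :
    ∃ (a b : k⟦X⟧) (h : k⟦X⟧⟦X⟧), f = PowerSeries.C a + PowerSeries.C b * X + gpoly k m * h := by
  refine ⟨PowerSeries.coeff 0 f, tailSum m f 1, PowerSeries.mk fun j => tailSum m f (j + 2), ?_⟩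
  have h1 : gpoly k m * PowerSeries.mk (fun j => tailSum m f (j + 2)) =
      X * (X * PowerSeries.mk (fun j => tailSum m f (j + 2)) -
        PowerSeries.C ((X : k⟦X⟧) ^ m) * PowerSeries.mk (fun j => tailSum m f (j + 2))) := by
    rw [gpoly]
    ring
  rw [h1]
  ext1 j
  rcases j with _ | _ | j
  · rw [map_add, map_add, PowerSeries.coeff_zero_X_mul, PowerSeries.coeff_zero_mul_X,
      PowerSeries.coeff_zero_C, add_zero, add_zero]
  · rw [map_add, map_add, PowerSeries.coeff_succ_X_mul, PowerSeries.coeff_succ_mul_X,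
      PowerSeries.coeff_zero_C, map_sub, PowerSeries.coeff_zero_X_mul, PowerSeries.coeff_C_mul,
      PowerSeries.coeff_mk, tailSum_eq hm f 1, PowerSeries.coeff_succ_C]
    ring
  · rw [map_add, map_add, PowerSeries.coeff_succ_X_mul, PowerSeries.coeff_succ_mul_X,
      PowerSeries.coeff_succ_C, PowerSeries.coeff_succ_C, map_sub, PowerSeries.coeff_succ_X_mul,
      PowerSeries.coeff_C_mul, PowerSeries.coeff_mk, PowerSeries.coeff_mk, tailSum_eq hm f (j + 2)]
    ring

theorem division_unique {m : ℕ} (hm : 1 ≤ m) {a b : k⟦X⟧} {h : k⟦X⟧⟦X⟧}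
    (he : PowerSeries.C a + PowerSeries.C b * X = gpoly k m * h) : a = 0 ∧ b = 0 := by
  have h1 : gpoly k m * h = X * (X * h - PowerSeries.C ((X : k⟦X⟧) ^ m) * h) := by
    rw [gpoly]
    ring
  rw [h1] at he
  have ha : a = 0 := by
    have := congrArg (PowerSeries.coeff 0) he
    rwa [map_add, PowerSeries.coeff_zero_X_mul, PowerSeries.coeff_zero_mul_X,
      PowerSeries.coeff_zero_C, add_zero] at this
  refine ⟨ha, ?_⟩
  have hb : b = - (X ^ m * PowerSeries.coeff 0 h) := by
    have := congrArg (PowerSeries.coeff 1) he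
    rwa [map_add, PowerSeries.coeff_succ_X_mul, PowerSeries.coeff_succ_mul_X,
      PowerSeries.coeff_zero_C, map_sub, PowerSeries.coeff_zero_X_mul, PowerSeries.coeff_C_mul,
      PowerSeries.coeff_succ_C, zero_add, zero_sub] at this
  have hj : ∀ j, PowerSeries.coeff j h = X ^ m * PowerSeries.coeff (j + 1) h := by
    intro j
    have := congrArg (PowerSeries.coeff (j + 2)) he
    rw [map_add, PowerSeries.coeff_succ_X_mul, PowerSeries.coeff_succ_mul_X,
      PowerSeries.coeff_succ_C, map_sub, PowerSeries.coeff_succ_X_mul, PowerSeries.coeff_C_mul,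
      PowerSeries.coeff_succ_C, zero_add] at this
    exact (sub_eq_zero.mp this.symm)
  have hk : ∀ j, (X : k⟦X⟧) ^ j ∣ PowerSeries.coeff 0 h := by
    have : ∀ j i, (X : k⟦X⟧) ^ j ∣ PowerSeries.coeff i h := by
      intro j
      induction j with
      | zero =>
        intro i
        rw [pow_zero]
        exact one_dvd _
      | succ j ih =>
        intro i
        rw [hj i, pow_succ']
        exact mul_dvd_mul (dvd_pow_self _ (by omega)) (ih (i + 1))
    exact fun j => this j 0
  have h0 : PowerSeries.coeff 0 h = 0 := by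
    ext n
    rw [map_zero]
    exact (PowerSeries.X_pow_dvd_iff.mp (hk (n + 1))) n (by omega)
  rw [hb, h0, mul_zero, neg_zero]

end Pool.Agent.H43.Quot
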