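import Pool.Agent.H43.Quot.Lat

/-!
The recursion step: splitting off one coordinate.
-/

namespace Pool.Agent.H43.Quot

open PowerSeries

variable {k : Type} [Field k]
variable {F G : Type} [AddCommGroup F] [Module k⟦X⟧ F] [AddCommGroup G] [Module k⟦X⟧ G]

/-- `id × φ` -/
noncomputable def idProd (φ : F →ₗ[k⟦X⟧] G) : (k⟦X⟧ × F) →ₗ[k⟦X⟧] (k⟦X⟧ × G) :=
  LinearMap.prodMap LinearMap.id φ

/-- `X × φ` -/
noncomputable def xProd (φ : F →ₗ[k⟦X⟧] G) : (k⟦X⟧ × F) →ₗ[k⟦X⟧] (k⟦X⟧ × G) :=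
  LinearMap.prodMap (LinearMap.lsmul k⟦X⟧ k⟦X⟧ (X : k⟦X⟧)) φ

theorem idProd_apply (φ : F →ₗ[k⟦X⟧] G) (a : k⟦X⟧) (b : F) : idProd φ (a, b) = (a, φ b) := rfl

theorem xProd_apply (φ : F →ₗ[k⟦X⟧] G) (a : k⟦X⟧) (b : F) : xProd φ (a, b) = (X * a, φ b) := rfl

theorem mem_tg {m : ℕ} {φ : F →ₗ[k⟦X⟧] G} {N : Submodule k⟦X⟧ F} {y : G} :
    y ∈ tg m φ N ↔ ∃ b ∈ N, ∃ v : G, φ b + (X : k⟦X⟧) ^ m • v = y := by
  rw [tg, Submodule.mem_sup]
  constructor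
  · rintro ⟨_, ⟨b, hb, rfl⟩, _, ⟨v, rfl⟩, h⟩
    exact ⟨b, hb, v, h⟩
  · rintro ⟨b, hb, v, h⟩
    exact ⟨φ b, ⟨b, hb, rfl⟩, (X : k⟦X⟧) ^ m • v, ⟨v, rfl⟩, h⟩

theorem im_tg (m : ℕ) (φ : F →ₗ[k⟦X⟧] G) (N : Submodule k⟦X⟧ (k⟦X⟧ × F)) (h : im N = ⊤) :
    im (tg m (idProd φ) N) = ⊤ := by
  rw [eq_top_iff]
  intro a _
  have ha : a ∈ im N := by rw [h]; trivial
  obtain ⟨b, hb⟩ := mem_im.mp ha
  exact mem_im.mpr ⟨φ b, mem_tg.mpr ⟨(a, b), hb, 0, by rw [idProd_apply, smul_zero, add_zero]⟩⟩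

theorem ke_tg (m : ℕ) (φ : F →ₗ[k⟦X⟧] G) (N : Submodule k⟦X⟧ (k⟦X⟧ × F)) (h : im N = ⊤) :
    ke (tg m (idProd φ) N) = tg m φ (ke N) := by
  ext y
  rw [mem_ke, mem_tg, mem_tg]
  constructor
  · rintro ⟨⟨a, b⟩, hab, ⟨u, v⟩, he⟩
    have h1 : a + (X : k⟦X⟧) ^ m • u = 0 := congrArg Prod.fst he
    have h2 : φ b + (X : k⟦X⟧) ^ m • v = y := congrArg Prod.snd he
    have hu : u ∈ im N := by rw [h]; trivial
    obtain ⟨b', hb'⟩ := mem_im.mp hu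
    refine ⟨b + (X : k⟦X⟧) ^ m • b', ?_, v - φ b', ?_⟩
    · rw [mem_ke]
      have h3 := N.add_mem hab (N.smul_mem ((X : k⟦X⟧) ^ m) hb')
      have e : ((a, b) + (X : k⟦X⟧) ^ m • (u, b') : k⟦X⟧ × F) = (0, b + (X : k⟦X⟧) ^ m • b') :=
        Prod.ext h1 rfl
      rwa [e] at h3
    · rw [map_add, map_smul, smul_sub, ← h2]
      abel
  · rintro ⟨b, hb, v, he⟩
    refine ⟨(0, b), mem_ke.mp hb, (0, v), ?_⟩
    rw [idProd_apply]
    refine Prod.ext ?_ he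
    show (0 : k⟦X⟧) + (X : k⟦X⟧) ^ m • 0 = 0
    rw [smul_zero, add_zero]

theorem card_lin_top (M : Type) [AddCommGroup M] [Module k⟦X⟧ M] :
    Nat.card ((⊤ : Submodule k⟦X⟧ k⟦X⟧) →ₗ[k⟦X⟧] M) = Nat.card M := by
  refine Nat.card_congr ?_
  refine Equiv.trans (LinearEquiv.congrLeft M k⟦X⟧
    (Submodule.topEquiv (R := k⟦X⟧) (M := k⟦X⟧))).toEquiv ?_
  exact (LinearMap.ringLmapEquivSelf k⟦X⟧ k⟦X⟧ M).toEquiv

theorem card_quot_top (M : Type) [AddCommGroup M] [Module k⟦X⟧ M] :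
    Nat.card (M ⧸ (⊤ : Submodule k⟦X⟧ M)) = 1 := by
  have : Subsingleton (M ⧸ (⊤ : Submodule k⟦X⟧ M)) := by
    constructor
    intro a b
    obtain ⟨a, rfl⟩ := (⊤ : Submodule k⟦X⟧ M).mkQ_surjective a
    obtain ⟨b, rfl⟩ := (⊤ : Submodule k⟦X⟧ M).mkQ_surjective b
    exact (Submodule.Quotient.eq _).mpr trivial
  exact Nat.card_unique

theorem card_quot_im_top {M : Type} [AddCommGroup M] [Module k⟦X⟧ M]
    (N : Submodule k⟦X⟧ (k⟦X⟧ × M)) (h : im N = ⊤) :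
    Nat.card ((k⟦X⟧ × M) ⧸ N) = Nat.card (M ⧸ ke N) := by
  rw [card_quot, h, card_quot_top, one_mul]

theorem topMap_mem {m n : ℕ} {φ : F →ₗ[k⟦X⟧] G} (J : USet m φ n)
    (g : (⊤ : Submodule k⟦X⟧ k⟦X⟧) →ₗ[k⟦X⟧] F ⧸ J.1) :
    Nat.card ((k⟦X⟧ × F) ⧸ (graphSub ⊤ J.1 g)) *
      Nat.card ((k⟦X⟧ × G) ⧸ tg m (idProd φ) (graphSub ⊤ J.1 g)) = Nat.card k ^ n := by
  rw [card_quot_im_top _ (im_graphSub _ _ _),
    card_quot_im_top _ (im_tg _ _ _ (im_graphSub _ _ _)), ke_tg _ _ _ (im_graphSub _ _ _),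
    ke_graphSub]
  exact J.2

/-- part 1 of the step -/
noncomputable def topMap (m n : ℕ) (φ : F →ₗ[k⟦X⟧] G)
    (p : Σ J : USet m φ n, ((⊤ : Submodule k⟦X⟧ k⟦X⟧) →ₗ[k⟦X⟧] F ⧸ J.1)) :
    {N : USet m (idProd φ) n // im N.1 = ⊤} :=
  ⟨⟨graphSub ⊤ p.1.1 p.2, topMap_mem p.1 p.2⟩, im_graphSub _ _ _⟩

theorem topMap_bij (m n : ℕ) (φ : F →ₗ[k⟦X⟧] G) : Function.Bijective (topMap m n φ) := by
  constructor
  · rintro ⟨J, g⟩ ⟨J', g'⟩ h
    have h1 : graphSub ⊤ J.1 g = graphSub ⊤ J'.1 g' :=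
      congrArg (fun N : {N : USet m (idProd φ) n // im N.1 = ⊤} => N.1.1) h
    have h2 : J.1 = J'.1 := by
      rw [← ke_graphSub ⊤ J.1 g, h1, ke_graphSub]
    have h3 : J = J' := Subtype.ext h2
    subst h3
    rw [graphSub_injective _ _ h1]
  · rintro ⟨N, hN⟩
    obtain ⟨g, hg⟩ := (fiberEquiv (⊤ : Submodule k⟦X⟧ k⟦X⟧) (ke N.1)).surjective ⟨N.1, hN, rfl⟩
    have hg' : graphSub ⊤ (ke N.1) g = N.1 := congrArg Subtype.val hg
    have hJ : Nat.card (F ⧸ ke N.1) * Nat.card (G ⧸ tg m φ (ke N.1)) = Nat.card k ^ n := by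
      have h1 := N.2
      rwa [card_quot_im_top _ hN, card_quot_im_top _ (im_tg _ _ _ hN), ke_tg _ _ _ hN] at h1
    exact ⟨⟨⟨ke N.1, hJ⟩, g⟩, Subtype.ext (Subtype.ext hg')⟩

theorem card_fin_fun (D : ℕ) (M : Type) : Nat.card (Fin D → M) = Nat.card M ^ D := by
  rw [Nat.card_fun]
  simp

theorem card_sigma_const {α : Type} (β : α → Type) [Finite α] [∀ a, Finite (β a)] (c : ℕ)
    (h : ∀ a, Nat.card (β a) = c) : Nat.card (Σ a, β a) = Nat.card α * c := by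
  classical
  have := Fintype.ofFinite α
  rw [Nat.card_sigma, Finset.sum_congr rfl (fun a _ => h a)]
  simp

theorem step_top [Finite k] [Module.Finite k⟦X⟧ F] (m n D : ℕ) (φ : F →ₗ[k⟦X⟧] G) :
    Nat.card (Σ N : {N : USet m (idProd φ) n // im N.1 = ⊤},
      (Fin (D + 1) → (k⟦X⟧ × G) ⧸ tg m (idProd φ) N.1.1)) = Nat.card k ^ n * U m φ D n := by
  have hfin := finite_USet (k := k) m n φ
  have hF : ∀ J : USet m φ n, Finite (F ⧸ J.1) := fun J => J.finF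
  have hG : ∀ J : USet m φ n, Finite (G ⧸ tg m φ J.1) := fun J => J.finG
  have hL : ∀ J : USet m φ n,
      Finite ((⊤ : Submodule k⟦X⟧ k⟦X⟧) →ₗ[k⟦X⟧] F ⧸ J.1) := by
    intro J
    apply Nat.finite_of_card_ne_zero
    rw [card_lin_top]
    exact Nat.card_pos.ne'
  -- transport along the bijection
  have e1 : (Σ N : {N : USet m (idProd φ) n // im N.1 = ⊤},
      (Fin (D + 1) → (k⟦X⟧ × G) ⧸ tg m (idProd φ) N.1.1)) ≃
      (Σ p : (Σ J : USet m φ n, ((⊤ : Submodule k⟦X⟧ k⟦X⟧) →ₗ[k⟦X⟧] F ⧸ J.1)),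
        (Fin (D + 1) → (k⟦X⟧ × G) ⧸ tg m (idProd φ) (topMap m n φ p).1.1)) :=
    (Equiv.sigmaCongrLeft (Equiv.ofBijective _ (topMap_bij m n φ))).symm
  have e2 := Equiv.sigmaAssoc (α := USet m φ n)
    (β := fun J => ((⊤ : Submodule k⟦X⟧ k⟦X⟧) →ₗ[k⟦X⟧] F ⧸ J.1))
    (fun J g => (Fin (D + 1) → (k⟦X⟧ × G) ⧸ tg m (idProd φ) (topMap m n φ ⟨J, g⟩).1.1))
  rw [Nat.card_congr (e1.trans e2)]
  have hq : ∀ (J : USet m φ n) (g : (⊤ : Submodule k⟦X⟧ k⟦X⟧) →ₗ[k⟦X⟧] F ⧸ J.1),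
      Nat.card ((k⟦X⟧ × G) ⧸ tg m (idProd φ) (topMap m n φ ⟨J, g⟩).1.1) =
        Nat.card (G ⧸ tg m φ J.1) := by
    intro J g
    have h0 : (topMap m n φ ⟨J, g⟩).1.1 = graphSub ⊤ J.1 g := rfl
    rw [h0, card_quot_im_top _ (im_tg _ _ _ (im_graphSub _ _ _)), ke_tg _ _ _ (im_graphSub _ _ _),
      ke_graphSub]
  have hfin2 : ∀ (J : USet m φ n) (g : (⊤ : Submodule k⟦X⟧ k⟦X⟧) →ₗ[k⟦X⟧] F ⧸ J.1),
      Finite ((k⟦X⟧ × G) ⧸ tg m (idProd φ) (topMap m n φ ⟨J, g⟩).1.1) := by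
    intro J g
    apply Nat.finite_of_card_ne_zero
    rw [hq]
    have := hG J
    exact Nat.card_pos.ne'
  refine card_sigma_eq _ fun J => ?_
  have := hfin2 J
  have := hL J
  have hJ := J.2
  rw [card_sigma_const _ (Nat.card (G ⧸ tg m φ J.1) ^ (D + 1)) (fun g => by
    rw [card_fin_fun, hq]), card_lin_top, card_fin_fun, pow_succ,
    mul_comm (Nat.card (G ⧸ tg m φ J.1) ^ D), ← mul_assoc]
  exact congrArg (· * Nat.card (G ⧸ tg m φ J.1) ^ D) hJ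

/-! ### the other part -/

theorem xProd_injective : Function.Injective (xProd (LinearMap.id : F →ₗ[k⟦X⟧] F)) := by
  rintro ⟨a, b⟩ ⟨a', b'⟩ h
  have h1 : (X : k⟦X⟧) * a = X * a' := congrArg Prod.fst h
  have h2 : b = b' := congrArg Prod.snd h
  rw [mul_left_cancel₀ PowerSeries.X_ne_zero h1, h2]

theorem im_range_xProd :
    im (LinearMap.range (xProd (LinearMap.id : F →ₗ[k⟦X⟧] F))) = Ideal.span {(X : k⟦X⟧) ^ 1} := by
  ext a
  rw [mem_im, Ideal.mem_span_singleton, pow_one]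
  constructor
  · rintro ⟨b, ⟨a', b'⟩, h⟩
    exact ⟨a', (congrArg Prod.fst h).symm⟩
  · rintro ⟨a', rfl⟩
    exact ⟨0, (a', 0), rfl⟩

theorem ke_range_xProd :
    ke (LinearMap.range (xProd (LinearMap.id : F →ₗ[k⟦X⟧] F))) = ⊤ := by
  rw [eq_top_iff]
  intro b _
  rw [mem_ke]
  refine ⟨(0, b), ?_⟩
  rw [xProd_apply, mul_zero]
  rfl

theorem card_range_xProd :
    Nat.card ((k⟦X⟧ × F) ⧸ LinearMap.range (xProd (LinearMap.id : F →ₗ[k⟦X⟧] F))) = Nat.card k := by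
  have h1 := card_quot_pow (k := k) 1
  rw [card_quot, ke_range_xProd, card_quot_top, mul_one, im_range_xProd]
  rw [h1, pow_one]

theorem tg_xProd (m : ℕ) (φ : F →ₗ[k⟦X⟧] G) (N : Submodule k⟦X⟧ (k⟦X⟧ × F)) :
    tg m (idProd φ) (N.map (xProd LinearMap.id)) = tg m (xProd φ) N := by
  rw [tg, tg, ← Submodule.map_comp]
  rfl

theorem ideal_le_of_ne_top [Finite k] {I : Ideal k⟦X⟧} (h : Nat.card (k⟦X⟧ ⧸ I) ≠ 0) (h1 : I ≠ ⊤) :
    I ≤ Ideal.span {(X : k⟦X⟧)} := by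
  obtain ⟨n, rfl⟩ := ideal_of_finite h
  rcases n with _ | n
  · exfalso
    apply h1
    rw [pow_zero, Ideal.span_singleton_one]
  · rw [Ideal.span_singleton_le_span_singleton]
    exact dvd_pow_self _ (Nat.succ_ne_zero n)

theorem range_of_ne_top [Finite k] {N : Submodule k⟦X⟧ (k⟦X⟧ × F)}
    (h : Nat.card ((k⟦X⟧ × F) ⧸ N) ≠ 0) (h1 : im N ≠ ⊤) :
    N ≤ LinearMap.range (xProd (LinearMap.id : F →ₗ[k⟦X⟧] F)) := by
  rw [card_quot] at h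
  have h2 := ideal_le_of_ne_top (left_ne_zero_of_mul h) h1
  rintro ⟨a, b⟩ hab
  have h3 := h2 (mem_im.mpr ⟨b, hab⟩)
  rw [Ideal.mem_span_singleton] at h3
  obtain ⟨a', ha'⟩ := h3
  exact ⟨(a', b), Prod.ext ha'.symm rfl⟩

theorem card_map_xProd (N : Submodule k⟦X⟧ (k⟦X⟧ × F)) :
    Nat.card ((k⟦X⟧ × F) ⧸ N.map (xProd LinearMap.id)) =
      Nat.card k * Nat.card ((k⟦X⟧ × F) ⧸ N) := by
  rw [card_map_inj _ xProd_injective, card_range_xProd]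

/-- part 2 of the step -/
noncomputable def xMap [Finite k] (m n : ℕ) (φ : F →ₗ[k⟦X⟧] G) (N : USet m (xProd φ) n) :
    {N : USet m (idProd φ) (n + 1) // ¬ im N.1 = ⊤} :=
  ⟨⟨N.1.map (xProd LinearMap.id), by
    rw [tg_xProd, card_map_xProd, mul_assoc]
    exact (congrArg (Nat.card k * ·) N.2).trans (pow_succ' _ _).symm⟩, by
    intro h
    have h1 : im (N.1.map (xProd (LinearMap.id : F →ₗ[k⟦X⟧] F))) ≤ Ideal.span {(X : k⟦X⟧) ^ 1} := by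
      rw [← im_range_xProd (F := F)]
      exact Submodule.map_mono (LinearMap.map_le_range)
    have h2 : im (N.1.map (xProd (LinearMap.id : F →ₗ[k⟦X⟧] F))) = ⊤ := h
    rw [h2, top_le_iff, pow_one, Ideal.span_singleton_eq_top] at h1
    exact X_irred.not_isUnit h1⟩

theorem xMap_bij [Finite k] (m n : ℕ) (φ : F →ₗ[k⟦X⟧] G) : Function.Bijective (xMap m n φ) := by
  constructor
  · intro N N' h
    have h1 : N.1.map (xProd LinearMap.id) = N'.1.map (xProd LinearMap.id) :=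
      congrArg (fun N : {N : USet m (idProd φ) (n + 1) // ¬ im N.1 = ⊤} => N.1.1) h
    exact Subtype.ext (Submodule.map_injective_of_injective xProd_injective h1)
  · rintro ⟨N, hN⟩
    have hf : Nat.card ((k⟦X⟧ × F) ⧸ N.1) ≠ 0 := by
      have := N.finF
      exact Nat.card_pos.ne'
    have h1 : (N.1.comap (xProd LinearMap.id)).map (xProd LinearMap.id) = N.1 := by
      rw [Submodule.map_comap_eq]
      exact inf_eq_right.mpr (range_of_ne_top hf hN)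
    refine ⟨⟨N.1.comap (xProd LinearMap.id), ?_⟩, Subtype.ext (Subtype.ext h1)⟩
    have h2 := N.2
    rw [← h1, card_map_xProd, tg_xProd, mul_assoc] at h2
    exact Nat.eq_of_mul_eq_mul_left (lt_trans zero_lt_one one_lt_card) (h2.trans (pow_succ' _ _))

theorem step_ne [Finite k] (m n D : ℕ) (φ : F →ₗ[k⟦X⟧] G) :
    Nat.card (Σ N : {N : USet m (idProd φ) (n + 1) // ¬ im N.1 = ⊤},
      (Fin D → (k⟦X⟧ × G) ⧸ tg m (idProd φ) N.1.1)) = U m (xProd φ) D n := by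
  have e1 : (Σ N : {N : USet m (idProd φ) (n + 1) // ¬ im N.1 = ⊤},
      (Fin D → (k⟦X⟧ × G) ⧸ tg m (idProd φ) N.1.1)) ≃
      (Σ N : USet m (xProd φ) n,
        (Fin D → (k⟦X⟧ × G) ⧸ tg m (idProd φ) (xMap m n φ N).1.1)) :=
    (Equiv.sigmaCongrLeft (Equiv.ofBijective _ (xMap_bij m n φ))).symm
  rw [Nat.card_congr e1, U]
  refine Nat.card_congr (Equiv.sigmaCongrRight fun N => ?_)
  have h : tg m (idProd φ) (xMap m n φ N).1.1 = tg m (xProd φ) N.1 := tg_xProd _ _ _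
  rw [h]

theorem U_split [Finite k] [Module.Finite k⟦X⟧ F] (m n D : ℕ) (φ : F →ₗ[k⟦X⟧] G) :
    U m (idProd φ) D n =
      Nat.card (Σ N : {N : USet m (idProd φ) n // im N.1 = ⊤},
        (Fin D → (k⟦X⟧ × G) ⧸ tg m (idProd φ) N.1.1)) +
      Nat.card (Σ N : {N : USet m (idProd φ) n // ¬ im N.1 = ⊤},
        (Fin D → (k⟦X⟧ × G) ⧸ tg m (idProd φ) N.1.1)) := by
  classical
  have hfin := finite_USet (k := k) m n (idProd φ)
  have hG : ∀ N : USet m (idProd φ) n, Finite ((k⟦X⟧ × G) ⧸ tg m (idProd φ) N.1) :=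
    fun J => J.finG
  have hG1 : ∀ N : {N : USet m (idProd φ) n // im N.1 = ⊤},
    Finite ((k⟦X⟧ × G) ⧸ tg m (idProd φ) N.1.1) := fun J => J.1.finG
  have hG2 : ∀ N : {N : USet m (idProd φ) n // ¬ im N.1 = ⊤},
    Finite ((k⟦X⟧ × G) ⧸ tg m (idProd φ) N.1.1) := fun J => J.1.finG
  rw [U, ← Nat.card_sum]
  refine Nat.card_congr ?_
  refine Equiv.trans (Equiv.sigmaCongrLeft (Equiv.sumCompl
    (fun N : USet m (idProd φ) n => im N.1 = ⊤))).symm ?_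
  exact Equiv.sumSigmaDistrib _

theorem step_succ [Finite k] [Module.Finite k⟦X⟧ F] (m n D : ℕ) (φ : F →ₗ[k⟦X⟧] G) :
    U m (idProd φ) (D + 1) (n + 1) =
      Nat.card k ^ (n + 1) * U m φ D (n + 1) + U m (xProd φ) (D + 1) n := by
  rw [U_split, step_top, step_ne]

theorem step_zero [Finite k] [Module.Finite k⟦X⟧ F] (m D : ℕ) (φ : F →ₗ[k⟦X⟧] G) :
    U m (idProd φ) (D + 1) 0 = U m φ D 0 := by
  have h0 : Nat.card k ^ 0 * U m φ D 0 = U m φ D 0 := by rw [pow_zero, one_mul]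
  rw [U_split, step_top, h0, Nat.add_eq_left]
  have : IsEmpty (Σ N : {N : USet m (idProd φ) 0 // ¬ im N.1 = ⊤},
        (Fin (D + 1) → (k⟦X⟧ × G) ⧸ tg m (idProd φ) N.1.1)) := by
    constructor
    rintro ⟨⟨N, hN⟩, _⟩
    have h1 := N.2.trans (pow_zero _)
    have h2 : Nat.card ((k⟦X⟧ × F) ⧸ N.1) = 1 := Nat.eq_one_of_mul_eq_one_right h1
    have h3 : N.1 = ⊤ := by
      rw [eq_top_iff]
      intro x _
      have := (Nat.card_eq_one_iff_unique.mp h2).1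
      have h4 : N.1.mkQ x = 0 := Subsingleton.elim _ _
      exact (Submodule.Quotient.mk_eq_zero _).mp h4
    apply hN
    rw [h3, eq_top_iff]
    intro a _
    exact mem_im.mpr ⟨0, trivial⟩
  exact Nat.card_of_isEmpty

end Pool.Agent.H43.Quot
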